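import Pool.Agent.H.MP_66bcf1_co.Defs

/-!
Canonical families, specials and centres.
-/

namespace Pool.Agent.H.MP_66bcf1_co

open Finset

variable {α : Type*} [DecidableEq α]

/-- the sign patterns of `F` on the support `S` -/
def fam (F : Finset (PV α)) (S : Finset α) : Finset (Finset α) :=
  (F.filter fun p => p.1 = S).image Prod.snd

lemma mem_fam {F : Finset (PV α)} {S A : Finset α} : A ∈ fam F S ↔ (S, A) ∈ F := by
  unfold fam
  simp only [mem_image, mem_filter]
  constructor
  · rintro ⟨⟨S', A'⟩, ⟨h, rfl⟩, rfl⟩; exact h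
  · intro h; exact ⟨(S, A), ⟨h, rfl⟩, rfl⟩

/-- `T` is a witness that `S` is dirty -/
def Wit (F : Finset (PV α)) (s : ℕ) (S T : Finset α) : Prop :=
  T ⊆ S ∧ T.card = s ∧ ∃ A, (S, A) ∈ F ∧ ∃ q ∈ F, T ⊆ q.1 ∧ T ⊆ symmDiff A q.2

/-- some vector with support `S` has at least `s` opposite coordinates with a member of `F` -/
def Dirty (F : Finset (PV α)) (s : ℕ) (S : Finset α) : Prop := ∃ T, Wit F s S T

/-- the hypothesis on `F` -/
structure IsJ (k s : ℕ) (F : Finset (PV α)) : Prop where
  vec : ∀ p ∈ F, IsVec k p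
  cross : ∀ p ∈ F, ∀ q ∈ F, (p.1 ∩ q.1).card = s → ¬ (p.1 ∩ q.1 ⊆ symmDiff p.2 q.2)

/-- `S` is good with special `i` and centre `c` -/
def Sp (F : Finset (PV α)) (d : ℕ) (S : Finset α) (i : α) (c : Finset α) : Prop :=
  ¬ Dirty F (2 * d + 2) S ∧ i ∈ S ∧ c ⊆ S.erase i ∧ fam F S = Can S i c d

/-- `S` is good -/
def Good (F : Finset (PV α)) (d : ℕ) (S : Finset α) : Prop := ∃ i c, Sp F d S i c

lemma mem_Can {U : Finset α} {i : α} {c : Finset α} {d : ℕ} {A : Finset α} :
    A ∈ Can U i c d ↔ A ⊆ U ∧ ((symmDiff A c).erase i).card ≤ d := by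
  simp [Can]

lemma Sp.mem {F : Finset (PV α)} {d : ℕ} {S : Finset α} {i : α} {c : Finset α}
    (h : Sp F d S i c) {A : Finset α} (hA : A ⊆ S) (hd : ((symmDiff A c).erase i).card ≤ d) :
    (S, A) ∈ F := by
  rw [← mem_fam, h.2.2.2, mem_Can]; exact ⟨hA, hd⟩

lemma Sp.card {k s : ℕ} {F : Finset (PV α)} (hF : IsJ k s F) {d : ℕ} {S : Finset α} {i : α}
    {c : Finset α} (h : Sp F d S i c) : S.card = k :=
  (hF.vec _ (h.mem (A := c) (h.2.2.1.trans (erase_subset _ _)) (by simp))).1

lemma Good.card {k s : ℕ} {F : Finset (PV α)} (hF : IsJ k s F) {d : ℕ} {S : Finset α}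
    (h : Good F d S) : S.card = k := by
  obtain ⟨i, c, h⟩ := h; exact h.card hF

/-- clean sets have small diameter -/
lemma diam_of_clean {F : Finset (PV α)} {k s' : ℕ} (hF : IsJ k s' F) {s : ℕ} {S : Finset α}
    (h : ¬ Dirty F (s + 1) S) : ∀ A ∈ fam F S, ∀ B ∈ fam F S, (symmDiff A B).card ≤ s := by
  intro A hA B hB
  by_contra hc
  push Not at hc
  obtain ⟨T, hT, hTc⟩ := exists_subset_card_eq (n := s + 1) (by omega : s + 1 ≤ (symmDiff A B).card)
  rw [mem_fam] at hA hB
  have hAS : A ⊆ S := (hF.vec _ hA).2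
  have hBS : B ⊆ S := (hF.vec _ hB).2
  have hTS : T ⊆ S := by
    intro x hx
    have := hT hx
    rw [mem_symmDiff] at this
    rcases this with h | h
    · exact hAS h.1
    · exact hBS h.1
  exact h ⟨T, hTS, hTc, A, hA, (S, B), hB, hTS, hT⟩

/-- a pattern close to the centre extends to a member of the family -/
lemma Sp.extend {F : Finset (PV α)} {d : ℕ} {S : Finset α} {i : α} {c : Finset α}
    (hS : Sp F d S i c) {T σ : Finset α} (hT : T ⊆ S) (hσ : σ ⊆ T)
    (hc : ((symmDiff σ c ∩ T).erase i).card ≤ d) : ∃ A, (S, A) ∈ F ∧ A ∩ T = σ := by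
  have hcS : c ⊆ S := hS.2.2.1.trans (erase_subset _ _)
  refine ⟨σ ∪ (c \ T), hS.mem ?_ ?_, ?_⟩
  · exact union_subset (hσ.trans hT) (sdiff_subset.trans hcS)
  · have e : symmDiff (σ ∪ (c \ T)) c = symmDiff σ c ∩ T := by
      ext x
      simp only [mem_symmDiff, mem_union, mem_sdiff, mem_inter]
      have := @hσ x
      tauto
    rw [e]; exact hc
  · ext x
    simp only [mem_union, mem_sdiff, mem_inter]
    have := @hσ x
    tauto

/-- (P1) -/
lemma P1 {F : Finset (PV α)} {d : ℕ} {S : Finset α} {i : α} {c : Finset α}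
    (hS : Sp F d S i c) {T τ : Finset α} (hT : T ⊆ S) (hTc : T.card = 2 * d + 2) (hτ : τ ⊆ T)
    (h : ∀ A, (S, A) ∈ F → A ∩ T ≠ τ ∧ A ∩ T ≠ T \ τ) :
    i ∉ T ∧ (symmDiff τ c ∩ T).card = d + 1 := by
  have key : ∀ σ ⊆ T, (∀ A, (S, A) ∈ F → A ∩ T ≠ σ) → d < ((symmDiff σ c ∩ T).erase i).card := by
    intro σ hσ hn
    by_contra hc
    push Not at hc
    obtain ⟨A, hA, hA'⟩ := hS.extend hT hσ hc
    exact hn A hA hA'
  have h1 := key τ hτ fun A hA => (h A hA).1
  have h2 := key (T \ τ) sdiff_subset fun A hA => (h A hA).2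
  have e2 : symmDiff (T \ τ) c ∩ T = T \ (symmDiff τ c ∩ T) := by
    ext x
    simp only [mem_symmDiff, mem_sdiff, mem_inter]
    have := @hτ x
    tauto
  rw [e2] at h2
  have h3 : (symmDiff τ c ∩ T).card + (T \ (symmDiff τ c ∩ T)).card = T.card := by
    rw [card_sdiff_of_subset inter_subset_right]
    have := card_le_card (inter_subset_right : symmDiff τ c ∩ T ⊆ T)
    omega
  have h4 := card_erase_le (s := symmDiff τ c ∩ T) (a := i)
  have h5 := card_erase_le (s := T \ (symmDiff τ c ∩ T)) (a := i)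
  have hi : i ∉ T := by
    intro hi
    by_cases hm : i ∈ symmDiff τ c ∩ T
    · have := card_erase_of_mem hm
      have := card_pos.2 ⟨i, hm⟩
      omega
    · have hm' : i ∈ T \ (symmDiff τ c ∩ T) := mem_sdiff.2 ⟨hi, hm⟩
      have := card_erase_of_mem hm'
      have := card_pos.2 ⟨i, hm'⟩
      omega
  refine ⟨hi, ?_⟩
  omega

lemma mem4 {c Φ c' Φ' : Finset α} {x : α} :
    x ∈ symmDiff (symmDiff c Φ) (symmDiff c' Φ') ↔
      ¬ ((x ∈ c ↔ x ∈ c') ↔ (x ∈ Φ ↔ x ∈ Φ')) := by
  simp only [mem_symmDiff]; tauto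

/-- (R0) at most one free element -/
lemma R0 {F : Finset (PV α)} {d : ℕ} {S S' : Finset α} {i i' : α} {c c' : Finset α}
    (h1 : Sp F d S i c) (h2 : Sp F d S' i' c') (hs : 2 * d + 2 ≤ (S ∩ S').card)
    {j₁ j₂ : α} (hj : j₁ ≠ j₂) (hj₁ : j₁ ∈ S ∩ S') (hj₂ : j₂ ∈ S ∩ S')
    (f₁ : j₁ = i ∨ j₁ = i' ∨ (j₁ ∈ c ↔ j₁ ∉ c')) (f₂ : j₂ = i ∨ j₂ = i' ∨ (j₂ ∈ c ↔ j₂ ∉ c')) :
    False := by
  have hpair : ({j₁, j₂} : Finset α) ⊆ S ∩ S' := by
    intro x hx
    simp only [mem_insert, mem_singleton] at hx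
    rcases hx with rfl | rfl <;> assumption
  have hpc : ({j₁, j₂} : Finset α).card = 2 := card_pair hj
  obtain ⟨T, hT1, hT2, hTc⟩ := exists_subsuperset_card_eq hpair
    (by rw [hpc]; omega : ({j₁, j₂} : Finset α).card ≤ 2 * d + 2) hs
  have hD : (T \ {j₁, j₂}).card = 2 * d := by
    rw [card_sdiff_of_subset hT1, hTc, hpc]; omega
  obtain ⟨D, hD1, hDc⟩ := exists_subset_card_eq (n := d) (by omega : d ≤ (T \ {j₁, j₂}).card)
  set D' := (T \ {j₁, j₂}) \ D with hD'
  have hD'c : D'.card = d := by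
    rw [hD', card_sdiff_of_subset hD1, hD, hDc]; omega
  -- the flips
  let E := T.filter fun j => (j ∈ c ↔ j ∈ c')
  let Φ := (E ∩ D) ∪ ((E ∩ {j₁, j₂}).filter fun j => j = i)
  let Φ' := (E ∩ D') ∪ ((E ∩ {j₁, j₂}).filter fun j => j ≠ i)
  have hcS : c ⊆ S := h1.2.2.1.trans (erase_subset _ _)
  have hcS' : c' ⊆ S' := h2.2.2.1.trans (erase_subset _ _)
  have hTS : T ⊆ S := hT2.trans inter_subset_left
  have hTS' : T ⊆ S' := hT2.trans inter_subset_right
  have hΦ : Φ ⊆ T := by
    intro x hx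
    simp only [Φ, E, mem_union, mem_inter, mem_filter] at hx
    tauto
  have hΦ' : Φ' ⊆ T := by
    intro x hx
    simp only [Φ', E, mem_union, mem_inter, mem_filter] at hx
    tauto
  have m1 : (S, symmDiff c Φ) ∈ F := by
    apply h1.mem
    · intro x hx
      rw [mem_symmDiff] at hx
      rcases hx with hx | hx
      · exact hcS hx.1
      · exact hTS (hΦ hx.1)
    · have e : symmDiff (symmDiff c Φ) c = Φ := by
        rw [symmDiff_comm c Φ, symmDiff_symmDiff_cancel_right]
      rw [e, ← hDc]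
      apply card_le_card
      intro x hx
      simp only [Φ, E, mem_erase, mem_union, mem_inter, mem_filter] at hx
      tauto
  have m2 : (S', symmDiff c' Φ') ∈ F := by
    apply h2.mem
    · intro x hx
      rw [mem_symmDiff] at hx
      rcases hx with hx | hx
      · exact hcS' hx.1
      · exact hTS' (hΦ' hx.1)
    · have e : symmDiff (symmDiff c' Φ') c' = Φ' := by
        rw [symmDiff_comm c' Φ', symmDiff_symmDiff_cancel_right]
      rw [e]
      conv_rhs => rw [← hD'c]
      apply card_le_card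
      intro x hx
      simp only [Φ', E, mem_erase, mem_union, mem_inter, mem_filter, mem_insert,
        mem_singleton] at hx
      rcases hx with ⟨hxi', hx | ⟨⟨⟨hxT, hxc⟩, rfl | rfl⟩, hxi⟩⟩
      · exact hx.2
      · exfalso; tauto
      · exfalso; tauto
  refine h1.1 ⟨T, hTS, hTc, _, m1, _, m2, hTS', ?_⟩
  intro x hx
  by_cases hE : x ∈ c ↔ x ∈ c'
  · -- exactly one flip
    have hxE : x ∈ E := mem_filter.2 ⟨hx, hE⟩
    by_cases hp : x ∈ ({j₁, j₂} : Finset α)
    · have hxD : x ∉ D := fun h => (mem_sdiff.1 (hD1 h)).2 hp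
      have hxD' : x ∉ D' := fun h => (mem_sdiff.1 (mem_sdiff.1 h).1).2 hp
      by_cases hxi : x = i
      · have a1 : x ∈ Φ := mem_union_right _ (mem_filter.2 ⟨mem_inter.2 ⟨hxE, hp⟩, hxi⟩)
        have a2 : x ∉ Φ' := by
          simp only [Φ', mem_union, mem_inter, mem_filter, not_or, not_and]
          exact ⟨fun _ => hxD', fun _ h => h hxi⟩
        rw [mem4]; simp [hE, a1, a2]
      · have a1 : x ∈ Φ' := mem_union_right _ (mem_filter.2 ⟨mem_inter.2 ⟨hxE, hp⟩, hxi⟩)
        have a2 : x ∉ Φ := by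
          simp only [Φ, mem_union, mem_inter, mem_filter, not_or, not_and]
          exact ⟨fun _ => hxD, fun _ h => hxi h⟩
        rw [mem4]; simp [hE, a1, a2]
    · by_cases hxD : x ∈ D
      · have a1 : x ∈ Φ := mem_union_left _ (mem_inter.2 ⟨hxE, hxD⟩)
        have a2 : x ∉ Φ' := by
          simp only [Φ', mem_union, mem_inter, mem_filter, not_or, not_and]
          exact ⟨fun _ h => (mem_sdiff.1 h).2 hxD, fun h => absurd h.2 hp⟩
        rw [mem4]; simp [hE, a1, a2]
      · have a1 : x ∈ Φ' := mem_union_left _ (mem_inter.2 ⟨hxE, mem_sdiff.2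
          ⟨mem_sdiff.2 ⟨hx, hp⟩, hxD⟩⟩)
        have a2 : x ∉ Φ := by
          simp only [Φ, mem_union, mem_inter, mem_filter, not_or, not_and]
          exact ⟨fun _ => hxD, fun h => absurd h.2 hp⟩
        rw [mem4]; simp [hE, a1, a2]
  · have hxE : x ∉ E := fun h => hE (mem_filter.1 h).2
    have a1 : x ∉ Φ := by
      simp only [Φ, mem_union, mem_inter, mem_filter, not_or, not_and]
      exact ⟨fun h => absurd h hxE, fun h => absurd h.1 hxE⟩
    have a2 : x ∉ Φ' := by
      simp only [Φ', mem_union, mem_inter, mem_filter, not_or, not_and]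
      exact ⟨fun h => absurd h hxE, fun h => absurd h.1 hxE⟩
    rw [mem4]; simp [hE, a1, a2]

/-- (R1) -/
lemma R1 {F : Finset (PV α)} {d : ℕ} {S S' : Finset α} {i i' : α} {c c' : Finset α}
    (h1 : Sp F d S i c) (h2 : Sp F d S' i' c') (hs : 2 * d + 2 ≤ (S ∩ S').card)
    (hi : i ∈ S') (hi' : i' ∈ S) : i = i' := by
  by_contra hne
  exact R0 h1 h2 hs hne (mem_inter.2 ⟨h1.2.1, hi⟩) (mem_inter.2 ⟨hi', h2.2.1⟩) (Or.inl rfl)
    (Or.inr (Or.inl rfl))

/-- (R2) -/
lemma R2 {F : Finset (PV α)} {d : ℕ} {S S' : Finset α} {i i' : α} {c c' : Finset α}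
    (h1 : Sp F d S i c) (h2 : Sp F d S' i' c') (hs : 2 * d + 2 ≤ (S ∩ S').card)
    (hi : i ∈ S' ∨ i' ∈ S) {j : α} (hj : j ∈ S) (hj' : j ∈ S') (hji : j ≠ i) (hji' : j ≠ i') :
    j ∈ c ↔ j ∈ c' := by
  by_contra hne
  have hf : j ∈ c ↔ j ∉ c' := by tauto
  rcases hi with hi | hi
  · exact R0 h1 h2 hs hji (mem_inter.2 ⟨hj, hj'⟩) (mem_inter.2 ⟨h1.2.1, hi⟩)
      (Or.inr (Or.inr hf)) (Or.inl rfl)
  · exact R0 h1 h2 hs hji' (mem_inter.2 ⟨hj, hj'⟩) (mem_inter.2 ⟨hi, h2.2.1⟩)
      (Or.inr (Or.inr hf)) (Or.inr (Or.inl rfl))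

/-- swapping one element -/
lemma inter_swap {S : Finset α} {a b : α} (hb : b ∉ S) :
    S ∩ insert b (S.erase a) = S.erase a := by
  ext x
  simp only [mem_inter, mem_insert, mem_erase]
  constructor
  · rintro ⟨h1, rfl | h2⟩
    · exact absurd h1 hb
    · exact h2
  · rintro ⟨h1, h2⟩; exact ⟨h2, Or.inr ⟨h1, h2⟩⟩

lemma card_swap {S : Finset α} {a b : α} (ha : a ∈ S) (hb : b ∉ S) :
    (insert b (S.erase a)).card = S.card := by
  rw [card_insert_of_notMem (fun h => hb (mem_of_mem_erase h)), card_erase_of_mem ha]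
  have := card_pos.2 ⟨a, ha⟩
  omega

/-- the special of a swap -/
lemma special_swap {F : Finset (PV α)} {d k : ℕ} (hk : 2 * d + 3 ≤ k) {S : Finset α}
    (hS : S.card = k) {i : α} {c : Finset α} (h1 : Sp F d S i c) {a b : α} (ha : a ∈ S)
    (hb : b ∉ S) (hai : a ≠ i) {i₁ : α} {c₁ : Finset α}
    (h2 : Sp F d (insert b (S.erase a)) i₁ c₁) : i₁ = i ∨ i₁ = b := by
  have hi : i ∈ insert b (S.erase a) := mem_insert_of_mem (mem_erase.2 ⟨hai.symm, h1.2.1⟩)
  rcases mem_insert.1 h2.2.1 with h | h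
  · exact Or.inr h
  · refine Or.inl (R1 h1 h2 ?_ hi (mem_of_mem_erase h)).symm
    rw [inter_swap hb, card_erase_of_mem ha]; omega

/-- (chain M) -/
theorem chainM {F : Finset (PV α)} {d k : ℕ} (hk : 2 * d + 3 ≤ k) {S' : Finset α}
    (hS' : S'.card = k) {i' : α} {c' : Finset α} (h2 : Sp F d S' i' c') {y : α} (hy' : y ∈ S') :
    ∀ (m : ℕ) (S : Finset α) (i : α) (c : Finset α), (S \ S').card = m → S.card = k →
      Sp F d S i c → y ∈ S → i ∈ S' → i ≠ y →
      (∀ U : Finset α, U.card = k → S ∩ S' ⊆ U → U ⊆ S ∪ S' → Good F d U) → i' ≠ y := by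
  intro m
  induction m with
  | zero =>
    intro S i c hm hS h1 hy hi hiy _
    have hsub : S ⊆ S' := by
      rw [card_eq_zero, sdiff_eq_empty_iff_subset] at hm; exact hm
    have he : S = S' := eq_of_subset_of_card_le hsub (by omega)
    subst he
    have := R1 h1 h2 (by rw [inter_self]; omega) h1.2.1 h2.2.1
    rw [← this]; exact hiy
  | succ m ih =>
    intro S i c hm hS h1 hy hi hiy hall
    obtain ⟨a, ha⟩ := card_pos.1 (by omega : 0 < (S \ S').card)
    have hcard : (S' \ S).card = (S \ S').card := by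
      have e1 := card_sdiff_add_card_inter S S'
      have e2 := card_sdiff_add_card_inter S' S
      rw [inter_comm] at e2
      omega
    obtain ⟨b, hb⟩ := card_pos.1 (by omega : 0 < (S' \ S).card)
    rw [mem_sdiff] at ha hb
    have hai : a ≠ i := fun h => ha.2 (h ▸ hi)
    have hS1 : (insert b (S.erase a)).card = k := by rw [card_swap ha.1 hb.2, hS]
    obtain ⟨i₁, c₁, h3⟩ := hall (insert b (S.erase a)) hS1 (by
      intro x hx
      rw [mem_inter] at hx
      exact mem_insert_of_mem (mem_erase.2 ⟨fun h => ha.2 (h ▸ hx.2), hx.1⟩)) (by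
      intro x hx
      rcases mem_insert.1 hx with rfl | hx
      · exact mem_union_right _ hb.1
      · exact mem_union_left _ (mem_of_mem_erase hx))
    have hsp := special_swap hk hS h1 ha.1 hb.2 hai h3
    have hay : a ≠ y := fun h => ha.2 (h ▸ hy')
    refine ih (insert b (S.erase a)) i₁ c₁ ?_ hS1 h3
      (mem_insert_of_mem (mem_erase.2 ⟨hay.symm, hy⟩)) ?_ ?_ ?_
    · have e : insert b (S.erase a) \ S' = (S \ S').erase a := by
        ext x
        simp only [mem_sdiff, mem_insert, mem_erase]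
        constructor
        · rintro ⟨rfl | h, h'⟩
          · exact absurd hb.1 h'
          · exact ⟨h.1, h.2, h'⟩
        · rintro ⟨h, h', h''⟩; exact ⟨Or.inr ⟨h, h'⟩, h''⟩
      rw [e, card_erase_of_mem (mem_sdiff.2 ha)]; omega
    · rcases hsp with rfl | rfl
      · exact hi
      · exact hb.1
    · rcases hsp with rfl | rfl
      · exact hiy
      · exact fun h => hb.2 (h ▸ hy)
    · intro U hU hU1 hU2
      refine hall U hU ?_ ?_
      · intro x hx
        apply hU1
        rw [mem_inter] at hx ⊢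
        exact ⟨mem_insert_of_mem (mem_erase.2 ⟨fun h => ha.2 (h ▸ hx.2), hx.1⟩), hx.2⟩
      · intro x hx
        rcases mem_union.1 (hU2 hx) with h | h
        · rcases mem_insert.1 h with rfl | h
          · exact mem_union_right _ hb.1
          · exact mem_union_left _ (mem_of_mem_erase h)
        · exact mem_union_right _ h

/-- (chain W) -/
theorem chainW {F : Finset (PV α)} {d k : ℕ} (hk : 2 * d + 3 ≤ k) {S' : Finset α}
    (hS' : S'.card = k) {i' : α} {c' : Finset α} (h2 : Sp F d S' i' c') {j : α} (hj' : j ∈ S')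
    (hji' : i' ≠ j) :
    ∀ (m : ℕ) (S : Finset α) (i : α) (c : Finset α), (S \ S').card = m → S.card = k →
      Sp F d S i c → j ∈ S → i ≠ j →
      (∀ U : Finset α, U.card = k → j ∈ U → U ⊆ S ∪ S' → Good F d U) → (j ∈ c ↔ j ∈ c') := by
  intro m
  induction m with
  | zero =>
    intro S i c hm hS h1 hj hij _
    have hsub : S ⊆ S' := by
      rw [card_eq_zero, sdiff_eq_empty_iff_subset] at hm; exact hm
    have he : S = S' := eq_of_subset_of_card_le hsub (by omega)
    subst he
    exact R2 h1 h2 (by rw [inter_self]; omega) (Or.inl h1.2.1) hj hj' hij.symm hji'.symm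
  | succ m ih =>
    intro S i c hm hS h1 hj hij hall
    have hcard : (S' \ S).card = (S \ S').card := by
      have e1 := card_sdiff_add_card_inter S S'
      have e2 := card_sdiff_add_card_inter S' S
      rw [inter_comm] at e2
      omega
    -- a swap step
    have step : ∀ a ∈ S \ S', ∀ b ∈ S' \ S, a ≠ i → (j ∈ c ↔ j ∈ c') := by
      intro a ha b hb hai
      rw [mem_sdiff] at ha hb
      have haj : a ≠ j := fun h => ha.2 (h ▸ hj')
      have hbj : b ≠ j := fun h => hb.2 (h ▸ hj)
      have hS1 : (insert b (S.erase a)).card = k := by rw [card_swap ha.1 hb.2, hS]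
      obtain ⟨i₁, c₁, h3⟩ := hall (insert b (S.erase a)) hS1
        (mem_insert_of_mem (mem_erase.2 ⟨haj.symm, hj⟩)) (by
        intro x hx
        rcases mem_insert.1 hx with rfl | hx
        · exact mem_union_right _ hb.1
        · exact mem_union_left _ (mem_of_mem_erase hx))
      have hsp := special_swap hk hS h1 ha.1 hb.2 hai h3
      have hi₁ : i₁ ≠ j := by
        rcases hsp with rfl | rfl
        · exact hij
        · exact hbj
      have hi_mem : i ∈ insert b (S.erase a) := mem_insert_of_mem (mem_erase.2 ⟨hai.symm, h1.2.1⟩)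
      have hjm : j ∈ insert b (S.erase a) := mem_insert_of_mem (mem_erase.2 ⟨haj.symm, hj⟩)
      have e1 : j ∈ c ↔ j ∈ c₁ := by
        refine R2 h1 h3 ?_ (Or.inl hi_mem) hj hjm hij.symm hi₁.symm
        rw [inter_swap hb.2, card_erase_of_mem ha.1]; omega
      rw [e1]
      refine ih (insert b (S.erase a)) i₁ c₁ ?_ hS1 h3 hjm hi₁ ?_
      · have e : insert b (S.erase a) \ S' = (S \ S').erase a := by
          ext x
          simp only [mem_sdiff, mem_insert, mem_erase]
          constructor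
          · rintro ⟨rfl | h, h'⟩
            · exact absurd hb.1 h'
            · exact ⟨h.1, h.2, h'⟩
          · rintro ⟨h, h', h''⟩; exact ⟨Or.inr ⟨h, h'⟩, h''⟩
        rw [e, card_erase_of_mem (mem_sdiff.2 ha)]; omega
      · intro U hU hU1 hU2
        refine hall U hU hU1 ?_
        intro x hx
        rcases mem_union.1 (hU2 hx) with h | h
        · rcases mem_insert.1 h with rfl | h
          · exact mem_union_right _ hb.1
          · exact mem_union_left _ (mem_of_mem_erase h)
        · exact mem_union_right _ h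
    obtain ⟨b, hb⟩ := card_pos.1 (by omega : 0 < (S' \ S).card)
    by_cases hex : ∃ a ∈ S \ S', a ≠ i
    · obtain ⟨a, ha, hai⟩ := hex
      exact step a ha b hb hai
    · push Not at hex
      -- `S \ S' = {i}`
      obtain ⟨a, ha⟩ := card_pos.1 (by omega : 0 < (S \ S').card)
      have hai := hex a ha
      subst hai
      have hSS : S \ S' = {a} := by
        apply eq_singleton_iff_unique_mem.2
        exact ⟨ha, hex⟩
      have hint : (S ∩ S').card = k - 1 := by
        have e1 := card_sdiff_add_card_inter S S'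
        rw [hSS, card_singleton] at e1
        omega
      by_cases hi'S : i' ∈ S
      · exact R2 h1 h2 (by omega) (Or.inr hi'S) hj hj' hij.symm hji'.symm
      · -- third set
        rw [mem_sdiff] at ha hb
        have hex2 : ∃ y ∈ S ∩ S', y ≠ j := by
          by_contra hcon
          push Not at hcon
          have : S ∩ S' ⊆ {j} := fun x hx => mem_singleton.2 (hcon x hx)
          have := card_le_card this
          rw [card_singleton] at this
          omega
        obtain ⟨y, hy, hyj⟩ := hex2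
        rw [mem_inter] at hy
        have hya : y ≠ a := fun h => ha.2 (h ▸ hy.2)
        have hS1 : (insert i' (S.erase y)).card = k := by rw [card_swap hy.1 hi'S, hS]
        have hjm : j ∈ insert i' (S.erase y) := mem_insert_of_mem (mem_erase.2 ⟨hyj.symm, hj⟩)
        obtain ⟨i₁, c₁, h3⟩ := hall (insert i' (S.erase y)) hS1 hjm (by
          intro x hx
          rcases mem_insert.1 hx with rfl | hx
          · exact mem_union_right _ h2.2.1
          · exact mem_union_left _ (mem_of_mem_erase hx))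
        have hsp := special_swap hk hS h1 hy.1 hi'S hya h3
        have hi₁ : i₁ ≠ j := by
          rcases hsp with rfl | rfl
          · exact hij
          · exact hji'
        have e1 : j ∈ c ↔ j ∈ c₁ := by
          refine R2 h1 h3 ?_ (Or.inl (mem_insert_of_mem (mem_erase.2 ⟨hya.symm, h1.2.1⟩))) hj hjm
            hij.symm hi₁.symm
          rw [inter_swap hi'S, card_erase_of_mem hy.1]; omega
        have e2 : j ∈ c₁ ↔ j ∈ c' := by
          refine R2 h3 h2 ?_ (Or.inr (mem_insert_self _ _)) hjm hj' hi₁.symm hji'.symm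
          have hsub : insert i' ((S ∩ S').erase y) ⊆ insert i' (S.erase y) ∩ S' := by
            intro x hx
            rcases mem_insert.1 hx with rfl | hx
            · exact mem_inter.2 ⟨mem_insert_self _ _, h2.2.1⟩
            · rw [mem_erase, mem_inter] at hx
              exact mem_inter.2 ⟨mem_insert_of_mem (mem_erase.2 ⟨hx.1, hx.2.1⟩), hx.2.2⟩
          have hc := card_le_card hsub
          rw [card_insert_of_notMem (fun h => hi'S (mem_inter.1 (mem_of_mem_erase h)).1),
            card_erase_of_mem (mem_inter.2 hy), hint] at hc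
          omega
        exact e1.trans e2

end Pool.Agent.H.MP_66bcf1_co
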