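import Pool.Agent.H.MP_66bcf1_co.Count
import Pool.Agent.H.MP_66bcf1_co.Struct

/-!
Bounds for the number of minority and wrong sets in terms of bad sets.
-/

namespace Pool.Agent.H.MP_66bcf1_co

open Finset
open scoped Classical

noncomputable section

variable {n : ℕ}

/-- bad `k`-sets -/
def badS (F : Finset (PV (Fin n))) (d k : ℕ) : Finset (Finset (Fin n)) :=
  (KS n k).filter fun S => ¬ Good F d S

/-- bad `k`-sets not inside `Low` -/
def badX (F : Finset (PV (Fin n))) (d k : ℕ) (Low : Finset (Fin n)) : Finset (Finset (Fin n)) :=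
  (badS F d k).filter fun S => ¬ S ⊆ Low

/-- sets with special `x` -/
def spS (F : Finset (PV (Fin n))) (d k : ℕ) (x : Fin n) : Finset (Finset (Fin n)) :=
  (KS n k).filter fun S => ∃ c, Sp F d S x c

/-- sets through `y` with special `x` -/
def Qs (F : Finset (PV (Fin n))) (d k : ℕ) (x y : Fin n) : Finset (Finset (Fin n)) :=
  (KS n k).filter fun S => y ∈ S ∧ ∃ c, Sp F d S x c

/-- the elements `y` with many sets through `x,y` with special `x` -/
def Ys (F : Finset (PV (Fin n))) (d k M : ℕ) (x : Fin n) : Finset (Fin n) :=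
  univ.filter fun y => y ≠ x ∧ n ^ (k - 2) ≤ 2 * M * (Qs F d k x y).card

/-- the minority sets -/
def Mins (F : Finset (PV (Fin n))) (d k M : ℕ) (Low : Finset (Fin n)) :
    Finset (Finset (Fin n)) :=
  (KS n k).filter fun S => ∃ x ∈ S, x ∉ Low ∧ ∃ y ∈ Ys F d k M x, ∃ c, Sp F d S y c

variable {F : Finset (PV (Fin n))} {d k M : ℕ} {Low : Finset (Fin n)}

lemma mem_badS {S : Finset (Fin n)} : S ∈ badS F d k ↔ S.card = k ∧ ¬ Good F d S := by
  simp [badS, KS]

lemma mem_badX {S : Finset (Fin n)} :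
    S ∈ badX F d k Low ↔ (S.card = k ∧ ¬ Good F d S) ∧ ¬ S ⊆ Low := by
  rw [badX, mem_filter, mem_badS]

lemma mem_spS {S : Finset (Fin n)} {x : Fin n} :
    S ∈ spS F d k x ↔ S.card = k ∧ ∃ c, Sp F d S x c := by
  simp [spS, KS]

lemma mem_Qs {S : Finset (Fin n)} {x y : Fin n} :
    S ∈ Qs F d k x y ↔ S.card = k ∧ y ∈ S ∧ ∃ c, Sp F d S x c := by
  simp [Qs, KS]

lemma mem_Ys {x y : Fin n} :
    y ∈ Ys F d k M x ↔ y ≠ x ∧ n ^ (k - 2) ≤ 2 * M * (Qs F d k x y).card := by
  simp [Ys]

lemma mem_Mins {S : Finset (Fin n)} : S ∈ Mins F d k M Low ↔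
    S.card = k ∧ ∃ x ∈ S, x ∉ Low ∧ ∃ y ∈ Ys F d k M x, ∃ c, Sp F d S y c := by
  simp [Mins, KS]

lemma card_Qs_le {x y : Fin n} (hxy : y ≠ x) : (Qs F d k x y).card ≤ n ^ (k - 2) := by
  have h := count_superset k ({x, y} : Finset (Fin n))
  rw [card_pair hxy.symm] at h
  refine le_trans (card_le_card ?_) h
  intro S hS
  rw [mem_Qs] at hS
  obtain ⟨h1, h2, c, hc⟩ := hS
  rw [mem_filter, mem_KS]
  refine ⟨h1, ?_⟩
  intro z hz
  simp only [mem_insert, mem_singleton] at hz
  rcases hz with rfl | rfl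
  · exact hc.2.1
  · exact h2

lemma card_Ys (hk : 3 ≤ k) (hn : 0 < n) {x : Fin n}
    (h : n ^ (k - 1) ≤ M * (spS F d k x).card) : n ≤ 2 * M * (Ys F d k M x).card := by
  have h1 : (spS F d k x).card ≤ ∑ y ∈ univ.erase x, (Qs F d k x y).card := by
    refine le_trans (card_le_card ?_) card_biUnion_le
    intro S hS
    rw [mem_spS] at hS
    obtain ⟨hc, c, hs⟩ := hS
    have : 0 < (S.erase x).card := by
      rw [card_erase_of_mem hs.2.1]; omega
    obtain ⟨y, hy⟩ := card_pos.1 this
    rw [mem_erase] at hy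
    rw [mem_biUnion]
    exact ⟨y, mem_erase.2 ⟨hy.1, mem_univ _⟩, mem_Qs.2 ⟨hc, hy.2, c, hs⟩⟩
  have h2 : 2 * M * ∑ y ∈ univ.erase x, (Qs F d k x y).card
      ≤ 2 * M * (Ys F d k M x).card * n ^ (k - 2) + n * n ^ (k - 2) := by
    rw [← sum_filter_add_sum_filter_not (univ.erase x) (fun y => y ∈ Ys F d k M x), mul_add]
    apply Nat.add_le_add
    · calc 2 * M * ∑ y ∈ (univ.erase x).filter (fun y => y ∈ Ys F d k M x), (Qs F d k x y).card
          ≤ 2 * M * ∑ y ∈ (univ.erase x).filter (fun y => y ∈ Ys F d k M x), n ^ (k - 2) := by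
            apply Nat.mul_le_mul_left
            apply sum_le_sum
            intro y hy
            exact card_Qs_le (mem_erase.1 (mem_filter.1 hy).1).1
        _ ≤ 2 * M * ∑ y ∈ Ys F d k M x, n ^ (k - 2) := by
            apply Nat.mul_le_mul_left
            apply sum_le_sum_of_subset
            intro y hy
            exact (mem_filter.1 hy).2
        _ = _ := by rw [sum_const, smul_eq_mul]; ring
    · rw [mul_sum]
      calc ∑ y ∈ (univ.erase x).filter (fun y => y ∉ Ys F d k M x), 2 * M * (Qs F d k x y).card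
          ≤ ∑ y ∈ (univ.erase x).filter (fun y => y ∉ Ys F d k M x), n ^ (k - 2) := by
            apply sum_le_sum
            intro y hy
            rw [mem_filter, mem_erase, mem_Ys] at hy
            have := hy.2
            push Not at this
            exact (this hy.1.1).le
        _ ≤ ∑ y ∈ (univ : Finset (Fin n)), n ^ (k - 2) :=
            sum_le_sum_of_subset (subset_univ _)
        _ = _ := by simp
  have h3 : n * n ^ (k - 2) = n ^ (k - 1) := by
    rw [← pow_succ']; congr 1; omega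
  have h4 : n * n ^ (k - 2) ≤ 2 * M * (Ys F d k M x).card * n ^ (k - 2) := by
    have h5 : 2 * n ^ (k - 1) ≤ 2 * M * ∑ y ∈ univ.erase x, (Qs F d k x y).card := by
      calc 2 * n ^ (k - 1) ≤ 2 * (M * (spS F d k x).card) := Nat.mul_le_mul_left _ h
        _ = 2 * M * (spS F d k x).card := by ring
        _ ≤ _ := Nat.mul_le_mul_left _ h1
    omega
  exact Nat.le_of_mul_le_mul_right h4 (pow_pos hn _)

/-- a pair with large `Q(x,y)` has few sets with special `y` -/
lemma card_Q_minor (hk : 2 * d + 3 ≤ k) (hn : 4 * M * k ≤ n) (hn0 : 0 < n) {x y : Fin n}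
    (hy : y ∈ Ys F d k M x) :
    (Qs F d k y x).card ≤
      4 * M * 2 ^ k * ((badS F d k).filter fun U => x ∈ U ∧ y ∈ U).card := by
  rw [mem_Ys] at hy
  set q := (Qs F d k y x).card with hq
  set Q := (Qs F d k x y).card with hQ
  set B := ((badS F d k).filter fun U => x ∈ U ∧ y ∈ U).card with hB
  have hE : ({x, y} : Finset (Fin n)).card = 2 := card_pair hy.1.symm
  have hp := pair_count (k := k) ({x, y} : Finset (Fin n)) (Qs F d k y x) (Qs F d k x y)
    ((badS F d k).filter fun U => x ∈ U ∧ y ∈ U) ?_ ?_ ?_ ?_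
  · rw [hE, ← hq, ← hQ, ← hB] at hp
    have e1 : n ^ (k - 2) = n * n ^ (k - 2 - 1) := by
      rw [← pow_succ']; congr 1; omega
    -- 2 q n^(k-2) ≤ 4 M q Q
    have h1 : 2 * (q * n ^ (k - 2)) ≤ 4 * M * (q * Q) := by
      calc 2 * (q * n ^ (k - 2)) ≤ 2 * (q * (2 * M * Q)) :=
            Nat.mul_le_mul_left _ (Nat.mul_le_mul_left _ hy.2)
        _ = _ := by ring
    have h2 : 4 * M * (q * (k * n ^ (k - 2 - 1))) ≤ q * n ^ (k - 2) := by
      calc 4 * M * (q * (k * n ^ (k - 2 - 1))) = q * ((4 * M * k) * n ^ (k - 2 - 1)) := by ring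
        _ ≤ q * (n * n ^ (k - 2 - 1)) :=
            Nat.mul_le_mul_left _ (Nat.mul_le_mul_right _ hn)
        _ = _ := by rw [e1]
    have h3 : q * n ^ (k - 2) ≤ (4 * M * 2 ^ k * B) * n ^ (k - 2) := by
      have h4 := Nat.mul_le_mul_left (4 * M) hp
      rw [mul_add] at h4
      have h5 : 4 * M * (B * (2 ^ k * n ^ (k - 2))) = (4 * M * 2 ^ k * B) * n ^ (k - 2) := by ring
      rw [h5] at h4
      omega
    exact Nat.le_of_mul_le_mul_right h3 (pow_pos hn0 _)
  · intro S hS
    rw [mem_Qs] at hS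
    obtain ⟨h1, h2, c, hc⟩ := hS
    refine ⟨h1, ?_⟩
    intro z hz
    simp only [mem_insert, mem_singleton] at hz
    rcases hz with rfl | rfl
    · exact h2
    · exact hc.2.1
  · intro S hS
    rw [mem_Qs] at hS
    obtain ⟨h1, h2, c, hc⟩ := hS
    refine ⟨h1, ?_⟩
    intro z hz
    simp only [mem_insert, mem_singleton] at hz
    rcases hz with rfl | rfl
    · exact hc.2.1
    · exact h2
  · intro S hS
    rw [mem_filter, mem_badS] at hS
    refine ⟨hS.1.1, ?_⟩
    intro z hz
    simp only [mem_insert, mem_singleton] at hz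
    rcases hz with rfl | rfl
    · exact hS.2.1
    · exact hS.2.2
  · intro S hS S' hS' hSS
    rw [mem_Qs] at hS hS'
    obtain ⟨a1, a2, c, hc⟩ := hS
    obtain ⟨b1, b2, c', hc'⟩ := hS'
    by_contra hcon
    push Not at hcon
    refine chainM hk a1 hc hc.2.1 (S' \ S).card S' x c' rfl b1 hc' b2 a2 hy.1.symm ?_ rfl
    intro U hU hU1 hU2
    by_contra hg
    rw [inter_comm, hSS] at hU1
    refine hcon U ?_ (hU2.trans (by rw [union_comm]))
    rw [mem_filter, mem_badS]
    exact ⟨⟨hU, hg⟩, hU1 (by simp), hU1 (by simp)⟩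

lemma sum_pairs_bad (Low : Finset (Fin n)) :
    ∑ x ∈ univ.filter (fun x => x ∉ Low), ∑ y : Fin n,
      ((badS F d k).filter fun U => x ∈ U ∧ y ∈ U).card ≤ k * k * (badX F d k Low).card := by
  calc ∑ x ∈ univ.filter (fun x => x ∉ Low), ∑ y : Fin n,
      ((badS F d k).filter fun U => x ∈ U ∧ y ∈ U).card
      = ∑ x ∈ univ.filter (fun x => x ∉ Low), ∑ y : Fin n,
        ∑ U ∈ badX F d k Low, if x ∈ U ∧ y ∈ U then 1 else 0 := by
        apply sum_congr rfl
        intro x hx
        apply sum_congr rfl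
        intro y _
        rw [← card_filter]
        congr 1
        ext U
        rw [mem_filter, mem_filter, badX, mem_filter]
        constructor
        · rintro ⟨h1, h2⟩
          exact ⟨⟨h1, fun h => (mem_filter.1 hx).2 (h h2.1)⟩, h2⟩
        · rintro ⟨h1, h2⟩
          exact ⟨h1.1, h2⟩
    _ = ∑ U ∈ badX F d k Low, ∑ x ∈ univ.filter (fun x => x ∉ Low), ∑ y : Fin n,
        (if x ∈ U ∧ y ∈ U then 1 else 0) := by
        rw [← sum_comm (s := univ.filter (fun x => x ∉ Low)) (t := badX F d k Low)]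
        apply sum_congr rfl
        intro x _
        rw [sum_comm]
    _ ≤ ∑ U ∈ badX F d k Low, k * k := by
        apply sum_le_sum
        intro U hU
        rw [mem_badX] at hU
        calc ∑ x ∈ univ.filter (fun x => x ∉ Low), ∑ y : Fin n, (if x ∈ U ∧ y ∈ U then 1 else 0)
            ≤ ∑ x : Fin n, ∑ y : Fin n, (if x ∈ U ∧ y ∈ U then 1 else 0) :=
              sum_le_sum_of_subset (subset_univ _)
          _ = ∑ x : Fin n, ∑ y : Fin n, (if x ∈ U then 1 else 0) * (if y ∈ U then 1 else 0) := by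
              apply sum_congr rfl; intro x _
              apply sum_congr rfl; intro y _
              by_cases h1 : x ∈ U <;> by_cases h2 : y ∈ U <;> simp [h1, h2]
          _ = U.card * U.card := by
              rw [← sum_mul_sum]; simp
          _ = k * k := by rw [hU.1.1]
    _ = _ := by rw [sum_const, smul_eq_mul]; ring

lemma card_Mins (hk : 2 * d + 3 ≤ k) (hn : 4 * M * k ≤ n) (hn0 : 0 < n) :
    (Mins F d k M Low).card ≤ 4 * M * 2 ^ k * (k * k) * (badX F d k Low).card := by
  calc (Mins F d k M Low).card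
      ≤ ((univ.filter fun x => x ∉ Low).biUnion fun x =>
          (Ys F d k M x).biUnion fun y => Qs F d k y x).card := by
        apply card_le_card
        intro S hS
        rw [mem_Mins] at hS
        obtain ⟨h1, x, hx, hxL, y, hy, c, hc⟩ := hS
        simp only [mem_biUnion, mem_filter, mem_univ, true_and]
        exact ⟨x, hxL, y, hy, mem_Qs.2 ⟨h1, hx, c, hc⟩⟩
    _ ≤ ∑ x ∈ univ.filter (fun x => x ∉ Low), ∑ y ∈ Ys F d k M x, (Qs F d k y x).card :=
        card_biUnion_le.trans (sum_le_sum fun _ _ => card_biUnion_le)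
    _ ≤ ∑ x ∈ univ.filter (fun x => x ∉ Low), ∑ y ∈ Ys F d k M x, 4 * M * 2 ^ k *
          ((badS F d k).filter fun U => x ∈ U ∧ y ∈ U).card :=
        sum_le_sum fun x _ => sum_le_sum fun y hy => card_Q_minor hk hn hn0 hy
    _ ≤ ∑ x ∈ univ.filter (fun x => x ∉ Low), ∑ y : Fin n, 4 * M * 2 ^ k *
          ((badS F d k).filter fun U => x ∈ U ∧ y ∈ U).card :=
        sum_le_sum fun x _ => sum_le_sum_of_subset (subset_univ _)
    _ = 4 * M * 2 ^ k * ∑ x ∈ univ.filter (fun x => x ∉ Low), ∑ y : Fin n,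
          ((badS F d k).filter fun U => x ∈ U ∧ y ∈ U).card := by
        rw [mul_sum]; apply sum_congr rfl; intro x _; rw [mul_sum]
    _ ≤ 4 * M * 2 ^ k * (k * k * (badX F d k Low).card) :=
        Nat.mul_le_mul_left _ (sum_pairs_bad Low)
    _ = _ := by ring

/-! ### Wrong centres -/

/-- sets through `j`, otherwise outside `Low`, with special different from `j`, centre
containing `j` -/
def Gp (F : Finset (PV (Fin n))) (d k : ℕ) (Low : Finset (Fin n)) (j : Fin n) :
    Finset (Finset (Fin n)) :=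
  (KS n k).filter fun S => j ∈ S ∧ Disjoint (S.erase j) Low ∧ ∃ i c, Sp F d S i c ∧ i ≠ j ∧ j ∈ c

/-- the same with centre not containing `j` -/
def Gn (F : Finset (PV (Fin n))) (d k : ℕ) (Low : Finset (Fin n)) (j : Fin n) :
    Finset (Finset (Fin n)) :=
  (KS n k).filter fun S => j ∈ S ∧ Disjoint (S.erase j) Low ∧ ∃ i c, Sp F d S i c ∧ i ≠ j ∧ j ∉ c

/-- the majority centre on `Low` -/
def cL (F : Finset (PV (Fin n))) (d k : ℕ) (Low : Finset (Fin n)) : Finset (Fin n) :=
  Low.filter fun j => (Gn F d k Low j).card ≤ (Gp F d k Low j).card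

/-- sets with a wrong centre at `j` -/
def Wj (F : Finset (PV (Fin n))) (d k : ℕ) (Low : Finset (Fin n)) (j : Fin n) :
    Finset (Finset (Fin n)) :=
  (KS n k).filter fun S => ¬ S ⊆ Low ∧ j ∈ S ∧ ∃ i c, Sp F d S i c ∧ i ≠ j ∧
    ¬ (j ∈ c ↔ j ∈ cL F d k Low)

/-- wrong sets -/
def Wrong (F : Finset (PV (Fin n))) (d k : ℕ) (Low : Finset (Fin n)) :
    Finset (Finset (Fin n)) :=
  Low.biUnion fun j => Wj F d k Low j

/-- the majority side -/
def Rj (F : Finset (PV (Fin n))) (d k : ℕ) (Low : Finset (Fin n)) (j : Fin n) :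
    Finset (Finset (Fin n)) :=
  if j ∈ cL F d k Low then Gp F d k Low j else Gn F d k Low j

lemma mem_Wj {S : Finset (Fin n)} {j : Fin n} : S ∈ Wj F d k Low j ↔ S.card = k ∧ ¬ S ⊆ Low ∧
    j ∈ S ∧ ∃ i c, Sp F d S i c ∧ i ≠ j ∧ ¬ (j ∈ c ↔ j ∈ cL F d k Low) := by
  simp [Wj, KS]

lemma mem_Rj {S : Finset (Fin n)} {j : Fin n} (h : S ∈ Rj F d k Low j) : S.card = k ∧ j ∈ S ∧
    Disjoint (S.erase j) Low ∧ ∃ i c, Sp F d S i c ∧ i ≠ j ∧ (j ∈ c ↔ j ∈ cL F d k Low) := by
  unfold Rj at h
  split_ifs at h with hj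
  · simp only [Gp, mem_filter, mem_KS] at h
    obtain ⟨h1, h2, h3, i, c, h4, h5, h6⟩ := h
    exact ⟨h1, h2, h3, i, c, h4, h5, by simp [hj, h6]⟩
  · simp only [Gn, mem_filter, mem_KS] at h
    obtain ⟨h1, h2, h3, i, c, h4, h5, h6⟩ := h
    exact ⟨h1, h2, h3, i, c, h4, h5, by simp [hj, h6]⟩

/-- counting the sets through `j` otherwise outside `Low` -/
lemma card_Rj (hk : 2 ≤ k) {j : Fin n} (hj : j ∈ Low) :
    (univ \ Low).card.choose (k - 1) ≤ 2 * (Rj F d k Low j).card +
      ((badX F d k Low).filter fun U => j ∈ U).card + (spS F d k j).card := by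
  have h1 : (univ \ Low).card.choose (k - 1) =
      ((powersetCard (k - 1) (univ \ Low)).image fun W => insert j W).card := by
    rw [card_image_of_injOn, card_powersetCard]
    intro W hW W' hW' h
    simp only [mem_coe, mem_powersetCard] at hW hW'
    have e : ∀ V : Finset (Fin n), V ⊆ univ \ Low → (insert j V).erase j = V := fun V hV =>
      erase_insert fun h => (mem_sdiff.1 (hV h)).2 hj
    rw [← e W hW.1, ← e W' hW'.1]
    simp only at h
    rw [h]
  rw [h1]
  have h2 : ((powersetCard (k - 1) (univ \ Low)).image fun W => insert j W) ⊆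
      (Gp F d k Low j ∪ Gn F d k Low j) ∪ ((badX F d k Low).filter fun U => j ∈ U) ∪
        spS F d k j := by
    intro S hS
    rw [mem_image] at hS
    obtain ⟨W, hW, rfl⟩ := hS
    rw [mem_powersetCard] at hW
    have hjW : j ∉ W := fun h => (mem_sdiff.1 (hW.1 h)).2 hj
    have hc : (insert j W).card = k := by rw [card_insert_of_notMem hjW, hW.2]; omega
    by_cases hg : Good F d (insert j W)
    · obtain ⟨i, c, hs⟩ := hg
      by_cases hij : i = j
      · subst hij
        exact mem_union_right _ (mem_spS.2 ⟨hc, c, hs⟩)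
      · apply mem_union_left
        apply mem_union_left
        have hd : Disjoint ((insert j W).erase j) Low := by
          rw [erase_insert hjW]
          exact disjoint_left.2 fun x hx => (mem_sdiff.1 (hW.1 hx)).2
        by_cases hjc : j ∈ c
        · apply mem_union_left
          simp only [Gp, mem_filter, mem_KS]
          exact ⟨hc, mem_insert_self _ _, hd, i, c, hs, hij, hjc⟩
        · apply mem_union_right
          simp only [Gn, mem_filter, mem_KS]
          exact ⟨hc, mem_insert_self _ _, hd, i, c, hs, hij, hjc⟩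
    · apply mem_union_left
      apply mem_union_right
      rw [mem_filter, mem_badX]
      refine ⟨⟨⟨hc, hg⟩, ?_⟩, mem_insert_self _ _⟩
      obtain ⟨w, hw⟩ := card_pos.1 (by omega : 0 < W.card)
      exact fun h => (mem_sdiff.1 (hW.1 hw)).2 (h (mem_insert_of_mem hw))
  refine (card_le_card h2).trans ?_
  refine (card_union_le _ _).trans ?_
  apply Nat.add_le_add_right
  refine (card_union_le _ _).trans ?_
  apply Nat.add_le_add_right
  refine (card_union_le _ _).trans ?_
  unfold Rj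
  split_ifs with h
  · have := (mem_filter.1 h).2
    omega
  · have : ¬ (Gn F d k Low j).card ≤ (Gp F d k Low j).card := fun h' => h (mem_filter.2 ⟨hj, h'⟩)
    omega

/-- few sets have a wrong centre at `j` -/
lemma card_Wj (hk : 2 * d + 3 ≤ k) {C0 : ℕ} (hC0 : n ^ (k - 1) ≤ C0 * (univ \ Low).card.choose (k - 1))
    (hn : 8 * C0 * k ≤ n) (hn0 : 0 < n) {j : Fin n} (hj : j ∈ Low)
    (ht : 4 * C0 * (spS F d k j).card ≤ n ^ (k - 1)) :
    (Wj F d k Low j).card ≤ 8 * C0 * 2 ^ k * ((badX F d k Low).filter fun U => j ∈ U).card := by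
  set W := (Wj F d k Low j).card with hW
  set B := ((badX F d k Low).filter fun U => j ∈ U).card with hB
  set R := (Rj F d k Low j).card with hR
  have hWn : W ≤ n ^ (k - 1) := by
    have h := count_superset k ({j} : Finset (Fin n))
    rw [card_singleton] at h
    refine le_trans (card_le_card ?_) h
    intro S hS
    rw [mem_Wj] at hS
    rw [mem_filter, mem_KS]
    exact ⟨hS.1, singleton_subset_iff.2 hS.2.2.1⟩
  rcases Nat.lt_or_ge (4 * C0 * B) (n ^ (k - 1)) with hlt | hge
  · have h1 := card_Rj (F := F) (d := d) (k := k) (Low := Low) (by omega) hj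
    rw [← hR, ← hB] at h1
    -- n^(k-1) ≤ 4 C0 R
    have h2 : n ^ (k - 1) ≤ 4 * C0 * R := by
      have h3 : 4 * (C0 * (univ \ Low).card.choose (k - 1)) ≤
          4 * (C0 * (2 * R + B + (spS F d k j).card)) :=
        Nat.mul_le_mul_left _ (Nat.mul_le_mul_left _ h1)
      have h4 : 4 * (C0 * (2 * R + B + (spS F d k j).card)) =
          2 * (4 * C0 * R) + 4 * C0 * B + 4 * C0 * (spS F d k j).card := by ring
      omega
    have hE : ({j} : Finset (Fin n)).card = 1 := card_singleton j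
    have hp := pair_count (k := k) ({j} : Finset (Fin n)) (Wj F d k Low j) (Rj F d k Low j)
      ((badX F d k Low).filter fun U => j ∈ U) ?_ ?_ ?_ ?_
    · rw [hE, ← hW, ← hR, ← hB] at hp
      have e1 : n ^ (k - 1) = n * n ^ (k - 1 - 1) := by
        rw [← pow_succ']; congr 1; omega
      have h5 : 2 * (4 * C0 * (W * (k * n ^ (k - 1 - 1)))) ≤ W * n ^ (k - 1) := by
        calc 2 * (4 * C0 * (W * (k * n ^ (k - 1 - 1)))) = W * ((8 * C0 * k) * n ^ (k - 1 - 1)) := by
              ring
          _ ≤ W * (n * n ^ (k - 1 - 1)) := Nat.mul_le_mul_left _ (Nat.mul_le_mul_right _ hn)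
          _ = _ := by rw [e1]
      have h6 : W * n ^ (k - 1) ≤ 4 * C0 * (W * R) := by
        calc W * n ^ (k - 1) ≤ W * (4 * C0 * R) := Nat.mul_le_mul_left _ h2
          _ = _ := by ring
      have h7 := Nat.mul_le_mul_left (4 * C0) hp
      rw [mul_add] at h7
      have h8 : 2 * (4 * C0 * (B * (2 ^ k * n ^ (k - 1)))) =
          (8 * C0 * 2 ^ k * B) * n ^ (k - 1) := by ring
      have h9 : W * n ^ (k - 1) ≤ (8 * C0 * 2 ^ k * B) * n ^ (k - 1) := by omega
      exact Nat.le_of_mul_le_mul_right h9 (pow_pos hn0 _)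
    · intro S hS
      rw [mem_Wj] at hS
      exact ⟨hS.1, singleton_subset_iff.2 hS.2.2.1⟩
    · intro S hS
      have := mem_Rj hS
      exact ⟨this.1, singleton_subset_iff.2 this.2.1⟩
    · intro S hS
      rw [mem_filter, mem_badX] at hS
      exact ⟨hS.1.1.1, singleton_subset_iff.2 hS.2⟩
    · intro S hS S' hS' hSS
      rw [mem_Wj] at hS
      obtain ⟨a1, a2, a3, i, c, a4, a5, a6⟩ := hS
      obtain ⟨b1, b2, b3, i', c', b4, b5, b6⟩ := mem_Rj hS'
      by_contra hcon
      push Not at hcon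
      apply a6
      rw [← b6]
      refine chainW hk b1 b4 b2 b5 (S \ S').card S i c rfl a1 a4 a3 a5 ?_
      intro U hU hjU hUS
      by_contra hg
      refine hcon U ?_ hUS
      rw [mem_filter, mem_badX]
      refine ⟨⟨⟨hU, hg⟩, ?_⟩, hjU⟩
      intro hUL
      -- then U ⊆ S
      have hsub : U ⊆ S := by
        intro x hx
        rcases mem_union.1 (hUS hx) with h | h
        · exact h
        · by_cases hxj : x = j
          · rw [hxj]; exact a3
          · exact absurd (hUL hx) (disjoint_left.1 b3 (mem_erase.2 ⟨hxj, h⟩))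
      have : U = S := eq_of_subset_of_card_le hsub (by omega)
      exact a2 (this ▸ hUL)
  · calc W ≤ n ^ (k - 1) := hWn
      _ ≤ 4 * C0 * B := hge
      _ ≤ 8 * C0 * 2 ^ k * B := by
          apply Nat.mul_le_mul_right
          have : 1 ≤ 2 ^ k := Nat.one_le_two_pow
          nlinarith [Nat.zero_le C0]

lemma card_Wrong (hk : 2 * d + 3 ≤ k) {C0 : ℕ}
    (hC0 : n ^ (k - 1) ≤ C0 * (univ \ Low).card.choose (k - 1))
    (hn : 8 * C0 * k ≤ n) (hn0 : 0 < n)
    (ht : ∀ j ∈ Low, 4 * C0 * (spS F d k j).card ≤ n ^ (k - 1)) :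
    (Wrong F d k Low).card ≤ 8 * C0 * 2 ^ k * k * (badX F d k Low).card := by
  calc (Wrong F d k Low).card ≤ ∑ j ∈ Low, (Wj F d k Low j).card := card_biUnion_le
    _ ≤ ∑ j ∈ Low, 8 * C0 * 2 ^ k * ((badX F d k Low).filter fun U => j ∈ U).card :=
        sum_le_sum fun j hj => card_Wj hk hC0 hn hn0 hj (ht j hj)
    _ ≤ ∑ j : Fin n, 8 * C0 * 2 ^ k * ((badX F d k Low).filter fun U => j ∈ U).card :=
        sum_le_sum_of_subset (subset_univ _)
    _ = 8 * C0 * 2 ^ k * ∑ j : Fin n, ∑ U ∈ badX F d k Low, (if j ∈ U then 1 else 0) := by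
        rw [mul_sum]; apply sum_congr rfl; intro j _; rw [card_filter]
    _ = 8 * C0 * 2 ^ k * ∑ U ∈ badX F d k Low, ∑ j : Fin n, (if j ∈ U then 1 else 0) := by
        rw [sum_comm]
    _ = 8 * C0 * 2 ^ k * ∑ U ∈ badX F d k Low, k := by
        congr 1
        apply sum_congr rfl
        intro U hU
        rw [mem_badX] at hU
        rw [← hU.1.1]
        simp
    _ = _ := by rw [sum_const, smul_eq_mul]; ring

end

end Pool.Agent.H.MP_66bcf1_co
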