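import Pool.Agent.H.MP_66bcf1_co.Defs

/-!
Elementary counting lemmas for `k`-subsets of `Fin n`.
-/

namespace Pool.Agent.H.MP_66bcf1_co

open Finset

/-- all `k`-sets -/
abbrev KS (n k : ℕ) : Finset (Finset (Fin n)) := powersetCard k univ

lemma card_KS (n k : ℕ) : (KS n k).card = n.choose k := by simp [KS]

lemma card_KS_le (n k : ℕ) : (KS n k).card ≤ n ^ k := by
  rw [card_KS]; exact Nat.choose_le_pow n k

lemma mem_KS {n k : ℕ} {S : Finset (Fin n)} : S ∈ KS n k ↔ S.card = k := by
  simp [KS]

open Classical in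
/-- the number of `k`-sets `S ⊇ T` with `S \ T ⊆ Z` -/
lemma count_between {n : ℕ} (k : ℕ) (T Z : Finset (Fin n)) :
    ((KS n k).filter fun S => T ⊆ S ∧ S \ T ⊆ Z).card ≤ Z.card ^ (k - T.card) := by
  calc ((KS n k).filter fun S => T ⊆ S ∧ S \ T ⊆ Z).card
      ≤ (powersetCard (k - T.card) Z).card := by
        apply card_le_card_of_injOn (fun S => S \ T)
        · intro S hS
          simp only [coe_filter, mem_KS, Set.mem_ofPred_eq] at hS
          rw [mem_coe, mem_powersetCard]
          refine ⟨hS.2.2, ?_⟩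
          rw [card_sdiff_of_subset hS.2.1, hS.1]
        · intro S hS S' hS' h
          simp only [coe_filter, mem_KS, Set.mem_ofPred_eq] at hS hS'
          rw [← sdiff_union_of_subset hS.2.1, ← sdiff_union_of_subset hS'.2.1]
          simp only at h
          rw [h]
    _ ≤ _ := by rw [card_powersetCard]; exact Nat.choose_le_pow _ _

open Classical in
lemma count_superset {n : ℕ} (k : ℕ) (T : Finset (Fin n)) :
    ((KS n k).filter fun S => T ⊆ S).card ≤ n ^ (k - T.card) := by
  have h := count_between k T (univ : Finset (Fin n))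
  simpa using h

open Classical in
/-- the number of `k`-sets `S ⊇ T` meeting `Z` outside `T` -/
lemma count_meet {n : ℕ} (k : ℕ) (T Z : Finset (Fin n)) :
    ((KS n k).filter fun S => T ⊆ S ∧ ∃ z ∈ Z, z ∉ T ∧ z ∈ S).card
      ≤ Z.card * n ^ (k - T.card - 1) := by
  calc ((KS n k).filter fun S => T ⊆ S ∧ ∃ z ∈ Z, z ∉ T ∧ z ∈ S).card
      ≤ ((Z \ T).biUnion fun z => (KS n k).filter fun S => insert z T ⊆ S).card := by
        apply card_le_card
        intro S hS
        simp only [mem_filter, mem_biUnion, mem_sdiff] at hS ⊢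
        obtain ⟨hk, hT, z, hz, hzT, hzS⟩ := hS
        exact ⟨z, ⟨hz, hzT⟩, hk, insert_subset hzS hT⟩
    _ ≤ ∑ z ∈ Z \ T, ((KS n k).filter fun S => insert z T ⊆ S).card := card_biUnion_le
    _ ≤ ∑ z ∈ Z \ T, n ^ (k - T.card - 1) := by
        apply sum_le_sum
        intro z hz
        have h := count_superset k (insert z T)
        rw [card_insert_of_notMem (mem_sdiff.1 hz).2] at h
        rwa [Nat.sub_sub]
    _ ≤ _ := by
        rw [sum_const, smul_eq_mul]
        exact Nat.mul_le_mul_right _ (card_le_card sdiff_subset)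

/-- lower bound for binomial coefficients -/
lemma choose_lower {n Q y w : ℕ} (hQ : n ≤ Q * y) (hw : 2 * w ≤ y) :
    n ^ w ≤ (2 * Q) ^ w * w.factorial * y.choose w := by
  have h1 : y ≤ 2 * (y + 1 - w) := by omega
  have h2 : (y + 1 - w) ^ w ≤ w.factorial * y.choose w := by
    rw [← Nat.descFactorial_eq_factorial_mul_choose]
    exact Nat.pow_sub_le_descFactorial y w
  calc n ^ w ≤ (Q * y) ^ w := Nat.pow_le_pow_left hQ w
    _ ≤ (Q * (2 * (y + 1 - w))) ^ w := Nat.pow_le_pow_left (Nat.mul_le_mul_left _ h1) w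
    _ = (2 * Q) ^ w * (y + 1 - w) ^ w := by rw [← mul_pow]; ring_nf
    _ ≤ (2 * Q) ^ w * (w.factorial * y.choose w) := Nat.mul_le_mul_left _ h2
    _ = _ := by ring

open Classical in
/-- the basic double counting -/
theorem gain {ι α : Type*} [DecidableEq α] (E : Finset ι) (R : ι → Finset α → Prop)
    (𝒮 : Finset (Finset α)) (k N P M : ℕ)
    (h1 : ∀ e ∈ E, ∃ T, R e T) (h2 : ∀ T, ∀ E' ⊆ E, (∀ e ∈ E', R e T) → E'.card ≤ P)
    (h3 : ∀ e ∈ E, ∀ T, R e T → N ≤ M * (𝒮.filter fun S => T ⊆ S).card)
    (h4 : ∀ S ∈ 𝒮, S.card = k) : E.card * N ≤ P * 2 ^ k * M * 𝒮.card := by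
  choose! T hT using h1
  calc E.card * N = ∑ e ∈ E, N := by rw [sum_const, smul_eq_mul]
    _ ≤ ∑ e ∈ E, M * (𝒮.filter fun S => T e ⊆ S).card :=
        sum_le_sum fun e he => h3 e he _ (hT e he)
    _ = M * ∑ e ∈ E, ∑ S ∈ 𝒮, if T e ⊆ S then 1 else 0 := by
        rw [mul_sum]; apply sum_congr rfl; intro e _; rw [card_filter]
    _ = M * ∑ S ∈ 𝒮, ∑ e ∈ E, if T e ⊆ S then 1 else 0 := by rw [sum_comm]
    _ ≤ M * ∑ S ∈ 𝒮, ∑ T' ∈ S.powerset, (E.filter fun e => T e = T').card := by
        apply Nat.mul_le_mul_left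
        apply sum_le_sum
        intro S _
        rw [← card_filter]
        rw [← card_biUnion]
        · apply card_le_card
          intro e he
          simp only [mem_filter, mem_biUnion, mem_powerset] at he ⊢
          exact ⟨T e, he.2, he.1, rfl⟩
        · intro a _ b _ hab
          apply disjoint_left.2
          intro e he he'
          simp only [mem_filter] at he he'
          exact hab (he.2.symm.trans he'.2)
    _ ≤ M * ∑ S ∈ 𝒮, ∑ T' ∈ S.powerset, P := by
        apply Nat.mul_le_mul_left
        apply sum_le_sum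
        intro S _
        apply sum_le_sum
        intro T' _
        refine h2 T' _ (filter_subset _ _) ?_
        intro e he
        simp only [mem_filter] at he
        exact he.2 ▸ hT e he.1
    _ = M * (𝒮.card * (2 ^ k * P)) := by
        congr 1
        rw [← smul_eq_mul (a := 𝒮.card), ← sum_const]
        apply sum_congr rfl
        intro S hS
        rw [sum_const, card_powerset, h4 S hS, smul_eq_mul]
    _ = _ := by ring

open Classical in
/-- pairs of `k`-sets through `E0` -/
theorem pair_count {n k : ℕ} (E0 : Finset (Fin n)) (S1 S2 BE : Finset (Finset (Fin n)))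
    (h1 : ∀ S ∈ S1, S.card = k ∧ E0 ⊆ S) (h2 : ∀ S ∈ S2, S.card = k ∧ E0 ⊆ S)
    (hB : ∀ S ∈ BE, S.card = k ∧ E0 ⊆ S)
    (h : ∀ S ∈ S1, ∀ S' ∈ S2, S ∩ S' = E0 → ∃ U ∈ BE, U ⊆ S ∪ S') :
    S1.card * S2.card ≤ BE.card * (2 ^ k * n ^ (k - E0.card)) +
      S1.card * (k * n ^ (k - E0.card - 1)) := by
  -- pairs meeting in more than `E0`
  have hA : ((S1 ×ˢ S2).filter fun p => p.1 ∩ p.2 ≠ E0).card
      ≤ S1.card * (k * n ^ (k - E0.card - 1)) := by
    calc ((S1 ×ˢ S2).filter fun p => p.1 ∩ p.2 ≠ E0).card
        ≤ (S1.biUnion fun S => ((KS n k).filter fun S' => E0 ⊆ S' ∧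
            ∃ z ∈ S, z ∉ E0 ∧ z ∈ S').image fun S' => (S, S')).card := by
          apply card_le_card
          rintro ⟨S, S'⟩ hp
          simp only [mem_filter, mem_product] at hp
          obtain ⟨⟨hS, hS'⟩, hne⟩ := hp
          simp only [mem_biUnion, mem_image, mem_filter, mem_KS]
          refine ⟨S, hS, S', ⟨(h2 S' hS').1, (h2 S' hS').2, ?_⟩, rfl⟩
          by_contra hcon
          push Not at hcon
          apply hne
          apply Subset.antisymm
          · intro z hz
            by_contra hz0
            exact hcon z (mem_inter.1 hz).1 hz0 (mem_inter.1 hz).2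
          · exact subset_inter (h1 S hS).2 (h2 S' hS').2
      _ ≤ ∑ S ∈ S1, (((KS n k).filter fun S' => E0 ⊆ S' ∧
            ∃ z ∈ S, z ∉ E0 ∧ z ∈ S').image fun S' => (S, S')).card := card_biUnion_le
      _ ≤ ∑ S ∈ S1, k * n ^ (k - E0.card - 1) := by
          apply sum_le_sum
          intro S hS
          refine card_image_le.trans ?_
          have := count_meet k E0 S
          rwa [(h1 S hS).1] at this
      _ = _ := by rw [sum_const, smul_eq_mul]
  -- pairs meeting exactly in `E0`
  have hBB : ((S1 ×ˢ S2).filter fun p => p.1 ∩ p.2 = E0).card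
      ≤ BE.card * (2 ^ k * n ^ (k - E0.card)) := by
    calc ((S1 ×ˢ S2).filter fun p => p.1 ∩ p.2 = E0).card
        ≤ (BE.biUnion fun U => (U.powerset.filter fun U' => E0 ⊆ U').biUnion fun U' =>
            ((KS n k).filter fun S => (U \ U') ∪ E0 ⊆ S) ×ˢ
            ((KS n k).filter fun S => U' ⊆ S)).card := by
          apply card_le_card
          rintro ⟨S, S'⟩ hp
          simp only [mem_filter, mem_product] at hp
          obtain ⟨⟨hS, hS'⟩, he⟩ := hp
          obtain ⟨U, hU, hUS⟩ := h S hS S' hS' he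
          simp only [mem_biUnion, mem_filter, mem_powerset, mem_product, mem_KS]
          refine ⟨U, hU, U ∩ S', ⟨inter_subset_left, subset_inter (hB U hU).2 (h2 S' hS').2⟩,
            ⟨(h1 S hS).1, union_subset ?_ (h1 S hS).2⟩, (h2 S' hS').1, inter_subset_right⟩
          intro z hz
          simp only [mem_sdiff, mem_inter, not_and] at hz
          rcases mem_union.1 (hUS hz.1) with hz' | hz'
          · exact hz'
          · exact absurd hz' (hz.2 hz.1)
      _ ≤ ∑ U ∈ BE, ∑ U' ∈ U.powerset.filter fun U' => E0 ⊆ U',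
            (((KS n k).filter fun S => (U \ U') ∪ E0 ⊆ S) ×ˢ
            ((KS n k).filter fun S => U' ⊆ S)).card :=
          card_biUnion_le.trans (sum_le_sum fun U _ => card_biUnion_le)
      _ ≤ ∑ U ∈ BE, ∑ U' ∈ U.powerset.filter fun U' => E0 ⊆ U', n ^ (k - E0.card) := by
          apply sum_le_sum
          intro U hU
          apply sum_le_sum
          intro U' hU'
          simp only [mem_filter, mem_powerset] at hU'
          rw [card_product]
          have e1 := count_superset k ((U \ U') ∪ E0)
          have e2 := count_superset k U'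
          have e3 : ((U \ U') ∪ E0).card = k - U'.card + E0.card := by
            rw [card_union_of_disjoint, card_sdiff_of_subset hU'.1, (hB U hU).1]
            apply disjoint_left.2
            intro z hz hz'
            exact (mem_sdiff.1 hz).2 (hU'.2 hz')
          have e4 : U'.card ≤ k := (hB U hU).1 ▸ card_le_card hU'.1
          have e5 : E0.card ≤ U'.card := card_le_card hU'.2
          rw [e3] at e1
          refine (Nat.mul_le_mul e1 e2).trans ?_
          rw [← pow_add]
          apply le_of_eq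
          congr 1
          omega
      _ ≤ ∑ U ∈ BE, 2 ^ k * n ^ (k - E0.card) := by
          apply sum_le_sum
          intro U hU
          rw [sum_const, smul_eq_mul]
          apply Nat.mul_le_mul_right
          refine (card_filter_le _ _).trans ?_
          rw [card_powerset, (hB U hU).1]
      _ = _ := by rw [sum_const, smul_eq_mul]
  calc S1.card * S2.card = (S1 ×ˢ S2).card := (card_product _ _).symm
    _ = ((S1 ×ˢ S2).filter fun p => p.1 ∩ p.2 = E0).card +
        ((S1 ×ˢ S2).filter fun p => p.1 ∩ p.2 ≠ E0).card :=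
        (card_filter_add_card_filter_not _).symm
    _ ≤ _ := Nat.add_le_add hBB hA

end Pool.Agent.H.MP_66bcf1_co
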