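import Mathlib

/-!
Signed Johnson and Kneser graphs: definitions.

`V n k` is the set of vectors `v ∈ {-1,0,1}^n` with exactly `k` non-zero entries, `J n k t` and
`K n k t` are the graphs of the problem. The rest of the file is notation for the proof, in which a
vector is the pair (support, set of coordinates equal to `-1`).
-/

namespace Pool.Agent.H.MP_66bcf1_co

open Finset

/-- The vectors in `{-1,0,1}^n` with precisely `k` nonzero entries. -/
def V (n k : ℕ) : Type :=
  {v : Fin n → ℤ // (∀ i, v i = -1 ∨ v i = 0 ∨ v i = 1) ∧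
    (univ.filter fun i => v i ≠ 0).card = k}

/-- The signed Johnson graph `J_±(n,k,t)`: two distinct vertices are adjacent iff their dot product
equals `t`. -/
def J (n k : ℕ) (t : ℤ) : SimpleGraph (V n k) where
  Adj u v := u ≠ v ∧ u.1 ⬝ᵥ v.1 = t
  symm := ⟨fun u v h => ⟨h.1.symm, by rw [dotProduct_comm]; exact h.2⟩⟩
  loopless := ⟨fun _ h => h.1 rfl⟩

/-- The signed Kneser graph `K_±(n,k,t)`: two distinct vertices are adjacent iff their dot product
is at most `t`. -/
def K (n k : ℕ) (t : ℤ) : SimpleGraph (V n k) where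
  Adj u v := u ≠ v ∧ u.1 ⬝ᵥ v.1 ≤ t
  symm := ⟨fun u v h => ⟨h.1.symm, by rw [dotProduct_comm]; exact h.2⟩⟩
  loopless := ⟨fun _ h => h.1 rfl⟩

/-! ### Notation for the proof -/

variable {α : Type*} [DecidableEq α]

/-- The subsets of `U` at distance at most `d` from `c`. -/
def Ball (U c : Finset α) (d : ℕ) : Finset (Finset α) :=
  U.powerset.filter fun A => (symmDiff A c).card ≤ d

/-- The canonical family of diameter `2d+1` with special element `i` and centre `c`. -/
def Can (U : Finset α) (i : α) (c : Finset α) (d : ℕ) : Finset (Finset α) :=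
  U.powerset.filter fun A => ((symmDiff A c).erase i).card ≤ d

/-- A vector with entries in `{-1,0,1}` as a pair (support, coordinates equal to `-1`). -/
abbrev PV (α : Type*) := Finset α × Finset α

/-- The pair is a vector with exactly `k` nonzero entries. -/
def IsVec (k : ℕ) (p : PV α) : Prop := p.1.card = k ∧ p.2 ⊆ p.1

/-- The dot product of two vectors. -/
def dotp (p q : PV α) : ℤ :=
  ((p.1 ∩ q.1).card : ℤ) - 2 * ((symmDiff p.2 q.2 ∩ (p.1 ∩ q.1)).card : ℤ)

end Pool.Agent.H.MP_66bcf1_co
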