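import Pool.Agent.H.MP_66bcf1_co.Bounds

/-!
Dirty sets, excess, and the set `Low`.
-/

namespace Pool.Agent.H.MP_66bcf1_co

open Finset
open scoped Classical

noncomputable section

variable {n : ℕ} {F : Finset (PV (Fin n))} {d k s : ℕ}

/-- (D) -/
lemma card_wit (hF : IsJ k s F) (T : Finset (Fin n)) :
    ((KS n k).filter fun S => Wit F s S T).card ≤ 2 ^ s * (k * n ^ (k - s - 1)) := by
  by_cases hT : T.card = s
  swap
  · rw [filter_false_of_mem (fun S _ h => hT h.2.1)]; simp
  let Z : Finset (Fin n) → Finset (Fin n) := fun τ =>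
    if h : ∃ q ∈ F, T ⊆ q.1 ∧ q.2 ∩ T = T \ τ then h.choose.1 else ∅
  have hZ : ∀ τ, (Z τ).card ≤ k := by
    intro τ
    simp only [Z]
    split_ifs with h
    · exact (hF.vec _ h.choose_spec.1).1.le
    · simp
  calc ((KS n k).filter fun S => Wit F s S T).card
      ≤ (T.powerset.biUnion fun τ => (KS n k).filter fun S => T ⊆ S ∧
          ∃ z ∈ Z τ, z ∉ T ∧ z ∈ S).card := by
        apply card_le_card
        intro S hS
        rw [mem_filter, mem_KS] at hS
        obtain ⟨hSk, hTS, _, A, hA, q, hq, hTq, hAq⟩ := hS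
        simp only [mem_biUnion, mem_powerset, mem_filter, mem_KS]
        refine ⟨A ∩ T, inter_subset_right, hSk, hTS, ?_⟩
        have hex : ∃ q ∈ F, T ⊆ q.1 ∧ q.2 ∩ T = T \ (A ∩ T) := by
          refine ⟨q, hq, hTq, ?_⟩
          ext x
          simp only [mem_inter, mem_sdiff]
          constructor
          · rintro ⟨h1, h2⟩
            refine ⟨h2, fun h3 => ?_⟩
            have := hAq h2
            rw [mem_symmDiff] at this
            tauto
          · rintro ⟨h1, h2⟩
            refine ⟨?_, h1⟩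
            have := hAq h1
            rw [mem_symmDiff] at this
            tauto
        have hZe : Z (A ∩ T) = hex.choose.1 := by
          simp only [Z]; rw [dif_pos hex]
        obtain ⟨hq1, hq2, hq3⟩ := hex.choose_spec
        rw [hZe]
        by_contra hcon
        push Not at hcon
        have hint : S ∩ hex.choose.1 = T := by
          apply Subset.antisymm
          · intro x hx
            by_contra hxT
            exact hcon x (mem_inter.1 hx).2 hxT (mem_inter.1 hx).1
          · exact subset_inter hTS hq2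
        refine hF.cross _ hA _ hq1 (by simp only; rw [hint, hT]) ?_
        simp only
        rw [hint]
        intro x hx
        have h5 : x ∈ hex.choose.2 ∩ T ↔ x ∈ T \ (A ∩ T) := by rw [hq3]
        simp only [mem_inter, mem_sdiff] at h5
        rw [mem_symmDiff]
        tauto
    _ ≤ ∑ τ ∈ T.powerset, ((KS n k).filter fun S => T ⊆ S ∧
          ∃ z ∈ Z τ, z ∉ T ∧ z ∈ S).card := card_biUnion_le
    _ ≤ ∑ τ ∈ T.powerset, k * n ^ (k - s - 1) := by
        apply sum_le_sum
        intro τ _
        have := count_meet k T (Z τ)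
        rw [hT] at this
        exact this.trans (Nat.mul_le_mul_right _ (hZ τ))
    _ = _ := by rw [sum_const, card_powerset, hT, smul_eq_mul]

/-- the dirty `k`-sets -/
def dirtyS (F : Finset (PV (Fin n))) (s k : ℕ) : Finset (Finset (Fin n)) :=
  (KS n k).filter fun S => Dirty F s S

lemma card_dirtyS (hF : IsJ k s F) : (dirtyS F s k).card ≤
    n ^ s * (2 ^ s * (k * n ^ (k - s - 1))) := by
  calc (dirtyS F s k).card ≤ ((KS n s).biUnion fun T =>
        (KS n k).filter fun S => Wit F s S T).card := by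
        apply card_le_card
        intro S hS
        rw [dirtyS, mem_filter] at hS
        obtain ⟨h1, T, hT⟩ := hS
        rw [mem_biUnion]
        exact ⟨T, mem_KS.2 hT.2.1, mem_filter.2 ⟨h1, hT⟩⟩
    _ ≤ ∑ T ∈ KS n s, ((KS n k).filter fun S => Wit F s S T).card := card_biUnion_le
    _ ≤ ∑ T ∈ KS n s, 2 ^ s * (k * n ^ (k - s - 1)) := sum_le_sum fun T _ => card_wit hF T
    _ = (KS n s).card * (2 ^ s * (k * n ^ (k - s - 1))) := by rw [sum_const, smul_eq_mul]
    _ ≤ _ := Nat.mul_le_mul_right _ (card_KS_le n s)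

lemma card_fam_le {S : Finset (Fin n)} (hF : ∀ p ∈ F, IsVec k p) (hS : S.card = k) :
    (fam F S).card ≤ 2 ^ k := by
  rw [← hS, ← card_powerset]
  apply card_le_card
  intro A hA
  rw [mem_fam] at hA
  exact mem_powerset.2 (hF _ hA).2

lemma card_fiber (F : Finset (PV (Fin n))) (S : Finset (Fin n)) :
    (F.filter fun p => p.1 = S).card = (fam F S).card := by
  unfold fam
  rw [card_image_of_injOn]
  intro p hp q hq h
  simp only [coe_filter, Set.mem_ofPred_eq] at hp hq
  exact Prod.ext (hp.2.trans hq.2.symm) h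

lemma card_F (hF : ∀ p ∈ F, IsVec k p) : F.card = ∑ S ∈ KS n k, (fam F S).card := by
  rw [card_eq_sum_card_fiberwise (f := Prod.fst) (t := KS n k)]
  · exact sum_congr rfl fun S _ => card_fiber F S
  · intro p hp; exact mem_coe.2 (mem_KS.2 (hF p hp).1)

/-- the hypothesis given by Kleitman's theorem -/
def Klei (F : Finset (PV (Fin n))) (d k f : ℕ) : Prop :=
  ∀ S : Finset (Fin n), S.card = k → ¬ Dirty F (2 * d + 2) S →
    (fam F S).card ≤ f ∧ ((fam F S).card = f → Good F d S)

lemma excess (hF : ∀ p ∈ F, IsVec k p) {f : ℕ} (hf : Klei F d k f) {𝒜 : Finset (Finset (Fin n))}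
    (h𝒜 : 𝒜 ⊆ KS n k) :
    ∑ S ∈ 𝒜, (fam F S).card + (𝒜.filter fun S => ¬ Good F d S).card ≤
      f * 𝒜.card + (2 ^ k + 1) * (𝒜.filter fun S => Dirty F (2 * d + 2) S).card := by
  rw [card_filter, card_filter, ← sum_add_distrib, mul_sum, mul_comm f, ← smul_eq_mul, ← sum_const,
    ← sum_add_distrib]
  apply sum_le_sum
  intro S hS
  have hk := mem_KS.1 (h𝒜 hS)
  by_cases hd : Dirty F (2 * d + 2) S
  · have h1 := card_fam_le hF hk
    simp only [hd, if_true]
    split_ifs <;> omega
  · obtain ⟨h1, h2⟩ := hf S hk hd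
    simp only [hd, if_false]
    by_cases hg : Good F d S
    · simp only [hg, not_true_eq_false, if_false]; omega
    · simp only [hg, not_false_eq_true, if_true]
      have : (fam F S).card ≠ f := fun h => hg (h2 h)
      omega

lemma card_badS (hF : ∀ p ∈ F, IsVec k p) {f : ℕ} (hf : Klei F d k f)
    (hbig : f * (KS n k).card ≤ F.card) :
    (badS F d k).card ≤ (2 ^ k + 1) * (dirtyS F (2 * d + 2) k).card := by
  have h := excess hF hf (𝒜 := KS n k) Subset.rfl
  rw [← card_F hF] at h
  have e1 : (badS F d k).card = ((KS n k).filter fun S => ¬ Good F d S).card := rfl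
  have e2 : (dirtyS F (2 * d + 2) k).card =
    ((KS n k).filter fun S => Dirty F (2 * d + 2) S).card := rfl
  rw [e1, e2]
  omega

/-! ### The set `Low` -/

/-- elements which are rarely special -/
def LowS (F : Finset (PV (Fin n))) (d k M : ℕ) : Finset (Fin n) :=
  univ.filter fun x => M * (spS F d k x).card < n ^ (k - 1)

lemma mem_LowS {M : ℕ} {x : Fin n} :
    x ∈ LowS F d k M ↔ M * (spS F d k x).card < n ^ (k - 1) := by simp [LowS]

lemma LowS_mono {M M' : ℕ} (h : M ≤ M') : LowS F d k M' ⊆ LowS F d k M := by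
  intro x hx
  rw [mem_LowS] at hx ⊢
  exact lt_of_le_of_lt (Nat.mul_le_mul_right _ h) hx

/-- the threshold used for `L` -/
def thr (k L : ℕ) : ℕ := 2 * ((2 * L) ^ k * k.factorial)

lemma card_LowS {L C2 : ℕ} (hk : 1 ≤ k) (hbad : (badS F d k).card ≤ C2 * n ^ (k - 1))
    (hn1 : thr k L * C2 < n) (hn2 : 2 * k * L ≤ n) :
    L * (LowS F d k (thr k L)).card ≤ n := by
  by_contra hcon
  push Not at hcon
  set l := (LowS F d k (thr k L)).card with hl
  have hn0 : 0 < n := by omega
  have hL : 0 < L := by
    rcases Nat.eq_zero_or_pos L with h | h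
    · rw [h] at hcon; omega
    · exact h
  have h2k : 2 * k ≤ l := by
    by_contra h
    push Not at h
    have : L * l < L * (2 * k) := Nat.mul_lt_mul_of_pos_left h hL
    have e : L * (2 * k) = 2 * k * L := by ring
    omega
  have h1 := choose_lower (n := n) (Q := L) (y := l) (w := k) hcon.le h2k
  -- count
  have h2 : l.choose k ≤ ∑ x ∈ LowS F d k (thr k L), (spS F d k x).card + (badS F d k).card := by
    rw [hl, ← card_powersetCard]
    calc (powersetCard k (LowS F d k (thr k L))).card
        ≤ (((LowS F d k (thr k L)).biUnion fun x => spS F d k x) ∪ badS F d k).card := by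
          apply card_le_card
          intro S hS
          rw [mem_powersetCard] at hS
          by_cases hg : Good F d S
          · obtain ⟨i, c, hs⟩ := hg
            apply mem_union_left
            rw [mem_biUnion]
            exact ⟨i, hS.1 hs.2.1, mem_spS.2 ⟨hS.2, c, hs⟩⟩
          · apply mem_union_right
            exact mem_badS.2 ⟨hS.2, hg⟩
      _ ≤ _ := (card_union_le _ _).trans (Nat.add_le_add_right card_biUnion_le _)
  have h3 : thr k L * ∑ x ∈ LowS F d k (thr k L), (spS F d k x).card ≤ n ^ k := by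
    rw [mul_sum]
    calc ∑ x ∈ LowS F d k (thr k L), thr k L * (spS F d k x).card
        ≤ ∑ x ∈ LowS F d k (thr k L), n ^ (k - 1) :=
          sum_le_sum fun x hx => (mem_LowS.1 hx).le
      _ = l * n ^ (k - 1) := by rw [sum_const, smul_eq_mul]
      _ ≤ n * n ^ (k - 1) := by
          apply Nat.mul_le_mul_right
          have := card_le_univ (LowS F d k (thr k L))
          simpa using this
      _ = n ^ k := by rw [← pow_succ']; congr 1; omega
  generalize hSg : ∑ x ∈ LowS F d k (thr k L), (spS F d k x).card = Sg at h2 h3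
  set a := (2 * L) ^ k * k.factorial with ha
  have hthr : thr k L = 2 * a := rfl
  rw [hthr] at h3 hn1
  have h4 : n ^ k = n * n ^ (k - 1) := by rw [← pow_succ']; congr 1; omega
  have hpos : 0 < n ^ (k - 1) := pow_pos hn0 _
  have hapos : 0 < a := by positivity
  -- n^k ≤ a * choose ≤ a (Σ + bad)
  have h5 : n ^ k ≤ a * (Sg + C2 * n ^ (k - 1)) :=
    h1.trans (Nat.mul_le_mul_left _ (h2.trans (Nat.add_le_add_left hbad _)))
  have h6 : 2 * n ^ k ≤ n ^ k + 2 * a * C2 * n ^ (k - 1) := by
    calc 2 * n ^ k ≤ 2 * (a * (Sg + C2 * n ^ (k - 1))) := Nat.mul_le_mul_left _ h5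
      _ = 2 * a * Sg + 2 * a * C2 * n ^ (k - 1) := by ring
      _ ≤ _ := Nat.add_le_add_right h3 _
  have h7 : n * n ^ (k - 1) ≤ (2 * a * C2) * n ^ (k - 1) := by rw [← h4]; omega
  have h8 := Nat.le_of_mul_le_mul_right h7 hpos
  omega

end

end Pool.Agent.H.MP_66bcf1_co
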