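import Pool.Agent.H.MP_66bcf1_co.KE

/-!
Kleitman's diameter theorem for odd diameter `2d+1`, with uniqueness, deduced from the even case.
-/

namespace Pool.Agent.H.MP_66bcf1_co

open Finset

variable {α : Type*} [DecidableEq α]

/-! ### Symmetric differences -/

lemma ko_card_sd (A B : Finset α) :
    (symmDiff A B).card + 2 * (A ∩ B).card = A.card + B.card := by
  have h1 : (symmDiff A B).card = (A \ B).card + (B \ A).card := by
    rw [Finset.symmDiff_def]
    apply card_union_of_disjoint
    exact disjoint_sdiff_sdiff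
  have h2 := card_sdiff_add_card_inter A B
  have h3 := card_sdiff_add_card_inter B A
  rw [inter_comm B A] at h3
  omega

lemma ko_erase_sd (A B : Finset α) (i : α) :
    (symmDiff A B).erase i = symmDiff (A.erase i) (B.erase i) := by
  ext x
  simp only [mem_erase, mem_symmDiff]
  tauto

lemma ko_card_erase_le (A : Finset α) (i : α) : (A.erase i).card ≤ A.card := card_erase_le

lemma ko_le_card_erase (A : Finset α) (i : α) : A.card ≤ (A.erase i).card + 1 := by
  have := pred_card_le_card_erase (s := A) (a := i)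
  omega

/-- A parity argument: erasing an element does not matter if the parity is right. -/
lemma ko_erase_iff (S : Finset α) (i : α) (d : ℕ) (h : S.card % 2 = d % 2) :
    (S.erase i).card ≤ d ↔ S.card ≤ d := by
  have h1 := ko_card_erase_le S i
  have h2 := ko_le_card_erase S i
  omega

lemma ko_erase_inj (A B : Finset α) (i : α) (hp : A.card % 2 = B.card % 2)
    (h : A.erase i = B.erase i) : A = B := by
  have h1 : (symmDiff A B).erase i = ∅ := by rw [ko_erase_sd, h]; simp
  have h2 := ko_card_sd A B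
  have h3 := ko_le_card_erase (symmDiff A B) i
  rw [h1, card_empty] at h3
  have h4 : (symmDiff A B).card = 0 := by omega
  rw [card_eq_zero] at h4
  exact symmDiff_eq_bot.1 h4

/-! ### One parity class -/

lemma ko_class (d : ℕ) (U : Finset α) (i : α) (F : Finset (Finset α))
    (hF : ∀ A ∈ F, A ⊆ U) (hd : ∀ A ∈ F, ∀ B ∈ F, (symmDiff A B).card ≤ 2 * d + 1) (r : ℕ)
    (hr : ∀ A ∈ F, A.card % 2 = r) :
    (F.image fun A => A.erase i).card = F.card ∧
    (∀ A ∈ F.image fun A => A.erase i, A ⊆ U.erase i) ∧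
    (∀ A ∈ F.image fun A => A.erase i, ∀ B ∈ F.image fun A => A.erase i,
      (symmDiff A B).card ≤ 2 * d) := by
  refine ⟨?_, ?_, ?_⟩
  · apply card_image_of_injOn
    intro A hA B hB h
    exact ko_erase_inj A B i (by rw [hr A hA, hr B hB]) h
  · intro A hA
    obtain ⟨A', hA', rfl⟩ := mem_image.1 hA
    exact erase_subset_erase i (hF A' hA')
  · intro A hA B hB
    obtain ⟨A', hA', rfl⟩ := mem_image.1 hA
    obtain ⟨B', hB', rfl⟩ := mem_image.1 hB
    have h1 := hd A' hA' B' hB'
    have h2 := ko_card_sd A' B'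
    have h3 := hr A' hA'
    have h4 := hr B' hB'
    rw [← ko_erase_sd]
    have h5 := ko_card_erase_le (symmDiff A' B') i
    omega

/-- **Kleitman's theorem**, odd diameter, bound. -/
theorem ko_bound (d : ℕ) (U : Finset α) (hU : 2 * d + 2 ≤ U.card) (F : Finset (Finset α))
    (hF : ∀ A ∈ F, A ⊆ U) (hd : ∀ A ∈ F, ∀ B ∈ F, (symmDiff A B).card ≤ 2 * d + 1) :
    F.card ≤ 2 * ∑ j ∈ range (d + 1), (U.card - 1).choose j := by
  obtain ⟨i, hi⟩ : U.Nonempty := card_pos.1 (by omega)
  have hcU : (U.erase i).card = U.card - 1 := card_erase_of_mem hi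
  have key : ∀ r, (F.filter fun A => A.card % 2 = r).card ≤
      ∑ j ∈ range (d + 1), (U.card - 1).choose j := by
    intro r
    obtain ⟨h1, h2, h3⟩ := ko_class d U i (F.filter fun A => A.card % 2 = r)
      (fun A hA => hF A (mem_filter.1 hA).1)
      (fun A hA B hB => hd A (mem_filter.1 hA).1 B (mem_filter.1 hB).1) r
      (fun A hA => (mem_filter.1 hA).2)
    have h4 := ke_bound d (U.erase i) (by omega) _ h2 h3
    rwa [h1, hcU] at h4
  have hsplit : F.card = (F.filter fun A => A.card % 2 = 0).card +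
      (F.filter fun A => A.card % 2 = 1).card := by
    rw [← card_filter_add_card_filter_not (s := F) (fun A => A.card % 2 = 0)]
    congr 2
    ext A
    simp only [mem_filter]
    have : A.card % 2 = 0 ∨ A.card % 2 = 1 := by omega
    constructor
    · rintro ⟨h1, h2⟩; exact ⟨h1, by omega⟩
    · rintro ⟨h1, h2⟩; exact ⟨h1, by omega⟩
  have := key 0
  have := key 1
  omega

/-- The description of one parity class in the extremal case. -/
lemma ko_desc (d : ℕ) (U : Finset α) (i : α) (hi : i ∈ U) (hU : 2 * d + 3 ≤ U.card)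
    (F : Finset (Finset α))
    (hF : ∀ A ∈ F, A ⊆ U) (hd : ∀ A ∈ F, ∀ B ∈ F, (symmDiff A B).card ≤ 2 * d + 1) (r : ℕ)
    (hr : ∀ A ∈ F, A.card % 2 = r)
    (hc : F.card = ∑ j ∈ range (d + 1), (U.card - 1).choose j) :
    ∃ c ⊆ U, c.card % 2 = (d + r) % 2 ∧
      ∀ A ⊆ U, A.card % 2 = r → (A ∈ F ↔ (symmDiff A c).card ≤ d) := by
  have hcU : (U.erase i).card = U.card - 1 := card_erase_of_mem hi
  obtain ⟨h1, h2, h3⟩ := ko_class d U i F hF hd r hr
  obtain ⟨c, hcs, hball⟩ := ke_unique d (U.erase i) (by omega) _ h2 h3 (by rw [h1, hc, hcU])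
  have hic : i ∉ c := fun h => (mem_erase.1 (hcs h)).1 rfl
  have hce : c.erase i = c := erase_eq_of_notMem hic
  -- membership
  have hmem : ∀ A ⊆ U, A.card % 2 = r → (A ∈ F ↔ (symmDiff (A.erase i) c).card ≤ d) := by
    intro A hA hAr
    have h4 : A.erase i ∈ (F.image fun A => A.erase i) ↔ A ∈ F := by
      constructor
      · intro h
        obtain ⟨B, hB, hBA⟩ := mem_image.1 h
        have := ko_erase_inj B A i (by rw [hr B hB, hAr]) hBA
        rwa [← this]
      · intro h
        exact mem_image_of_mem _ h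
    rw [← h4, hball]
    simp only [Ball, mem_filter, mem_powerset]
    constructor
    · rintro ⟨_, h⟩; exact h
    · intro h; exact ⟨erase_subset_erase i hA, h⟩
  -- the centre with the right parity
  have hfin : ∀ e : Finset α, e ⊆ U → e.card % 2 = (d + r) % 2 → e.erase i = c →
      ∃ c ⊆ U, c.card % 2 = (d + r) % 2 ∧
      ∀ A ⊆ U, A.card % 2 = r → (A ∈ F ↔ (symmDiff A c).card ≤ d) := by
    intro e he hpar hec
    refine ⟨e, he, hpar, fun A hA hAr => ?_⟩
    rw [hmem A hA hAr, ← hec, ← ko_erase_sd]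
    apply ko_erase_iff
    have := ko_card_sd A e
    omega
  by_cases hpar : c.card % 2 = (d + r) % 2
  · exact hfin c (hcs.trans (erase_subset _ _)) hpar hce
  · apply hfin (insert i c)
    · exact insert_subset hi (hcs.trans (erase_subset _ _))
    · rw [card_insert_of_notMem hic]; omega
    · rw [erase_insert hic]

lemma ko_sub (R X Y P : Finset α) (hxX : ∀ x, x ∈ X → x ∉ R) (hxY : ∀ x, x ∈ Y → x ∉ R)
    (hxXY : ∀ x, x ∈ X → x ∉ Y) (hxXP : ∀ x, x ∈ X → x ∉ P) (hxYP : ∀ x, x ∈ Y → x ∉ P) :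
    X ∪ Y ∪ R ⊆ symmDiff R (symmDiff (X ∪ P) (Y ∪ P)) := by
  intro x hx
  have h1 := hxX x
  have h2 := hxY x
  have h3 := hxXY x
  have h4 := hxXP x
  have h5 := hxYP x
  clear hxX hxY hxXY hxXP hxYP
  simp only [mem_union, mem_symmDiff] at hx ⊢
  by_cases a : x ∈ R <;> by_cases b : x ∈ X <;> by_cases c : x ∈ Y <;> by_cases e : x ∈ P <;>
    simp_all

/-- **Kleitman's theorem**, odd diameter, uniqueness. -/
theorem ko_unique (d : ℕ) (U : Finset α) (hU : 2 * d + 3 ≤ U.card) (F : Finset (Finset α))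
    (hF : ∀ A ∈ F, A ⊆ U) (hd : ∀ A ∈ F, ∀ B ∈ F, (symmDiff A B).card ≤ 2 * d + 1)
    (hc : F.card = 2 * ∑ j ∈ range (d + 1), (U.card - 1).choose j) :
    ∃ i ∈ U, ∃ c ⊆ U.erase i, F = Can U i c d := by
  obtain ⟨i, hi⟩ : U.Nonempty := card_pos.1 (by omega)
  have hcU : (U.erase i).card = U.card - 1 := card_erase_of_mem hi
  have key : ∀ r, (F.filter fun A => A.card % 2 = r).card ≤
      ∑ j ∈ range (d + 1), (U.card - 1).choose j := by
    intro r
    obtain ⟨h1, h2, h3⟩ := ko_class d U i (F.filter fun A => A.card % 2 = r)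
      (fun A hA => hF A (mem_filter.1 hA).1)
      (fun A hA B hB => hd A (mem_filter.1 hA).1 B (mem_filter.1 hB).1) r
      (fun A hA => (mem_filter.1 hA).2)
    have h4 := ke_bound d (U.erase i) (by omega) _ h2 h3
    rwa [h1, hcU] at h4
  have hsplit : F.card = (F.filter fun A => A.card % 2 = 0).card +
      (F.filter fun A => A.card % 2 = 1).card := by
    rw [← card_filter_add_card_filter_not (s := F) (fun A => A.card % 2 = 0)]
    congr 2
    ext A
    simp only [mem_filter]
    have : A.card % 2 = 0 ∨ A.card % 2 = 1 := by omega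
    constructor
    · rintro ⟨h1, h2⟩; exact ⟨h1, by omega⟩
    · rintro ⟨h1, h2⟩; exact ⟨h1, by omega⟩
  have hk0 := key 0
  have hk1 := key 1
  have desc : ∀ r, (F.filter fun A => A.card % 2 = r).card =
      ∑ j ∈ range (d + 1), (U.card - 1).choose j →
      ∃ c ⊆ U, c.card % 2 = (d + r) % 2 ∧
      ∀ A ⊆ U, A.card % 2 = r → (A ∈ F ↔ (symmDiff A c).card ≤ d) := by
    intro r hr
    obtain ⟨c, h1, h2, h3⟩ := ko_desc d U i hi hU (F.filter fun A => A.card % 2 = r)
      (fun A hA => hF A (mem_filter.1 hA).1)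
      (fun A hA B hB => hd A (mem_filter.1 hA).1 B (mem_filter.1 hB).1) r
      (fun A hA => (mem_filter.1 hA).2) hr
    refine ⟨c, h1, h2, fun A hA hAr => ?_⟩
    rw [← h3 A hA hAr, mem_filter]
    exact ⟨fun h => ⟨h, hAr⟩, fun h => h.1⟩
  obtain ⟨c₀, hc₀U, hc₀p, hc₀⟩ := desc 0 (by omega)
  obtain ⟨c₁, hc₁U, hc₁p, hc₁⟩ := desc 1 (by omega)
  set R := symmDiff c₀ c₁ with hR
  have hRU : R ⊆ U := by
    refine (symmDiff_subset_union).trans (union_subset hc₀U hc₁U)
  have hRp : R.card % 2 = 1 := by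
    have := ko_card_sd c₀ c₁
    rw [← hR] at this
    omega
  by_cases hR1 : R.card = 1
  · -- the canonical family
    obtain ⟨i₀, hi₀⟩ := card_eq_one.1 hR1
    have hi₀U : i₀ ∈ U := hRU (by rw [hi₀]; exact mem_singleton_self _)
    refine ⟨i₀, hi₀U, c₀.erase i₀, erase_subset_erase i₀ hc₀U, ?_⟩
    have hsame : c₀.erase i₀ = c₁.erase i₀ := by
      have h1 : R.erase i₀ = ∅ := by rw [hi₀]; simp
      rw [hR, ko_erase_sd] at h1
      exact symmDiff_eq_bot.1 h1
    have h5 : ∀ A : Finset α, (symmDiff A (c₀.erase i₀)).erase i₀ = (symmDiff A c₀).erase i₀ := by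
      intro A
      rw [ko_erase_sd, ko_erase_sd, erase_idem]
    ext A
    simp only [Can, mem_filter, mem_powerset]
    rw [h5 A]
    have hA01 : A.card % 2 = 0 ∨ A.card % 2 = 1 := by omega
    constructor
    · intro hA
      have hAU := hF A hA
      refine ⟨hAU, ?_⟩
      rcases hA01 with h | h
      · have := (hc₀ A hAU h).1 hA
        exact (ko_card_erase_le _ _).trans this
      · have := (hc₁ A hAU h).1 hA
        rw [ko_erase_sd, hsame, ← ko_erase_sd]
        exact (ko_card_erase_le _ _).trans this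
    · rintro ⟨hAU, h6⟩
      rcases hA01 with h | h
      · rw [hc₀ A hAU h]
        rwa [ko_erase_iff] at h6
        have := ko_card_sd A c₀
        omega
      · rw [hc₁ A hAU h]
        rw [ko_erase_sd, hsame, ← ko_erase_sd] at h6
        rwa [ko_erase_iff] at h6
        have := ko_card_sd A c₁
        omega
  · -- impossible
    exfalso
    have hR3 : 3 ≤ R.card := by omega
    have hRm : R.card ≤ U.card := card_le_card hRU
    have hUR : (U \ R).card = U.card - R.card := by
      rw [card_sdiff_of_subset hRU]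
    set q := min d ((U.card - R.card) / 2) with hq
    have hqd : q ≤ d := min_le_left _ _
    have hqm : q ≤ (U.card - R.card) / 2 := min_le_right _ _
    obtain ⟨X₀, hX₀, hX₀c⟩ := exists_subset_card_eq (s := U \ R) (n := q) (by omega)
    have h7 : ((U \ R) \ X₀).card = U.card - R.card - q := by
      rw [card_sdiff_of_subset hX₀, hUR, hX₀c]
    obtain ⟨Y₀, hY₀, hY₀c⟩ := exists_subset_card_eq (s := (U \ R) \ X₀) (n := q) (by omega)
    have hXY : Disjoint X₀ Y₀ := by
      rw [disjoint_left]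
      intro x hx hy
      exact (mem_sdiff.1 (hY₀ hy)).2 hx
    have hXU : X₀ ⊆ U := hX₀.trans sdiff_subset
    have hYU : Y₀ ⊆ U := (hY₀.trans sdiff_subset).trans sdiff_subset
    have h8 : (U \ (X₀ ∪ Y₀)).card = U.card - 2 * q := by
      rw [card_sdiff_of_subset (union_subset hXU hYU), card_union_of_disjoint hXY, hX₀c, hY₀c]
      omega
    obtain ⟨P, hP, hPc⟩ := exists_subset_card_eq (s := U \ (X₀ ∪ Y₀)) (n := d - q) (by omega)
    have hPU : P ⊆ U := hP.trans sdiff_subset
    have hPX : Disjoint X₀ P := by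
      rw [disjoint_left]
      intro x hx hp
      exact (mem_sdiff.1 (hP hp)).2 (mem_union_left _ hx)
    have hPY : Disjoint Y₀ P := by
      rw [disjoint_left]
      intro x hx hp
      exact (mem_sdiff.1 (hP hp)).2 (mem_union_right _ hx)
    have hXc : (X₀ ∪ P).card = d := by
      rw [card_union_of_disjoint hPX, hX₀c, hPc]; omega
    have hYc : (Y₀ ∪ P).card = d := by
      rw [card_union_of_disjoint hPY, hY₀c, hPc]; omega
    have hAU : symmDiff c₀ (X₀ ∪ P) ⊆ U :=
      symmDiff_subset_union.trans (union_subset hc₀U (union_subset hXU hPU))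
    have hBU : symmDiff c₁ (Y₀ ∪ P) ⊆ U :=
      symmDiff_subset_union.trans (union_subset hc₁U (union_subset hYU hPU))
    have hAF : symmDiff c₀ (X₀ ∪ P) ∈ F := by
      rw [hc₀ _ hAU (by have := ko_card_sd c₀ (X₀ ∪ P); omega)]
      rw [symmDiff_symmDiff_self', hXc]
    have hBF : symmDiff c₁ (Y₀ ∪ P) ∈ F := by
      rw [hc₁ _ hBU (by have := ko_card_sd c₁ (Y₀ ∪ P); omega)]
      rw [symmDiff_symmDiff_self', hYc]
    have h9 := hd _ hAF _ hBF
    have h10 : X₀ ∪ Y₀ ∪ R ⊆ symmDiff (symmDiff c₀ (X₀ ∪ P)) (symmDiff c₁ (Y₀ ∪ P)) := by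
      rw [symmDiff_symmDiff_symmDiff_comm, ← hR]
      exact ko_sub R X₀ Y₀ P (fun x h => (mem_sdiff.1 (hX₀ h)).2)
        (fun x h => (mem_sdiff.1 (mem_sdiff.1 (hY₀ h)).1).2)
        (fun x h h' => disjoint_left.1 hXY h h')
        (fun x h h' => disjoint_left.1 hPX h h')
        (fun x h h' => disjoint_left.1 hPY h h')
    have h11 := card_le_card h10
    have h12 : (X₀ ∪ Y₀ ∪ R).card = 2 * q + R.card := by
      rw [card_union_of_disjoint, card_union_of_disjoint hXY, hX₀c, hY₀c]
      · omega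
      · rw [disjoint_left]
        intro x hx
        rcases mem_union.1 hx with h | h
        · exact (mem_sdiff.1 (hX₀ h)).2
        · exact (mem_sdiff.1 (mem_sdiff.1 (hY₀ h)).1).2
    omega

/-- The size of the canonical family. -/
theorem card_Can (d : ℕ) (U : Finset α) (i : α) (hi : i ∈ U) (c : Finset α) (hc : c ⊆ U.erase i) :
    (Can U i c d).card = 2 * ∑ j ∈ range (d + 1), (U.card - 1).choose j := by
  have hcU : (U.erase i).card = U.card - 1 := card_erase_of_mem hi
  have hic : i ∉ c := fun h => (mem_erase.1 (hc h)).1 rfl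
  have hce : c.erase i = c := erase_eq_of_notMem hic
  have hB := card_Ball d (U.erase i) c hc
  rw [hcU] at hB
  have hnot : ∀ A ∈ Ball (U.erase i) c d, i ∉ A := by
    intro A hA hiA
    have := (mem_powerset.1 (mem_filter.1 hA).1) hiA
    exact (mem_erase.1 this).1 rfl
  have heq : Can U i c d = Ball (U.erase i) c d ∪ (Ball (U.erase i) c d).image (insert i) := by
    ext A
    simp only [Can, Ball, mem_filter, mem_powerset, mem_union, mem_image]
    rw [ko_erase_sd, hce]
    constructor
    · rintro ⟨hAU, hA⟩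
      by_cases hiA : i ∈ A
      · right
        exact ⟨A.erase i, ⟨erase_subset_erase i hAU, hA⟩, insert_erase hiA⟩
      · left
        rw [erase_eq_of_notMem hiA] at hA
        exact ⟨fun x hx => mem_erase.2 ⟨fun h => hiA (h ▸ hx), hAU hx⟩, hA⟩
    · rintro (⟨hAU, hA⟩ | ⟨B, ⟨hBU, hB⟩, rfl⟩)
      · have hiA : i ∉ A := fun h => (mem_erase.1 (hAU h)).1 rfl
        rw [erase_eq_of_notMem hiA]
        exact ⟨hAU.trans (erase_subset _ _), hA⟩
      · have hiB : i ∉ B := fun h => (mem_erase.1 (hBU h)).1 rfl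
        rw [erase_insert hiB]
        exact ⟨insert_subset hi (hBU.trans (erase_subset _ _)), hB⟩
  rw [heq, card_union_of_disjoint, card_image_of_injOn, hB]
  · ring
  · intro A hA B hB h
    have h1 : (insert i A).erase i = (insert i B).erase i := by rw [h]
    rwa [erase_insert (hnot A hA), erase_insert (hnot B hB)] at h1
  · rw [disjoint_left]
    intro A hA hA'
    obtain ⟨B, hB, rfl⟩ := mem_image.1 hA'
    exact hnot _ hA (mem_insert_self _ _)

end Pool.Agent.H.MP_66bcf1_co
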