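import Pool.Agent.H.MP_66bcf1_co.Count
import Pool.Agent.H.MP_66bcf1_co.KO

/-!
The target family.
-/

namespace Pool.Agent.H.MP_66bcf1_co

open Finset
open scoped Classical

noncomputable section

variable {n : ℕ} {d k : ℕ}

/-- the largest element of `S` outside `Low` -/
def top (Low S : Finset (Fin n)) : Fin n → Prop := fun x => x ∈ S ∧ x ∉ Low ∧
  ∀ y ∈ S, y ∉ Low → y ≤ x

lemma exists_top {Low S : Finset (Fin n)} (h : ¬ S ⊆ Low) : ∃ x, top Low S x := by
  have hne : (S \ Low).Nonempty := by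
    rw [Finset.nonempty_iff_ne_empty]
    intro he
    exact h (sdiff_eq_empty_iff_subset.1 he)
  refine ⟨(S \ Low).max' hne, ?_⟩
  have := (S \ Low).max'_mem hne
  rw [mem_sdiff] at this
  refine ⟨this.1, this.2, fun y hy hyL => ?_⟩
  exact (S \ Low).le_max' y (mem_sdiff.2 ⟨hy, hyL⟩)

/-- first half of the target family -/
def G1 (Low c : Finset (Fin n)) (d k : ℕ) : Finset (PV (Fin n)) :=
  univ.filter fun p => IsVec k p ∧ ∃ i, top Low p.1 i ∧ ((symmDiff p.2 c ∩ p.1).erase i).card ≤ d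

lemma mem_G1 {Low c : Finset (Fin n)} {p : PV (Fin n)} : p ∈ G1 Low c d k ↔
    IsVec k p ∧ ∃ i, top Low p.1 i ∧ ((symmDiff p.2 c ∩ p.1).erase i).card ≤ d := by
  simp [G1]

lemma symmDiff_inter_of_subset {A c S : Finset (Fin n)} (h : A ⊆ S) :
    symmDiff A (c ∩ S) = symmDiff A c ∩ S := by
  ext x
  simp only [mem_symmDiff, mem_inter]
  constructor
  · rintro (⟨h1, h2⟩ | ⟨⟨h1, h2⟩, h3⟩)
    · exact ⟨Or.inl ⟨h1, fun hc => h2 ⟨hc, h h1⟩⟩, h h1⟩
    · exact ⟨Or.inr ⟨h1, h3⟩, h2⟩
  · rintro ⟨⟨h1, h2⟩ | ⟨h1, h2⟩, h3⟩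
    · exact Or.inl ⟨h1, fun hc => h2 hc.1⟩
    · exact Or.inr ⟨⟨h1, h3⟩, h2⟩

lemma card_G1 {Low c : Finset (Fin n)} (hc : c ⊆ Low) :
    (2 * ∑ j ∈ range (d + 1), (k - 1).choose j) * ((KS n k).filter fun S => ¬ S ⊆ Low).card ≤
      (G1 Low c d k).card := by
  rw [mul_comm, ← smul_eq_mul, ← sum_const]
  rw [card_eq_sum_card_fiberwise (f := Prod.fst) (t := (KS n k).filter fun S => ¬ S ⊆ Low)]
  · apply sum_le_sum
    intro S hS
    rw [mem_filter, mem_KS] at hS
    obtain ⟨hSk, hSL⟩ := hS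
    obtain ⟨i, hi⟩ := exists_top hSL
    have h1 : c ∩ S ⊆ S.erase i := by
      intro x hx
      rw [mem_inter] at hx
      refine mem_erase.2 ⟨?_, hx.2⟩
      rintro rfl
      exact hi.2.1 (hc hx.1)
    have h2 := card_Can d S i hi.1 (c ∩ S) h1
    rw [hSk] at h2
    rw [← h2]
    apply card_le_card_of_injOn (fun A => (S, A))
    · intro A hA
      rw [mem_coe, Can, mem_filter, mem_powerset] at hA
      rw [mem_coe, mem_filter, mem_G1]
      refine ⟨⟨⟨hSk, hA.1⟩, i, hi, ?_⟩, rfl⟩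
      rw [← symmDiff_inter_of_subset hA.1]
      exact hA.2
    · intro A _ B _ h
      exact (Prod.ext_iff.1 h).2
  · intro p hp
    rw [mem_coe, mem_G1] at hp
    obtain ⟨h1, i, h2, -⟩ := hp
    rw [mem_coe, mem_filter, mem_KS]
    exact ⟨h1.1, fun h => h2.2.1 (h h2.1)⟩

/-- if the dot product is at most `-(2d+2)` then there are at least `2d+2` disagreements -/
lemma dis_of_dotp {p q : PV (Fin n)} (h : dotp p q ≤ -((2 * d + 2 : ℕ) : ℤ)) :
    2 * d + 2 ≤ (symmDiff p.2 q.2 ∩ (p.1 ∩ q.1)).card ∧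
    ((symmDiff p.2 q.2 ∩ (p.1 ∩ q.1)).card = 2 * d + 2 → dotp p q = -((2 * d + 2 : ℕ) : ℤ)) := by
  have h1 : (symmDiff p.2 q.2 ∩ (p.1 ∩ q.1)).card ≤ (p.1 ∩ q.1).card :=
    card_le_card inter_subset_right
  unfold dotp at *
  push_cast at *
  constructor
  · omega
  · intro h2
    rw [h2] at h ⊢
    push_cast at *
    omega

lemma dis_sub {c : Finset (Fin n)} {p q : PV (Fin n)} :
    symmDiff p.2 q.2 ∩ (p.1 ∩ q.1) ⊆ (symmDiff p.2 c ∩ p.1) ∪ (symmDiff q.2 c ∩ q.1) := by
  intro x hx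
  simp only [mem_inter, mem_symmDiff, mem_union] at hx ⊢
  tauto

lemma card_erase_add {X : Finset (Fin n)} (i : Fin n) : X.card ≤ (X.erase i).card + 1 := by
  have := card_le_card_of_injOn (s := X) (t := insert i (X.erase i)) id
    (fun x hx => by
      rw [mem_coe] at hx ⊢
      by_cases h : x = i
      · simp [h]
      · exact mem_insert_of_mem (mem_erase.2 ⟨h, hx⟩)) (fun _ _ _ _ h => h)
  exact this.trans (card_insert_le _ _)

theorem target (F : Finset (PV (Fin n))) (hF : ∀ p ∈ F, IsVec k p)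
    (hJ : ∀ p ∈ F, ∀ q ∈ F, dotp p q ≠ -((2 * d + 2 : ℕ) : ℤ))
    (Low c : Finset (Fin n)) (hc : c ⊆ Low) :
    ∃ G : Finset (PV (Fin n)), (∀ p ∈ G, IsVec k p) ∧
      (∀ p ∈ G, ∀ q ∈ G, -((2 * d + 2 : ℕ) : ℤ) < dotp p q) ∧
      (2 * ∑ j ∈ range (d + 1), (k - 1).choose j) * ((KS n k).filter fun S => ¬ S ⊆ Low).card +
        (F.filter fun p => p.1 ⊆ Low ∧ (symmDiff p.2 c ∩ p.1).card ≤ d + 1).card ≤ G.card := by
  set F' := F.filter fun p => p.1 ⊆ Low ∧ (symmDiff p.2 c ∩ p.1).card ≤ d + 1 with hF'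
  have hdisj : Disjoint (G1 Low c d k) F' := by
    rw [disjoint_left]
    intro p hp hp'
    rw [mem_G1] at hp
    rw [hF', mem_filter] at hp'
    obtain ⟨-, i, hi, -⟩ := hp
    exact hi.2.1 (hp'.2.1 hi.1)
  -- mixed case
  have mixed : ∀ p ∈ G1 Low c d k, ∀ q ∈ F', -((2 * d + 2 : ℕ) : ℤ) < dotp p q := by
    intro p hp q hq
    by_contra hcon
    push Not at hcon
    have h1 := (dis_of_dotp hcon).1
    rw [mem_G1] at hp
    rw [hF', mem_filter] at hq
    obtain ⟨-, i, hi, hd⟩ := hp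
    have h2 : symmDiff p.2 q.2 ∩ (p.1 ∩ q.1) ⊆
        ((symmDiff p.2 c ∩ p.1).erase i) ∪ (symmDiff q.2 c ∩ q.1) := by
      intro x hx
      have hx' := dis_sub (c := c) hx
      rw [mem_union] at hx' ⊢
      rcases hx' with h | h
      · left
        refine mem_erase.2 ⟨?_, h⟩
        rintro rfl
        exact hi.2.1 (hq.2.1 (mem_inter.1 (mem_inter.1 hx).2).2)
      · exact Or.inr h
    have h3 := (card_le_card h2).trans (card_union_le _ _)
    have h4 := hq.2.2
    omega
  refine ⟨G1 Low c d k ∪ F', ?_, ?_, ?_⟩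
  · intro p hp
    rcases mem_union.1 hp with h | h
    · exact (mem_G1.1 h).1
    · exact hF p (mem_filter.1 h).1
  · have hsymm : ∀ p q : PV (Fin n), dotp p q = dotp q p := by
      intro p q
      unfold dotp
      rw [inter_comm q.1 p.1, symmDiff_comm q.2 p.2]
    intro p hp q hq
    rcases mem_union.1 hp with hp | hp <;> rcases mem_union.1 hq with hq | hq
    · by_contra hcon
      push Not at hcon
      have h1 := (dis_of_dotp hcon).1
      rw [mem_G1] at hp hq
      obtain ⟨-, i, hi, hd⟩ := hp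
      obtain ⟨-, j, hj, he⟩ := hq
      set Np := symmDiff p.2 c ∩ p.1 with hNp
      set Nq := symmDiff q.2 c ∩ q.1 with hNq
      have h2 : symmDiff p.2 q.2 ∩ (p.1 ∩ q.1) ⊆ (Np \ Nq) ∪ (Nq \ Np) := by
        intro x hx
        simp only [hNp, hNq, mem_inter, mem_symmDiff, mem_union, mem_sdiff] at hx ⊢
        tauto
      -- `i` is a disagreement, otherwise too few
      have hD : ∀ x, x ∈ symmDiff p.2 q.2 ∩ (p.1 ∩ q.1) → x ∈ Np.erase i ∨ x ∈ Nq.erase j ∨
          (x = i ∧ x ∈ Np) ∨ (x = j ∧ x ∈ Nq) := by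
        intro x hx
        have := h2 hx
        rw [mem_union, mem_sdiff, mem_sdiff] at this
        rcases this with h | h
        · by_cases hxi : x = i
          · exact Or.inr (Or.inr (Or.inl ⟨hxi, h.1⟩))
          · exact Or.inl (mem_erase.2 ⟨hxi, h.1⟩)
        · by_cases hxj : x = j
          · exact Or.inr (Or.inr (Or.inr ⟨hxj, h.1⟩))
          · exact Or.inr (Or.inl (mem_erase.2 ⟨hxj, h.1⟩))
      by_cases hiD : i ∈ symmDiff p.2 q.2 ∩ (p.1 ∩ q.1) ∧ j ∈ symmDiff p.2 q.2 ∩ (p.1 ∩ q.1)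
      · obtain ⟨hi', hj'⟩ := hiD
        have hi'' := mem_inter.1 (mem_inter.1 hi').2
        have hj'' := mem_inter.1 (mem_inter.1 hj').2
        have hij : i = j := le_antisymm (hj.2.2 i hi''.2 hi.2.1) (hi.2.2 j hj''.1 hj.2.1)
        subst hij
        have h3 : symmDiff p.2 q.2 ∩ (p.1 ∩ q.1) ⊆ insert i (Np.erase i ∪ Nq.erase i) := by
          intro x hx
          rw [mem_insert, mem_union]
          rcases hD x hx with h | h | h | h
          · exact Or.inr (Or.inl h)
          · exact Or.inr (Or.inr h)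
          · exact Or.inl h.1
          · exact Or.inl h.1
        have h4 := (card_le_card h3).trans (card_insert_le _ _)
        have h5 := card_union_le (Np.erase i) (Nq.erase i)
        omega
      · -- at most one of them
        have h3 : ∃ x₀, symmDiff p.2 q.2 ∩ (p.1 ∩ q.1) ⊆ insert x₀ (Np.erase i ∪ Nq.erase j) := by
          by_cases hi' : i ∈ symmDiff p.2 q.2 ∩ (p.1 ∩ q.1)
          · refine ⟨i, ?_⟩
            intro x hx
            rw [mem_insert, mem_union]
            rcases hD x hx with h | h | h | h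
            · exact Or.inr (Or.inl h)
            · exact Or.inr (Or.inr h)
            · exact Or.inl h.1
            · exact absurd ⟨hi', h.1 ▸ hx⟩ hiD
          · refine ⟨j, ?_⟩
            intro x hx
            rw [mem_insert, mem_union]
            rcases hD x hx with h | h | h | h
            · exact Or.inr (Or.inl h)
            · exact Or.inr (Or.inr h)
            · exact absurd (h.1 ▸ hx) hi'
            · exact Or.inl h.1
        obtain ⟨x₀, h3⟩ := h3
        have h4 := (card_le_card h3).trans (card_insert_le _ _)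
        have h5 := card_union_le (Np.erase i) (Nq.erase j)
        omega
    · exact mixed p hp q hq
    · rw [hsymm]; exact mixed q hq p hp
    · by_contra hcon
      push Not at hcon
      obtain ⟨h1, h1'⟩ := dis_of_dotp hcon
      rw [hF', mem_filter] at hp hq
      have h3 := (card_le_card (dis_sub (c := c) (p := p) (q := q))).trans (card_union_le _ _)
      have h4 := hp.2.2
      have h5 := hq.2.2
      exact hJ p hp.1 q hq.1 (h1' (by omega))
  · rw [card_union_of_disjoint hdisj]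
    exact Nat.add_le_add_right (card_G1 hc) _

end

end Pool.Agent.H.MP_66bcf1_co
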