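import Pool.Agent.H.MP_66bcf1_co.Step2
import Pool.Agent.H.MP_66bcf1_co.Target

/-!
The even case: assembly.
-/

namespace Pool.Agent.H.MP_66bcf1_co

open Finset
open scoped Classical

noncomputable section

variable {n : ℕ} {F : Finset (PV (Fin n))} {d k : ℕ}

/-- some scale is good -/
lemma good_scale_aux (hk : 2 * d + 3 ≤ k) : ∀ m : ℕ, ∀ L : ℕ, 2 ≤ L → ∃ C N, ∀ n ≥ N,
    ∀ F : Finset (PV (Fin n)), ∀ f, Big F d k f →
      (∃ L', L ≤ L' ∧ LowOK F d k L' ∧ 2 ^ (k + 2) * (dirtyX F d k (LowS F d k (thr k L'))).card ≤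
        (badX F d k (LowS F d k (thr k L'))).card) ∨
      n ^ m * (badX F d k (LowS F d k (thr k L))).card ≤ C * n ^ k := by
  intro m
  induction m with
  | zero =>
    intro L hL
    refine ⟨1, 0, fun n _ F f _ => Or.inr ?_⟩
    rw [pow_zero, one_mul, one_mul]
    refine le_trans (card_le_card (t := KS n k) ?_) (card_KS_le n k)
    intro S hS
    rw [mem_badX] at hS
    exact mem_KS.2 hS.1.1
  | succ m ih =>
    intro L hL
    obtain ⟨L', K, N1, hLL, hstep⟩ := step (d := d) hk hL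
    obtain ⟨C, N2, h2⟩ := ih L' (by omega)
    obtain ⟨N3, h3⟩ := lowOK (d := d) hk hL
    refine ⟨K * C, N1 + N2 + N3, fun n hn F f hB => ?_⟩
    rcases h2 n (by omega) F f hB with ⟨L'', h4, h5, h6⟩ | h4
    · exact Or.inl ⟨L'', by omega, h5, h6⟩
    · rcases Nat.lt_or_ge (n * (badX F d k (LowS F d k (thr k L))).card)
        (K * (badX F d k (LowS F d k (thr k L'))).card) with h | h
      · right
        calc n ^ (m + 1) * (badX F d k (LowS F d k (thr k L))).card
            = n ^ m * (n * (badX F d k (LowS F d k (thr k L))).card) := by ring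
          _ ≤ n ^ m * (K * (badX F d k (LowS F d k (thr k L'))).card) :=
              Nat.mul_le_mul_left _ h.le
          _ = K * (n ^ m * (badX F d k (LowS F d k (thr k L'))).card) := by ring
          _ ≤ K * (C * n ^ k) := Nat.mul_le_mul_left _ h4
          _ = _ := by ring
      · left
        exact ⟨L, le_rfl, h3 n (by omega) F f hB, hstep n (by omega) F f hB h⟩

lemma dirtyX_subset {Low : Finset (Fin n)} : dirtyX F d k Low ⊆ badX F d k Low := by
  intro S hS
  rw [mem_dirtyX] at hS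
  rw [mem_badX]
  exact ⟨⟨hS.1.1, fun ⟨_, _, h⟩ => h.1 hS.1.2⟩, hS.2⟩

lemma good_scale (hk : 2 * d + 3 ≤ k) {L : ℕ} (hL : 2 ≤ L) : ∃ N, ∀ n ≥ N,
    ∀ F : Finset (PV (Fin n)), ∀ f, Big F d k f →
      ∃ L', L ≤ L' ∧ LowOK F d k L' ∧ 2 ^ (k + 2) * (dirtyX F d k (LowS F d k (thr k L'))).card ≤
        (badX F d k (LowS F d k (thr k L'))).card := by
  obtain ⟨C, N, h⟩ := good_scale_aux (d := d) hk (k + 1) L hL
  obtain ⟨N3, h3⟩ := lowOK (d := d) hk hL
  refine ⟨N + N3 + C + 1, fun n hn F f hB => ?_⟩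
  rcases h n (by omega) F f hB with h | h
  · exact h
  · refine ⟨L, le_rfl, h3 n (by omega) F f hB, ?_⟩
    have hn0 : 0 < n := by omega
    set β := (badX F d k (LowS F d k (thr k L))).card with hβ
    have h1 : n * β ≤ C := by
      apply Nat.le_of_mul_le_mul_right _ (pow_pos hn0 k)
      calc n * β * n ^ k = n ^ (k + 1) * β := by ring
        _ ≤ _ := h
    have h0 : β = 0 := by
      by_contra hne
      have : n * 1 ≤ n * β := Nat.mul_le_mul_left _ (by omega)
      omega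
    have h2 : (dirtyX F d k (LowS F d k (thr k L))).card ≤ β := card_le_card dirtyX_subset
    rw [h0] at h2 ⊢
    rw [Nat.le_zero.1 h2]
    simp

lemma vb_small (hk : 2 * d + 3 ≤ k) : ∃ L₀, 2 ≤ L₀ ∧ ∃ N, ∀ n ≥ N,
    ∀ F : Finset (PV (Fin n)), ∀ f, Big F d k f → ∀ L, L₀ ≤ L → LowOK F d k L →
      2 * (VB F d k (LowS F d k (thr k L))).card ≤ (badX F d k (LowS F d k (thr k L))).card := by
  set w := k - (2 * d + 2) with hw
  set C0 := 4 ^ (k - 1) * (k - 1).factorial with hC0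
  set C4 := 2 ^ k * 2 ^ k * ((4 * 2) ^ w * w.factorial) * (1 + 8 * C0 * 2 ^ k * k) with hC4
  have hC4pos : 0 < C4 := by
    rw [hC4]
    have : 0 < w.factorial := Nat.factorial_pos _
    positivity
  refine ⟨2 * C4 + 2, by omega, 2 * (2 * k + 4 * w) + 1, fun n hn F f hB L hL ok => ?_⟩
  have hn0 : 0 < n := by omega
  have s1 : L * (LowS F d k (thr k L)).card ≤ n := ok.small
  have s2 : n ≤ 2 * (univ \ (LowS F d k (thr k L))).card := ok.half
  have s5 : (Wrong F d k (LowS F d k (thr k L))).card ≤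
      8 * C0 * 2 ^ k * k * (badX F d k (LowS F d k (thr k L))).card := ok.wrong
  set Low := LowS F d k (thr k L) with hLow
  set β := (badX F d k Low).card with hβ
  have u2 : (badX F d k Low ∪ Wrong F d k Low).card ≤ (1 + 8 * C0 * 2 ^ k * k) * β := by
    refine (card_union_le _ _).trans ?_
    rw [Nat.add_mul, one_mul]; omega
  have hv := card_VB hB.isJ hk s2 (by rw [← hw]; omega) hn0
  rw [← hw] at hv
  set v := (VB F d k Low).card with hvdef
  have h1 : v * n ^ w * L ^ w ≤ n ^ w * (C4 * β) := by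
    calc v * n ^ w * L ^ w ≤ ((Low.card ^ w * 2 ^ k) * 2 ^ k * ((4 * 2) ^ w * w.factorial) *
          (badX F d k Low ∪ Wrong F d k Low).card) * L ^ w := Nat.mul_le_mul_right _ hv
      _ ≤ ((Low.card ^ w * 2 ^ k) * 2 ^ k * ((4 * 2) ^ w * w.factorial) *
          ((1 + 8 * C0 * 2 ^ k * k) * β)) * L ^ w :=
          Nat.mul_le_mul_right _ (Nat.mul_le_mul_left _ u2)
      _ = (L * Low.card) ^ w * (C4 * β) := by rw [hC4, mul_pow]; ring
      _ ≤ n ^ w * (C4 * β) := Nat.mul_le_mul_right _ (Nat.pow_le_pow_left s1 w)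
  have h2 : v * L ^ w ≤ C4 * β := by
    apply Nat.le_of_mul_le_mul_right _ (pow_pos hn0 w)
    calc v * L ^ w * n ^ w = v * n ^ w * L ^ w := by ring
      _ ≤ _ := h1
      _ = _ := by ring
  have h3 : L ≤ L ^ w := Nat.le_self_pow (by omega) L
  apply Nat.le_of_mul_le_mul_right _ hC4pos
  calc 2 * v * C4 = v * (2 * C4) := by ring
    _ ≤ v * L ^ w := Nat.mul_le_mul_left _ (by omega)
    _ ≤ C4 * β := h2
    _ = β * C4 := by ring

lemma isJ_of (hF : ∀ p ∈ F, IsVec k p)
    (hJ : ∀ p ∈ F, ∀ q ∈ F, dotp p q ≠ -((2 * d + 2 : ℕ) : ℤ)) : IsJ k (2 * d + 2) F := by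
  refine ⟨hF, fun p hp q hq hc hsub => hJ p hp q hq ?_⟩
  unfold dotp
  have : symmDiff p.2 q.2 ∩ (p.1 ∩ q.1) = p.1 ∩ q.1 := inter_eq_right.2 hsub
  rw [this, hc]
  push_cast
  ring

lemma klei_of (hk : 2 * d + 3 ≤ k) (hB : IsJ k (2 * d + 2) F) :
    Klei F d k (2 * ∑ j ∈ range (d + 1), (k - 1).choose j) := by
  intro S hS hcl
  have hdiam := diam_of_clean (s := 2 * d + 1) hB hcl
  have hsub : ∀ A ∈ fam F S, A ⊆ S := by
    intro A hA
    rw [mem_fam] at hA
    exact (hB.vec _ hA).2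
  constructor
  · have := ko_bound d S (by omega) (fam F S) hsub hdiam
    rwa [hS] at this
  · intro hcard
    obtain ⟨i, hi, c, hc, he⟩ := ko_unique d S (by omega) (fam F S) hsub hdiam (by rw [hcard, hS])
    exact ⟨i, c, hcl, hi, hc, he⟩

theorem core_even (d k : ℕ) (hk : 2 * d + 3 ≤ k) : ∃ N, ∀ n ≥ N, ∀ F : Finset (PV (Fin n)),
    (∀ p ∈ F, IsVec k p) → (∀ p ∈ F, ∀ q ∈ F, dotp p q ≠ -((2 * d + 2 : ℕ) : ℤ)) →
    ∃ G : Finset (PV (Fin n)), (∀ p ∈ G, IsVec k p) ∧
      (∀ p ∈ G, ∀ q ∈ G, -((2 * d + 2 : ℕ) : ℤ) < dotp p q) ∧ F.card ≤ G.card := by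
  obtain ⟨L₀, hL₀, N1, h1⟩ := vb_small (d := d) hk
  obtain ⟨N2, h2⟩ := good_scale (d := d) hk hL₀
  refine ⟨N1 + N2, fun n hn F hF hJ => ?_⟩
  set f := 2 * ∑ j ∈ range (d + 1), (k - 1).choose j with hf
  by_cases hbig : f * (KS n k).card ≤ F.card
  swap
  · obtain ⟨G, g1, g2, g3⟩ := target F hF hJ ∅ ∅ (Subset.refl _)
    refine ⟨G, g1, g2, ?_⟩
    have e : (KS n k).filter (fun S => ¬ S ⊆ ∅) = KS n k := by
      apply filter_true_of_mem
      intro S hS h
      rw [mem_KS] at hS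
      rw [subset_empty.1 h, card_empty] at hS
      omega
    rw [e, ← hf] at g3
    omega
  have hIsJ := isJ_of hF hJ
  have hB : Big F d k f := ⟨hIsJ, klei_of hk hIsJ, hbig⟩
  obtain ⟨L, hL, ok, hgood⟩ := h2 n (by omega) F f hB
  have hvb := h1 n (by omega) F f hB L hL ok
  set Low := LowS F d k (thr k L) with hLow
  have hcL : cL F d k Low ⊆ Low := filter_subset _ _
  obtain ⟨G, g1, g2, g3⟩ := target F hF hJ Low (cL F d k Low) hcL
  refine ⟨G, g1, g2, le_trans ?_ g3⟩
  rw [← hf]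
  set 𝒜 := (KS n k).filter fun S => ¬ S ⊆ Low with h𝒜
  have hex := excess hF hB.klei (𝒜 := 𝒜) (filter_subset _ _)
  have e1 : (𝒜.filter fun S => ¬ Good F d S) = badX F d k Low := by
    ext S
    rw [mem_filter, h𝒜, mem_filter, mem_badX, mem_KS]
    tauto
  have e2 : (𝒜.filter fun S => Dirty F (2 * d + 2) S) = dirtyX F d k Low := by
    ext S
    rw [mem_filter, h𝒜, mem_filter, mem_dirtyX, mem_KS]
    tauto
  rw [e1, e2] at hex
  set β := (badX F d k Low).card with hβ
  set δ := (dirtyX F d k Low).card with hδ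
  -- splitting of `F`
  have hsplit : F.card ≤ ∑ S ∈ 𝒜, (fam F S).card +
      ((F.filter fun p => p.1 ⊆ Low ∧ (symmDiff p.2 (cL F d k Low) ∩ p.1).card ≤ d + 1).card +
        (VB F d k Low).card) := by
    have a1 : F.card = (F.filter fun p => ¬ p.1 ⊆ Low).card +
        (F.filter fun p => p.1 ⊆ Low).card := by
      rw [add_comm, card_filter_add_card_filter_not]
    have a2 : (F.filter fun p => ¬ p.1 ⊆ Low).card = ∑ S ∈ 𝒜, (fam F S).card := by
      rw [card_eq_sum_card_fiberwise (f := Prod.fst) (t := 𝒜)]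
      · apply sum_congr rfl
        intro S hS
        rw [← card_fiber, filter_filter]
        congr 1
        apply filter_congr
        intro p _
        rw [h𝒜, mem_filter] at hS
        constructor
        · rintro ⟨-, h⟩; exact h
        · rintro rfl; exact ⟨hS.2, rfl⟩
      · intro p hp
        rw [mem_coe, mem_filter] at hp
        rw [mem_coe, h𝒜, mem_filter, mem_KS]
        exact ⟨(hF p hp.1).1, hp.2⟩
    have a3 : (F.filter fun p => p.1 ⊆ Low).card ≤
        (F.filter fun p => p.1 ⊆ Low ∧ (symmDiff p.2 (cL F d k Low) ∩ p.1).card ≤ d + 1).card +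
        (VB F d k Low).card := by
      refine le_trans (card_le_card ?_) (card_union_le _ _)
      intro p hp
      rw [mem_filter] at hp
      rw [mem_union, mem_filter, VB, mem_filter]
      by_cases h : (symmDiff p.2 (cL F d k Low) ∩ p.1).card ≤ d + 1
      · exact Or.inl ⟨hp.1, hp.2, h⟩
      · exact Or.inr ⟨hp.1, hp.2, by omega⟩
    omega
  -- accounting
  have b1 : 2 * ((2 ^ k + 1) * δ) ≤ β := by
    refine le_trans ?_ hgood
    have : 2 ^ k + 1 ≤ 2 * 2 ^ k := by
      have : 1 ≤ 2 ^ k := Nat.one_le_two_pow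
      omega
    calc 2 * ((2 ^ k + 1) * δ) ≤ 2 * ((2 * 2 ^ k) * δ) :=
          Nat.mul_le_mul_left _ (Nat.mul_le_mul_right _ this)
      _ = 2 ^ (k + 2) * δ := by ring
  omega

end

end Pool.Agent.H.MP_66bcf1_co
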