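import Pool.Agent.H.MP_66bcf1_co.Defs

/-!
Kleitman's diameter theorem for even diameter, with uniqueness of the extremal families.
-/

namespace Pool.Agent.H.MP_66bcf1_co

open Finset

variable {α : Type*} [DecidableEq α]

/-! ### Symmetric differences -/

theorem sd_card_le (X : Finset α) (i : α) : (symmDiff X {i}).card ≤ X.card + 1 := by
  have h : symmDiff X {i} ⊆ insert i X := by
    intro y hy
    simp only [mem_symmDiff, mem_singleton, mem_insert] at *
    tauto
  exact (card_le_card h).trans (card_insert_le _ _)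

theorem sd_card_of_notMem {X : Finset α} {i : α} (h : i ∉ X) :
    (symmDiff X {i}).card = X.card + 1 := by
  have : symmDiff X {i} = insert i X := by
    ext y
    simp only [mem_symmDiff, mem_singleton, mem_insert]
    by_cases hy : y = i
    · subst hy; tauto
    · tauto
  rw [this, card_insert_of_notMem h]

theorem sd_card_of_mem {X : Finset α} {i : α} (h : i ∈ X) :
    (symmDiff X {i}).card + 1 = X.card := by
  have : symmDiff X {i} = X.erase i := by
    ext y
    simp only [mem_symmDiff, mem_singleton, mem_erase]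
    by_cases hy : y = i
    · subst hy; tauto
    · tauto
  rw [this, card_erase_add_one h]

theorem sd_sd (A B : Finset α) (i : α) :
    symmDiff A (symmDiff B {i}) = symmDiff (symmDiff A B) {i} := (symmDiff_assoc _ _ _).symm

theorem sd_sd' (A B : Finset α) (i : α) :
    symmDiff (symmDiff A {i}) B = symmDiff (symmDiff A B) {i} := by
  rw [symmDiff_right_comm]

theorem sd_cancel (A : Finset α) (i : α) : symmDiff (symmDiff A {i}) {i} = A :=
  symmDiff_symmDiff_cancel_right _ _

theorem sd_sd_both (A B : Finset α) (i : α) :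
    symmDiff (symmDiff A {i}) (symmDiff B {i}) = symmDiff A B := by
  rw [sd_sd, sd_sd', sd_cancel]

theorem sd_subset {A V : Finset α} {i : α} (hA : A ⊆ V) (hi : i ∈ V) : symmDiff A {i} ⊆ V := by
  intro y hy
  simp only [mem_symmDiff, mem_singleton] at hy
  rcases hy with ⟨h, -⟩ | ⟨h, -⟩
  · exact hA h
  · exact h ▸ hi

theorem sdc_subset {A B V : Finset α} (hA : A ⊆ V) (hB : B ⊆ V) : symmDiff A B ⊆ V := by
  intro y hy
  simp only [mem_symmDiff] at hy
  rcases hy with ⟨h, -⟩ | ⟨h, -⟩
  · exact hA h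
  · exact hB h

/-! ### Flipping one coordinate in a family -/

/-- The family of all `A ∆ {i}`, `A ∈ F`. -/
def phi (i : α) (F : Finset (Finset α)) : Finset (Finset α) := F.image fun A => symmDiff A {i}

theorem mem_phi {i : α} {F : Finset (Finset α)} {A : Finset α} :
    A ∈ phi i F ↔ symmDiff A {i} ∈ F := by
  unfold phi
  rw [mem_image]
  constructor
  · rintro ⟨B, hB, rfl⟩
    rwa [sd_cancel]
  · intro h
    exact ⟨_, h, sd_cancel _ _⟩

theorem card_phi (i : α) (F : Finset (Finset α)) : (phi i F).card = F.card := by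
  unfold phi
  apply card_image_of_injective
  intro A B h
  have h' : symmDiff A {i} = symmDiff B {i} := h
  rw [← sd_cancel A i, h', sd_cancel]

theorem phi_phi (i : α) (F : Finset (Finset α)) : phi i (phi i F) = F := by
  ext A
  rw [mem_phi, mem_phi, sd_cancel]

theorem phi_inter (i : α) (F G : Finset (Finset α)) : phi i (F ∩ G) = phi i F ∩ phi i G := by
  ext A
  simp only [mem_phi, mem_inter]

theorem mem_Ball {U c A : Finset α} {d : ℕ} :
    A ∈ Ball U c d ↔ A ⊆ U ∧ (symmDiff A c).card ≤ d := by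
  unfold Ball
  rw [mem_filter, mem_powerset]

theorem phi_Ball {V c : Finset α} {i : α} (hi : i ∈ V) (d : ℕ) :
    phi i (Ball V c d) = Ball V (symmDiff c {i}) d := by
  ext A
  rw [mem_phi, mem_Ball, mem_Ball, sd_sd', sd_sd]
  constructor
  · rintro ⟨h1, h2⟩
    refine ⟨?_, h2⟩
    have := sd_subset h1 hi
    rwa [sd_cancel] at this
  · rintro ⟨h1, h2⟩
    exact ⟨sd_subset h1 hi, h2⟩

/-! ### Cardinality of balls -/

theorem card_filter_card_le (U : Finset α) (d : ℕ) :
    (U.powerset.filter fun A => A.card ≤ d).card = ∑ j ∈ range (d + 1), U.card.choose j := by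
  induction d with
  | zero =>
    have : (U.powerset.filter fun A => A.card ≤ 0) = {∅} := by
      ext A
      simp only [mem_filter, mem_powerset, Nat.le_zero, card_eq_zero, mem_singleton]
      constructor
      · exact fun h => h.2
      · rintro rfl; exact ⟨empty_subset _, rfl⟩
    rw [this]; simp
  | succ d ih =>
    have h : (U.powerset.filter fun A => A.card ≤ d + 1) =
        (U.powerset.filter fun A => A.card ≤ d) ∪ powersetCard (d + 1) U := by
      ext A
      simp only [mem_filter, mem_powerset, mem_union, mem_powersetCard]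
      constructor
      · rintro ⟨h1, h2⟩
        rcases Nat.lt_or_ge A.card (d + 1) with h | h
        · exact Or.inl ⟨h1, by omega⟩
        · exact Or.inr ⟨h1, by omega⟩
      · rintro (⟨h1, h2⟩ | ⟨h1, h2⟩)
        · exact ⟨h1, by omega⟩
        · exact ⟨h1, by omega⟩
    rw [h, card_union_of_disjoint, ih, card_powersetCard, sum_range_succ _ (d + 1)]
    rw [disjoint_left]
    intro A hA hA'
    simp only [mem_filter, mem_powerset, mem_powersetCard] at hA hA'
    omega

theorem card_Ball (d : ℕ) (U c : Finset α) (hc : c ⊆ U) :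
    (Ball U c d).card = ∑ j ∈ range (d + 1), U.card.choose j := by
  rw [← card_filter_card_le]
  refine card_bij' (fun A _ => symmDiff A c) (fun A _ => symmDiff A c) ?_ ?_ ?_ ?_
  · intro A hA
    rw [mem_Ball] at hA
    rw [mem_filter, mem_powerset]
    exact ⟨sdc_subset hA.1 hc, hA.2⟩
  · intro A hA
    rw [mem_filter, mem_powerset] at hA
    rw [mem_Ball, symmDiff_symmDiff_cancel_right]
    exact ⟨sdc_subset hA.1 hc, hA.2⟩
  · intro A _
    exact symmDiff_symmDiff_cancel_right _ _
  · intro A _
    exact symmDiff_symmDiff_cancel_right _ _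

/-- The size of a ball. -/
def bs (n d : ℕ) : ℕ := ∑ j ∈ range (d + 1), n.choose j

theorem bs_succ (n d : ℕ) : bs (n + 1) (d + 1) = bs n (d + 1) + bs n d := by
  unfold bs
  induction d with
  | zero => simp [sum_range_succ]; omega
  | succ d ih =>
    rw [sum_range_succ _ (d + 1 + 1), ih, sum_range_succ _ (d + 1 + 1), sum_range_succ _ (d + 1)]
    rw [Nat.choose_succ_succ']
    omega

theorem bs_lt {n d : ℕ} (h : d + 1 ≤ n) : bs n d < bs n (d + 1) := by
  unfold bs
  rw [sum_range_succ _ (d + 1)]
  have := Nat.choose_pos h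
  omega

/-! ### Pairs of families -/

/-- The pair `(F₀, F₁)` describes a family of diameter at most `2d`: `F₀` consists of the members
which do not contain the last element, `F₁` of the traces of the others. -/
def Dm (d : ℕ) (F₀ F₁ : Finset (Finset α)) : Prop :=
  (∀ A ∈ F₀, ∀ B ∈ F₀, (symmDiff A B).card ≤ 2 * d) ∧
  (∀ A ∈ F₁, ∀ B ∈ F₁, (symmDiff A B).card ≤ 2 * d) ∧
  (∀ A ∈ F₀, ∀ B ∈ F₁, (symmDiff A B).card + 1 ≤ 2 * d)

theorem Dm.shift {d : ℕ} {F₀ F₁ : Finset (Finset α)} (h : Dm d F₀ F₁) (i : α) :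
    Dm d (F₀ ∪ phi i F₁) (F₁ ∩ phi i F₀) := by
  obtain ⟨h0, h1, h2⟩ := h
  refine ⟨?_, ?_, ?_⟩
  · intro A hA B hB
    rw [mem_union, mem_phi] at hA hB
    rcases hA with hA | hA <;> rcases hB with hB | hB
    · exact h0 A hA B hB
    · have h3 := h2 A hA _ hB
      have h4 := sd_card_le (symmDiff A (symmDiff B {i})) i
      rw [sd_sd, sd_cancel] at h4
      rw [sd_sd] at h3
      omega
    · have h3 := h2 B hB _ hA
      have h4 := sd_card_le (symmDiff B (symmDiff A {i})) i
      rw [sd_sd, sd_cancel] at h4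
      rw [sd_sd] at h3
      rw [symmDiff_comm A B]
      omega
    · have h3 := h1 _ hA _ hB
      rwa [sd_sd_both] at h3
  · intro A hA B hB
    exact h1 A (mem_inter.1 hA).1 B (mem_inter.1 hB).1
  · intro A hA B hB
    rw [mem_union, mem_phi] at hA
    rw [mem_inter, mem_phi] at hB
    rcases hA with hA | hA
    · exact h2 A hA B hB.1
    · have h3 := h2 _ hB.2 _ hA
      rw [sd_sd_both, symmDiff_comm B A] at h3
      exact h3

theorem card_shift (F₀ F₁ : Finset (Finset α)) (i : α) :
    (F₀ ∪ phi i F₁).card + (F₁ ∩ phi i F₀).card = F₀.card + F₁.card := by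
  have h1 : (F₁ ∩ phi i F₀).card = (F₀ ∩ phi i F₁).card := by
    rw [← card_phi i (F₁ ∩ phi i F₀), phi_inter, phi_phi, inter_comm]
  rw [h1, card_union_add_card_inter, card_phi]

/-- In the stable case the second family has diameter at most `2d - 2`. -/
theorem Dm.stable {d : ℕ} {V : Finset α} {F₀ F₁ : Finset (Finset α)} (h : Dm (d + 1) F₀ F₁)
    (hV : 2 * (d + 1) + 1 ≤ V.card) (hs : ∀ i ∈ V, phi i F₁ ⊆ F₀) :
    ∀ A ∈ F₁, ∀ B ∈ F₁, (symmDiff A B).card ≤ 2 * d := by
  obtain ⟨h0, h1, h2⟩ := h
  intro A hA B hB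
  have h3 := h1 A hA B hB
  obtain ⟨i, hi, hi'⟩ : ∃ i ∈ V, i ∉ symmDiff A B := by
    by_contra hcon
    push Not at hcon
    have := card_le_card (show V ⊆ symmDiff A B from hcon)
    omega
  have h4 : symmDiff B {i} ∈ F₀ := hs i hi (by rw [mem_phi, sd_cancel]; exact hB)
  have h5 := h2 _ h4 A hA
  rw [symmDiff_comm, sd_sd, sd_card_of_notMem hi'] at h5
  omega

/-- In the stable case with equality both families are balls. -/
theorem stable_ball {d : ℕ} {V : Finset α} {F₀ F₁ : Finset (Finset α)} (h : Dm (d + 1) F₀ F₁)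
    (hV : 2 * (d + 1) + 1 ≤ V.card) (hF₀ : ∀ A ∈ F₀, A ⊆ V) {c : Finset α} (hc : c ⊆ V)
    (h1 : F₁ = Ball V c d) (h0 : F₀.card = bs V.card (d + 1)) : F₀ = Ball V c (d + 1) := by
  apply eq_of_subset_of_card_le
  · intro A hA
    rw [mem_Ball]
    refine ⟨hF₀ A hA, ?_⟩
    by_contra hcon
    have hAc : symmDiff A c ⊆ V := sdc_subset (hF₀ A hA) hc
    have hm : min d (V.card - (symmDiff A c).card) ≤ (V \ symmDiff A c).card := by
      rw [card_sdiff_of_subset hAc]
      exact min_le_right _ _
    obtain ⟨R, hR1, hR2⟩ := exists_subset_card_eq hm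
    have hdis : Disjoint (symmDiff A c) R := by
      rw [disjoint_right]
      intro y hy
      exact (mem_sdiff.1 (hR1 hy)).2
    have hRV : R ⊆ V := hR1.trans sdiff_subset
    have hB : symmDiff c R ∈ F₁ := by
      rw [h1, mem_Ball]
      refine ⟨sdc_subset hc hRV, ?_⟩
      rw [symmDiff_comm c R, symmDiff_symmDiff_cancel_right, hR2]
      exact min_le_left _ _
    have h2 := h.2.2 A hA _ hB
    rw [← symmDiff_assoc, hdis.symmDiff_eq_sup, sup_eq_union, card_union_of_disjoint hdis, hR2]
      at h2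
    omega
  · rw [card_Ball _ _ _ hc, h0]
    rfl

/-- Connectivity of a Kneser-type graph. -/
theorem kneser_conn {d : ℕ} {W : Finset α} (hW : 2 * (d + 1) ≤ W.card) (p : Finset α → Prop)
    (h : ∀ z z', z ⊆ W → z' ⊆ W → z.card = d + 1 → (z'.card = d ∨ z'.card = d + 1) →
      Disjoint z z' → (p z ↔ p z')) {z z' : Finset α} (hz : z ⊆ W) (hz' : z' ⊆ W)
    (hzc : z.card = d ∨ z.card = d + 1) (hzc' : z'.card = d + 1) : p z ↔ p z' := by
  have key : ∀ k : ℕ, ∀ z : Finset α, z ⊆ W → z.card = d + 1 → (z \ z').card = k →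
      (p z ↔ p z') := by
    intro k
    induction k with
    | zero =>
      intro z hz hzc h0
      rw [card_eq_zero, sdiff_eq_empty_iff_subset] at h0
      rw [eq_of_subset_of_card_le h0 (by omega)]
    | succ k ih =>
      intro z hz hzc hk
      obtain ⟨a, ha⟩ : (z \ z').Nonempty := by rw [← card_pos]; omega
      have hcard : (z' \ z).card = (z \ z').card := card_sdiff_comm (by omega)
      obtain ⟨b, hb⟩ : (z' \ z).Nonempty := by rw [← card_pos]; omega
      rw [mem_sdiff] at ha hb
      have hbW : b ∈ W := hz' hb.1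
      have hbz : b ∉ z.erase a := fun hh => hb.2 (mem_of_mem_erase hh)
      have e1 : insert b (z.erase a) ⊆ W :=
        insert_subset hbW ((erase_subset _ _).trans hz)
      have e2 : (insert b (z.erase a)).card = d + 1 := by
        rw [card_insert_of_notMem hbz, card_erase_of_mem ha.1]
        omega
      have e3 : (insert b (z.erase a) \ z').card = k := by
        have : insert b (z.erase a) \ z' = (z \ z').erase a := by
          ext y
          simp only [mem_sdiff, mem_insert, mem_erase]
          constructor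
          · rintro ⟨rfl | h1, h2⟩
            · exact absurd hb.1 h2
            · exact ⟨h1.1, h1.2, h2⟩
          · rintro ⟨h1, h2, h3⟩
            exact ⟨Or.inr ⟨h1, h2⟩, h3⟩
        rw [this, card_erase_of_mem (mem_sdiff.2 ha)]
        omega
      rw [← ih _ e1 e2 e3]
      -- a `d`-set disjoint from both
      have hm : d ≤ (W \ insert b z).card := by
        have h1 : insert b z ⊆ W := insert_subset hbW hz
        have h2 : (insert b z).card ≤ d + 2 := (card_insert_le _ _).trans (by omega)
        rw [card_sdiff_of_subset h1]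
        omega
      obtain ⟨R, hR1, hR2⟩ := exists_subset_card_eq hm
      have hRW : R ⊆ W := hR1.trans sdiff_subset
      have hR : ∀ y ∈ R, y ≠ b ∧ y ∉ z := by
        intro y hy
        have := (mem_sdiff.1 (hR1 hy)).2
        rw [mem_insert] at this
        push Not at this
        exact this
      have d1 : Disjoint z R := by
        rw [disjoint_right]
        exact fun y hy => (hR y hy).2
      have d2 : Disjoint (insert b (z.erase a)) R := by
        rw [disjoint_right]
        intro y hy
        rw [mem_insert]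
        rintro (h1 | h1)
        · exact (hR y hy).1 h1
        · exact (hR y hy).2 (mem_of_mem_erase h1)
      rw [h z R hz hRW hzc (Or.inl hR2) d1, h _ R e1 hRW e2 (Or.inl hR2) d2]
  rcases hzc with hzc | hzc
  · have hm : d + 1 ≤ (W \ z).card := by
      rw [card_sdiff_of_subset hz]
      omega
    obtain ⟨R, hR1, hR2⟩ := exists_subset_card_eq hm
    have hRW : R ⊆ W := hR1.trans sdiff_subset
    have d1 : Disjoint R z := by
      rw [disjoint_left]
      intro y hy
      exact (mem_sdiff.1 (hR1 hy)).2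
    rw [← h R z hRW hz hR2 (Or.inl hzc) d1]
    exact key _ R hRW hR2 rfl
  · exact key _ z hz hzc rfl

/-- Pulling back a ball along a shift. -/
theorem pull_back {d : ℕ} {V : Finset α} {F₀ F₁ : Finset (Finset α)} (h : Dm (d + 1) F₀ F₁)
    (hV : 2 * (d + 1) + 1 ≤ V.card) {i : α} (hi : i ∈ V) {c : Finset α} (hc : c ⊆ V)
    (h0 : F₀ ∪ phi i F₁ = Ball V c (d + 1)) (h1 : F₁ ∩ phi i F₀ = Ball V c d) :
    ∃ c' ⊆ V, (F₀ = Ball V c' (d + 1) ∧ F₁ = Ball V c' d) ∨
      (F₀ = Ball V c' d ∧ F₁ = Ball V c' (d + 1)) := by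
  have h2 : F₀ ∩ phi i F₁ = Ball V (symmDiff c {i}) d := by
    rw [← phi_Ball hi, ← h1, phi_inter, phi_phi, inter_comm]
  have hW : 2 * (d + 1) ≤ (V.erase i).card := by
    rw [card_erase_of_mem hi]
    omega
  -- the elements which are in exactly one of the two families
  have key : ∀ A ∈ Ball V c (d + 1), A ∉ Ball V (symmDiff c {i}) d →
      symmDiff A c ⊆ V.erase i ∧ ((symmDiff A c).card = d ∨ (symmDiff A c).card = d + 1) := by
    intro A hA hA'
    rw [mem_Ball] at hA hA'
    have h3 : ¬ (symmDiff A (symmDiff c {i})).card ≤ d := fun hh => hA' ⟨hA.1, hh⟩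
    rw [sd_sd] at h3
    have h4 : i ∉ symmDiff A c := by
      intro hh
      have := sd_card_of_mem hh
      omega
    rw [sd_card_of_notMem h4] at h3
    exact ⟨subset_erase.2 ⟨sdc_subset hA.1 hc, h4⟩, by omega⟩
  have back : ∀ z : Finset α, z ⊆ V.erase i → (z.card = d ∨ z.card = d + 1) →
      (symmDiff z c ∈ F₀ ∨ symmDiff z c ∈ phi i F₁) ∧
      ¬ (symmDiff z c ∈ F₀ ∧ symmDiff z c ∈ phi i F₁) := by
    intro z hz hzc
    have hz' := subset_erase.1 hz
    constructor
    · rw [← mem_union, h0, mem_Ball, symmDiff_symmDiff_cancel_right]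
      exact ⟨sdc_subset hz'.1 hc, by omega⟩
    · rw [← mem_inter, h2, mem_Ball, sd_sd, symmDiff_symmDiff_cancel_right,
        sd_card_of_notMem hz'.2]
      omega
  have cross : ∀ z z' : Finset α, z ⊆ V.erase i → z' ⊆ V.erase i → Disjoint z z' →
      symmDiff z c ∈ F₀ → symmDiff z' c ∈ phi i F₁ → z.card + z'.card ≤ 2 * d := by
    intro z z' hz hz' hd' ha hb
    rw [mem_phi] at hb
    have h3 := h.2.2 _ ha _ hb
    have h4 : symmDiff (symmDiff z c) (symmDiff z' c) = z ∪ z' := by
      rw [symmDiff_assoc, symmDiff_comm c, symmDiff_symmDiff_cancel_right,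
        hd'.symmDiff_eq_sup, sup_eq_union]
    have h5 : i ∉ z ∪ z' := by
      rw [mem_union]
      rintro (h6 | h6)
      · exact (subset_erase.1 hz).2 h6
      · exact (subset_erase.1 hz').2 h6
    rw [sd_sd, h4, sd_card_of_notMem h5, card_union_of_disjoint hd'] at h3
    omega
  have conn : ∀ z z' : Finset α, z ⊆ V.erase i → z' ⊆ V.erase i → z.card = d + 1 →
      (z'.card = d ∨ z'.card = d + 1) → Disjoint z z' →
      (symmDiff z c ∈ F₀ ↔ symmDiff z' c ∈ F₀) := by
    intro z z' hz hz' hzc hzc' hdis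
    have b1 := back z hz (Or.inr hzc)
    have b2 := back z' hz' hzc'
    constructor
    · intro ha
      by_contra hb
      have := cross z z' hz hz' hdis ha (by tauto)
      omega
    · intro ha
      by_contra hb
      have := cross z' z hz' hz hdis.symm ha (by tauto)
      omega
  obtain ⟨z₀, hz₀, hz₀c⟩ := exists_subset_card_eq (show d + 1 ≤ (V.erase i).card by omega)
  have hall : ∀ z : Finset α, z ⊆ V.erase i → (z.card = d ∨ z.card = d + 1) →
      (symmDiff z c ∈ F₀ ↔ symmDiff z₀ c ∈ F₀) := fun z hz hzc =>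
    kneser_conn hW (fun z => symmDiff z c ∈ F₀) conn hz hz₀ hzc hz₀c
  by_cases hp : symmDiff z₀ c ∈ F₀
  · have e0 : Ball V c (d + 1) ⊆ F₀ := by
      intro A hA
      by_contra hAF
      have hA2 : A ∉ Ball V (symmDiff c {i}) d := by
        rw [← h2, mem_inter]
        exact fun hh => hAF hh.1
      obtain ⟨k1, k2⟩ := key A hA hA2
      have := (hall _ k1 k2).2 hp
      rw [symmDiff_symmDiff_cancel_right] at this
      exact hAF this
    have e1 : F₀ = Ball V c (d + 1) :=
      Subset.antisymm (by rw [← h0]; exact subset_union_left) e0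
    have e2 : phi i F₁ ⊆ F₀ := by
      rw [e1, ← h0]; exact subset_union_right
    have e3 : phi i F₁ = Ball V (symmDiff c {i}) d := by
      rw [← h2, inter_eq_right.2 e2]
    refine ⟨c, hc, Or.inl ⟨e1, ?_⟩⟩
    rw [← phi_phi i F₁, e3, phi_Ball hi, sd_cancel]
  · have e0 : Ball V c (d + 1) ⊆ phi i F₁ := by
      intro A hA
      by_contra hAF
      have hA2 : A ∉ Ball V (symmDiff c {i}) d := by
        rw [← h2, mem_inter]
        exact fun hh => hAF hh.2
      obtain ⟨k1, k2⟩ := key A hA hA2
      have h3 := fun hh => hp ((hall _ k1 k2).1 hh)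
      rw [symmDiff_symmDiff_cancel_right] at h3
      rw [← h0, mem_union] at hA
      tauto
    have e1 : phi i F₁ = Ball V c (d + 1) :=
      Subset.antisymm (by rw [← h0]; exact subset_union_right) e0
    have e2 : F₀ ⊆ phi i F₁ := by
      rw [e1, ← h0]; exact subset_union_left
    have e3 : F₀ = Ball V (symmDiff c {i}) d := by
      rw [← h2, inter_eq_left.2 e2]
    refine ⟨symmDiff c {i}, sd_subset hc hi, Or.inr ⟨e3, ?_⟩⟩
    rw [← phi_phi i F₁, e1, phi_Ball hi]

/-- The bound and the uniqueness for pairs of families. -/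
theorem pair_main {d : ℕ} {V : Finset α} (hV : 2 * (d + 1) + 1 ≤ V.card)
    (IH0 : ∀ F : Finset (Finset α), (∀ A ∈ F, A ⊆ V) →
      (∀ A ∈ F, ∀ B ∈ F, (symmDiff A B).card ≤ 2 * (d + 1)) → F.card ≤ bs V.card (d + 1))
    (IH1 : ∀ F : Finset (Finset α), (∀ A ∈ F, A ⊆ V) →
      (∀ A ∈ F, ∀ B ∈ F, (symmDiff A B).card ≤ 2 * d) → F.card ≤ bs V.card d ∧
        (F.card = bs V.card d → ∃ c ⊆ V, F = Ball V c d)) :
    ∀ (k : ℕ) (F₀ F₁ : Finset (Finset α)), F₁.card < k → (∀ A ∈ F₀, A ⊆ V) → (∀ A ∈ F₁, A ⊆ V) →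
      Dm (d + 1) F₀ F₁ →
      F₀.card + F₁.card ≤ bs V.card (d + 1) + bs V.card d ∧
      (F₀.card + F₁.card = bs V.card (d + 1) + bs V.card d →
        ∃ c ⊆ V, (F₀ = Ball V c (d + 1) ∧ F₁ = Ball V c d) ∨
          (F₀ = Ball V c d ∧ F₁ = Ball V c (d + 1))) := by
  intro k
  induction k with
  | zero => intro F₀ F₁ h; omega
  | succ k ih =>
    intro F₀ F₁ hk hF₀ hF₁ h
    by_cases hs : ∀ i ∈ V, phi i F₁ ⊆ F₀
    · have a0 := IH0 F₀ hF₀ h.1
      have a1 := IH1 F₁ hF₁ (h.stable hV hs)
      refine ⟨by omega, fun he => ?_⟩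
      obtain ⟨c, hc, e1⟩ := a1.2 (by omega)
      exact ⟨c, hc, Or.inl ⟨stable_ball h hV hF₀ hc e1 (by omega), e1⟩⟩
    · push Not at hs
      obtain ⟨i, hi, hni⟩ := hs
      have hlt : (F₁ ∩ phi i F₀).card < F₁.card := by
        apply card_lt_card
        refine ⟨inter_subset_left, fun hh => hni ?_⟩
        intro A hA
        rw [mem_phi] at hA
        have := (mem_inter.1 (hh hA)).2
        rwa [mem_phi, sd_cancel] at this
      have hF₀' : ∀ A ∈ F₀ ∪ phi i F₁, A ⊆ V := by
        intro A hA
        rw [mem_union, mem_phi] at hA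
        rcases hA with hA | hA
        · exact hF₀ A hA
        · have := sd_subset (hF₁ _ hA) hi
          rwa [sd_cancel] at this
      have hF₁' : ∀ A ∈ F₁ ∩ phi i F₀, A ⊆ V := fun A hA => hF₁ A (mem_inter.1 hA).1
      have := ih (F₀ ∪ phi i F₁) (F₁ ∩ phi i F₀) (by omega) hF₀' hF₁' (h.shift i)
      rw [card_shift] at this
      refine ⟨this.1, fun he => ?_⟩
      obtain ⟨c, hc, ⟨e0, e1⟩ | ⟨e0, e1⟩⟩ := this.2 he
      · exact pull_back h hV hi hc e0 e1
      · exfalso
        have h1 : (F₁ ∩ phi i F₀).card ≤ (F₀ ∪ phi i F₁).card := by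
          rw [← card_phi i (F₁ ∩ phi i F₀), phi_inter, phi_phi]
          exact card_le_card (inter_subset_left.trans subset_union_right)
        rw [e0, e1, card_Ball _ _ _ hc, card_Ball _ _ _ hc] at h1
        have h2 : bs V.card d < bs V.card (d + 1) := bs_lt (by omega)
        unfold bs at h2
        omega

/-! ### The theorem -/

theorem mem_ins {x : α} {A c : Finset α} (hxA : x ∉ A) (hxc : x ∉ c) :
    symmDiff A (insert x c) = insert x (symmDiff A c) := by
  ext y
  simp only [mem_symmDiff, mem_insert]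
  by_cases hy : y = x
  · subst hy; tauto
  · tauto

theorem mem_ins' {x : α} {A c : Finset α} (hxA : x ∈ A) (hxc : x ∉ c) :
    symmDiff A (insert x c) = symmDiff (A.erase x) c := by
  ext y
  simp only [mem_symmDiff, mem_insert, mem_erase]
  by_cases hy : y = x
  · subst hy; tauto
  · tauto

theorem mem_ins'' {x : α} {A c : Finset α} (hxA : x ∈ A) (hxc : x ∉ c) :
    symmDiff A c = insert x (symmDiff (A.erase x) c) := by
  ext y
  simp only [mem_symmDiff, mem_insert, mem_erase]
  by_cases hy : y = x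
  · subst hy; tauto
  · tauto

theorem notMem_sd {x : α} {A c : Finset α} (hxA : x ∉ A) (hxc : x ∉ c) : x ∉ symmDiff A c := by
  rw [mem_symmDiff]; tauto

/-- The members which do not contain `x`. -/
def loF (x : α) (F : Finset (Finset α)) : Finset (Finset α) := F.filter fun A => x ∉ A

/-- The traces of the members which contain `x`. -/
def hiF (x : α) (F : Finset (Finset α)) : Finset (Finset α) :=
  (F.filter fun A => x ∈ A).image fun A => A.erase x

theorem mem_lo {x : α} {F : Finset (Finset α)} {A : Finset α} : A ∈ loF x F ↔ A ∈ F ∧ x ∉ A := by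
  unfold loF; rw [mem_filter]

theorem mem_hi {x : α} {F : Finset (Finset α)} {A : Finset α} :
    A ∈ hiF x F ↔ x ∉ A ∧ insert x A ∈ F := by
  unfold hiF
  rw [mem_image]
  constructor
  · rintro ⟨B, hB, rfl⟩
    rw [mem_filter] at hB
    refine ⟨notMem_erase _ _, ?_⟩
    rw [insert_erase hB.2]
    exact hB.1
  · rintro ⟨h1, h2⟩
    exact ⟨insert x A, mem_filter.2 ⟨h2, mem_insert_self _ _⟩, erase_insert h1⟩

theorem mem_iff_lo_hi {x : α} {F : Finset (Finset α)} {A : Finset α} :
    A ∈ F ↔ (x ∉ A ∧ A ∈ loF x F) ∨ (x ∈ A ∧ A.erase x ∈ hiF x F) := by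
  rw [mem_lo, mem_hi]
  by_cases hx : x ∈ A
  · simp only [hx, not_true, and_false, false_or, true_and, insert_erase hx,
      notMem_erase, not_false_eq_true]
  · simp only [hx, not_false_eq_true, and_true, true_and, false_and, or_false]

theorem card_lo_hi (x : α) (F : Finset (Finset α)) : (loF x F).card + (hiF x F).card = F.card := by
  have h1 : (hiF x F).card = (F.filter fun A => x ∈ A).card := by
    unfold hiF
    apply card_image_of_injOn
    intro A hA B hB hAB
    have hA' := (mem_filter.1 (mem_coe.1 hA)).2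
    have hB' := (mem_filter.1 (mem_coe.1 hB)).2
    have hAB' : A.erase x = B.erase x := hAB
    rw [← insert_erase hA', hAB', insert_erase hB']
  rw [h1, add_comm]
  exact card_filter_add_card_filter_not (s := F) (fun A => x ∈ A)

theorem Dm_lo_hi {d : ℕ} {F : Finset (Finset α)} (x : α)
    (hd : ∀ A ∈ F, ∀ B ∈ F, (symmDiff A B).card ≤ 2 * d) : Dm d (loF x F) (hiF x F) := by
  refine ⟨?_, ?_, ?_⟩
  · intro A hA B hB
    exact hd A (mem_lo.1 hA).1 B (mem_lo.1 hB).1
  · intro A hA B hB
    rw [mem_hi] at hA hB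
    have h1 := hd _ hA.2 _ hB.2
    rwa [mem_ins' (mem_insert_self x A) hB.1, erase_insert hA.1] at h1
  · intro A hA B hB
    rw [mem_lo] at hA
    rw [mem_hi] at hB
    have h1 := hd _ hA.1 _ hB.2
    rwa [mem_ins hA.2 hB.1, card_insert_of_notMem (notMem_sd hA.2 hB.1)] at h1

theorem bs_half (d : ℕ) : 2 * bs (2 * d + 1) d = 2 ^ (2 * d + 1) := by
  unfold bs
  rw [Nat.sum_range_choose_halfway]
  rw [pow_succ, pow_mul]
  norm_num [mul_comm]

theorem bound_half {d : ℕ} {U : Finset α} (hU : U.card = 2 * d + 1) {F : Finset (Finset α)}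
    (hF : ∀ A ∈ F, A ⊆ U) (hd : ∀ A ∈ F, ∀ B ∈ F, (symmDiff A B).card ≤ 2 * d) :
    F.card ≤ bs U.card d := by
  have h1 : (F.image fun A => U \ A).card = F.card := by
    apply card_image_of_injOn
    intro A hA B hB hAB
    have hAB' : U \ A = U \ B := hAB
    rw [← Finset.sdiff_sdiff_eq_self (hF A hA), hAB', Finset.sdiff_sdiff_eq_self (hF B hB)]
  have h2 : Disjoint F (F.image fun A => U \ A) := by
    rw [disjoint_left]
    intro B hB hB'
    rw [mem_image] at hB'
    obtain ⟨A, hA, rfl⟩ := hB'
    have h3 := hd _ hA _ hB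
    have h4 : symmDiff A (U \ A) = U := by
      ext y
      simp only [mem_symmDiff, mem_sdiff]
      have := @hF A hA y
      tauto
    rw [h4] at h3
    omega
  have h3 : F ∪ (F.image fun A => U \ A) ⊆ U.powerset := by
    intro A hA
    rw [mem_union, mem_image] at hA
    rw [mem_powerset]
    rcases hA with hA | ⟨B, -, rfl⟩
    · exact hF A hA
    · exact sdiff_subset
  have h4 := card_le_card h3
  rw [card_union_of_disjoint h2, h1, card_powerset, hU, ← bs_half] at h4
  rw [hU]
  omega

theorem ke_aux (n : ℕ) : ∀ (d : ℕ) (U : Finset α), U.card = n → 2 * d + 1 ≤ n →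
    ∀ F : Finset (Finset α), (∀ A ∈ F, A ⊆ U) →
      (∀ A ∈ F, ∀ B ∈ F, (symmDiff A B).card ≤ 2 * d) →
      F.card ≤ bs n d ∧ (2 * d + 2 ≤ n → F.card = bs n d → ∃ c ⊆ U, F = Ball U c d) := by
  induction n with
  | zero => intro d U _ h; omega
  | succ n ih =>
    intro d U hU hn F hF hd
    rcases d with _ | d
    · -- `d = 0`
      have h1 : ∀ A ∈ F, ∀ B ∈ F, A = B := by
        intro A hA B hB
        have := hd A hA B hB
        rw [Nat.mul_zero, Nat.le_zero, card_eq_zero] at this
        exact symmDiff_eq_bot.1 this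
      have h2 : F.card ≤ 1 := card_le_one.2 h1
      have h3 : bs (n + 1) 0 = 1 := by unfold bs; simp
      refine ⟨by omega, fun _ he => ?_⟩
      obtain ⟨c, hc⟩ := card_eq_one.1 (he.trans h3)
      refine ⟨c, hF c (by rw [hc]; exact mem_singleton_self c), ?_⟩
      rw [hc]
      ext A
      rw [mem_singleton, mem_Ball, Nat.le_zero, card_eq_zero]
      constructor
      · rintro rfl
        exact ⟨hF A (by rw [hc]; exact mem_singleton_self _), symmDiff_self A⟩
      · rintro ⟨-, h⟩
        exact symmDiff_eq_bot.1 h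
    · rcases Nat.lt_or_ge (n + 1) (2 * (d + 1) + 2) with h | h
      · refine ⟨?_, fun hh => by omega⟩
        have := bound_half (d := d + 1) (by omega) hF hd
        rwa [hU] at this
      · obtain ⟨x, hx⟩ : U.Nonempty := by rw [← card_pos]; omega
        have hV : (U.erase x).card = n := by rw [card_erase_of_mem hx]; omega
        have IH0 : ∀ F : Finset (Finset α), (∀ A ∈ F, A ⊆ U.erase x) →
            (∀ A ∈ F, ∀ B ∈ F, (symmDiff A B).card ≤ 2 * (d + 1)) →
            F.card ≤ bs (U.erase x).card (d + 1) := by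
          intro G hG hdG
          rw [hV]
          exact (ih (d + 1) _ hV (by omega) G hG hdG).1
        have IH1 : ∀ F : Finset (Finset α), (∀ A ∈ F, A ⊆ U.erase x) →
            (∀ A ∈ F, ∀ B ∈ F, (symmDiff A B).card ≤ 2 * d) → F.card ≤ bs (U.erase x).card d ∧
              (F.card = bs (U.erase x).card d → ∃ c ⊆ U.erase x, F = Ball (U.erase x) c d) := by
          intro G hG hdG
          rw [hV]
          have := ih d _ hV (by omega) G hG hdG
          exact ⟨this.1, this.2 (by omega)⟩
        have h0 : ∀ A ∈ loF x F, A ⊆ U.erase x := by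
          intro A hA
          rw [mem_lo] at hA
          exact subset_erase.2 ⟨hF A hA.1, hA.2⟩
        have h1 : ∀ A ∈ hiF x F, A ⊆ U.erase x := by
          intro A hA
          rw [mem_hi] at hA
          exact subset_erase.2 ⟨(subset_insert x A).trans (hF _ hA.2), hA.1⟩
        have hm := pair_main (by omega) IH0 IH1 _ (loF x F) (hiF x F) (Nat.lt_succ_self _) h0 h1
          (Dm_lo_hi x hd)
        rw [card_lo_hi, hV, ← bs_succ] at hm
        refine ⟨hm.1, fun _ he => ?_⟩
        obtain ⟨c, hc, ⟨e0, e1⟩ | ⟨e0, e1⟩⟩ := hm.2 he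
        · have hc' := subset_erase.1 hc
          refine ⟨c, hc'.1, ?_⟩
          ext A
          rw [mem_iff_lo_hi (x := x), e0, e1, mem_Ball, mem_Ball, mem_Ball]
          by_cases hA : x ∈ A
          · have h2 : x ∉ symmDiff (A.erase x) c := notMem_sd (notMem_erase _ _) hc'.2
            rw [mem_ins'' hA hc'.2, card_insert_of_notMem h2]
            constructor
            · rintro (⟨h3, -⟩ | ⟨-, h3, h4⟩)
              · exact absurd hA h3
              · refine ⟨?_, by omega⟩
                rw [← insert_erase hA]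
                exact insert_subset hx (h3.trans (erase_subset _ _))
            · rintro ⟨h3, h4⟩
              exact Or.inr ⟨hA, erase_subset_erase _ h3, by omega⟩
          · constructor
            · rintro (⟨-, h3, h4⟩ | ⟨h3, -⟩)
              · exact ⟨h3.trans (erase_subset _ _), h4⟩
              · exact absurd h3 hA
            · rintro ⟨h3, h4⟩
              exact Or.inl ⟨hA, subset_erase.2 ⟨h3, hA⟩, h4⟩
        · have hc' := subset_erase.1 hc
          refine ⟨insert x c, insert_subset hx hc'.1, ?_⟩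
          ext A
          rw [mem_iff_lo_hi (x := x), e0, e1, mem_Ball, mem_Ball, mem_Ball]
          by_cases hA : x ∈ A
          · rw [mem_ins' hA hc'.2]
            constructor
            · rintro (⟨h3, -⟩ | ⟨-, h3, h4⟩)
              · exact absurd hA h3
              · refine ⟨?_, h4⟩
                rw [← insert_erase hA]
                exact insert_subset hx (h3.trans (erase_subset _ _))
            · rintro ⟨h3, h4⟩
              exact Or.inr ⟨hA, erase_subset_erase _ h3, h4⟩
          · have h2 : x ∉ symmDiff A c := notMem_sd hA hc'.2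
            rw [mem_ins hA hc'.2, card_insert_of_notMem h2]
            constructor
            · rintro (⟨-, h3, h4⟩ | ⟨h3, -⟩)
              · exact ⟨h3.trans (erase_subset _ _), by omega⟩
              · exact absurd h3 hA
            · rintro ⟨h3, h4⟩
              exact Or.inl ⟨hA, subset_erase.2 ⟨h3, hA⟩, by omega⟩

theorem ke_bound (d : ℕ) (U : Finset α) (hU : 2 * d + 1 ≤ U.card) (F : Finset (Finset α))
    (hF : ∀ A ∈ F, A ⊆ U) (hd : ∀ A ∈ F, ∀ B ∈ F, (symmDiff A B).card ≤ 2 * d) :
    F.card ≤ ∑ j ∈ range (d + 1), U.card.choose j :=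
  (ke_aux U.card d U rfl hU F hF hd).1

theorem ke_unique (d : ℕ) (U : Finset α) (hU : 2 * d + 2 ≤ U.card) (F : Finset (Finset α))
    (hF : ∀ A ∈ F, A ⊆ U) (hd : ∀ A ∈ F, ∀ B ∈ F, (symmDiff A B).card ≤ 2 * d)
    (hc : F.card = ∑ j ∈ range (d + 1), U.card.choose j) : ∃ c ⊆ U, F = Ball U c d :=
  (ke_aux U.card d U rfl (by omega) F hF hd).2 hU hc

end Pool.Agent.H.MP_66bcf1_co
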