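import Mathlib
import Pool.Agent.H.MP_66bcf1_co.Defs
import Pool.Agent.H.MP_66bcf1_co.KE

/-!
The odd case `s = 2d+1`.
-/

namespace Pool.Agent.H.MP_66bcf1_co

open Finset

namespace OddCase

section general

variable {α : Type*} [DecidableEq α]

/-- the fibre of `F` over the support `S` -/
def fam (F : Finset (PV α)) (S : Finset α) : Finset (Finset α) :=
  (F.filter (fun p => p.1 = S)).image Prod.snd

lemma mem_fam {F : Finset (PV α)} {S A : Finset α} : A ∈ fam F S ↔ (S, A) ∈ F := by
  unfold fam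
  rw [mem_image]
  constructor
  · rintro ⟨⟨S', A'⟩, h, rfl⟩
    rw [mem_filter] at h
    obtain ⟨h1, h2⟩ := h
    simp only at h2 ⊢
    rwa [h2] at h1
  · intro h
    exact ⟨(S, A), mem_filter.2 ⟨h, rfl⟩, rfl⟩

lemma card_fam (F : Finset (PV α)) (S : Finset α) :
    (fam F S).card = (F.filter (fun p => p.1 = S)).card := by
  unfold fam
  apply card_image_of_injOn
  intro p hp q hq h
  rw [mem_coe, mem_filter] at hp hq
  exact Prod.ext (hp.2.trans hq.2.symm) h

lemma card_eq_sum_fam (F : Finset (PV α)) (P : Finset (Finset α)) (h : ∀ p ∈ F, p.1 ∈ P) :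
    F.card = ∑ S ∈ P, (fam F S).card := by
  rw [card_eq_sum_card_fiberwise (f := Prod.fst) (t := P) (fun p hp => h p hp)]
  exact sum_congr rfl fun S _ => (card_fam F S).symm

lemma dotp_eq_neg {p q : PV α} {s : ℕ} (h1 : (p.1 ∩ q.1).card = s)
    (h2 : p.1 ∩ q.1 ⊆ symmDiff p.2 q.2) : dotp p q = -(s : ℤ) := by
  unfold dotp
  rw [inter_eq_right.2 h2, h1]
  ring

lemma count_meet [Fintype α] (k : ℕ) (T Z : Finset α) (hd : Disjoint Z T) :
    ((powersetCard k univ).filter (fun S => T ⊆ S ∧ (S ∩ Z).Nonempty)).card ≤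
      Z.card * (Fintype.card α) ^ (k - T.card - 1) := by
  have hsub : (powersetCard k univ).filter (fun S => T ⊆ S ∧ (S ∩ Z).Nonempty) ⊆
      (Z ×ˢ powersetCard (k - T.card - 1) univ).image (fun zw => T ∪ insert zw.1 zw.2) := by
    intro S hS
    rw [mem_filter, mem_powersetCard] at hS
    obtain ⟨⟨_, hc⟩, hT, z, hz⟩ := hS
    rw [mem_inter] at hz
    rw [mem_image]
    have hzT : z ∉ T := fun h => (disjoint_left.1 hd hz.2) h
    refine ⟨(z, (S \ T).erase z), ?_, ?_⟩
    · rw [mem_product, mem_powersetCard]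
      refine ⟨hz.2, subset_univ _, ?_⟩
      rw [card_erase_of_mem (mem_sdiff.2 ⟨hz.1, hzT⟩), card_sdiff_of_subset hT, hc]
    · simp only
      rw [insert_erase (mem_sdiff.2 ⟨hz.1, hzT⟩), union_sdiff_of_subset hT]
  refine (card_le_card hsub).trans (card_image_le.trans ?_)
  rw [card_product, card_powersetCard, card_univ]
  exact Nat.mul_le_mul_left _ ((Nat.choose_le_descFactorial _ _).trans
    (Nat.descFactorial_le_pow _ _))

/-- witness that `S` is dirty -/
def Wit (F : Finset (PV α)) (s : ℕ) (S T A S' A' : Finset α) : Prop :=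
  (S, A) ∈ F ∧ (S', A') ∈ F ∧ T ⊆ S ∧ T ⊆ S' ∧ T.card = s ∧ T ⊆ symmDiff A A'

/-- the hypothesis on `F` that is used -/
def Good (F : Finset (PV α)) (s : ℕ) : Prop :=
  ∀ S A S' A', (S, A) ∈ F → (S', A') ∈ F → (S ∩ S').card = s → ¬ S ∩ S' ⊆ symmDiff A A'

lemma symmDiff_of_inter {T A A' τ : Finset α} (h1 : A ∩ T = τ) (h2 : A' ∩ T = T \ τ) :
    T ⊆ symmDiff A A' := by
  intro x hx
  rw [mem_symmDiff]
  by_cases hA : x ∈ A
  · left
    refine ⟨hA, fun hA' => ?_⟩
    have h3 : x ∈ T \ τ := h2 ▸ mem_inter.2 ⟨hA', hx⟩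
    exact (mem_sdiff.1 h3).2 (h1 ▸ mem_inter.2 ⟨hA, hx⟩)
  · right
    refine ⟨?_, hA⟩
    have h3 : x ∈ T \ τ := by
      rw [mem_sdiff]
      refine ⟨hx, fun h4 => hA ?_⟩
      rw [← h1] at h4
      exact (mem_inter.1 h4).1
    rw [← h2] at h3
    exact (mem_inter.1 h3).1

lemma inter_of_symmDiff {T A A' : Finset α} (h : T ⊆ symmDiff A A') :
    A' ∩ T = T \ (A ∩ T) := by
  ext x
  rw [mem_inter, mem_sdiff, mem_inter]
  constructor
  · rintro ⟨h1, h2⟩
    refine ⟨h2, fun h3 => ?_⟩
    rcases mem_symmDiff.1 (h h2) with h4 | h4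
    · exact h4.2 h1
    · exact h4.2 h3.1
  · rintro ⟨h1, h2⟩
    refine ⟨?_, h1⟩
    rcases mem_symmDiff.1 (h h1) with h4 | h4
    · exact absurd ⟨h4.1, h1⟩ h2
    · exact h4.1

open Classical in
lemma D_bound [Fintype α] (F : Finset (PV α)) (k s : ℕ) (hF : ∀ p ∈ F, IsVec k p)
    (hG : Good F s) (T : Finset α) (hT : T.card = s) :
    ((powersetCard k univ).filter (fun S => ∃ A S' A', Wit F s S T A S' A')).card ≤
      2 ^ s * (k * (Fintype.card α) ^ (k - s - 1)) := by
  set D : Finset α → Finset (Finset α) := fun τ => (powersetCard k univ).filter (fun S =>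
    T ⊆ S ∧ (∃ A, (S, A) ∈ F ∧ A ∩ T = τ) ∧ ∃ S' A', (S', A') ∈ F ∧ T ⊆ S' ∧ A' ∩ T = T \ τ)
    with hD
  have hsub : (powersetCard k univ).filter (fun S => ∃ A S' A', Wit F s S T A S' A') ⊆
      T.powerset.biUnion D := by
    intro S hS
    rw [mem_filter] at hS
    obtain ⟨hS, A, S', A', h1, h2, h3, h4, _, h6⟩ := hS
    rw [mem_biUnion]
    refine ⟨A ∩ T, mem_powerset.2 inter_subset_right, ?_⟩
    rw [hD, mem_filter]
    exact ⟨hS, h3, ⟨A, h1, rfl⟩, S', A', h2, h4, inter_of_symmDiff h6⟩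
  refine (card_le_card hsub).trans (card_biUnion_le.trans ?_)
  have hb : ∀ τ ∈ T.powerset, (D τ).card ≤ k * (Fintype.card α) ^ (k - s - 1) := by
    intro τ _
    rcases (D τ).eq_empty_or_nonempty with he | ⟨S0, hS0⟩
    · rw [he]; simp
    · rw [hD, mem_filter] at hS0
      obtain ⟨_, _, _, Sx, Ax, hx1, hx2, hx3⟩ := hS0
      have hsub2 : D τ ⊆ (powersetCard k univ).filter
          (fun S => T ⊆ S ∧ (S ∩ (Sx \ T)).Nonempty) := by
        intro S hS
        rw [hD, mem_filter] at hS
        obtain ⟨hS1, hS2, ⟨A, hA1, hA2⟩, _⟩ := hS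
        rw [mem_filter]
        refine ⟨hS1, hS2, ?_⟩
        rw [nonempty_iff_ne_empty]
        intro he
        have hint : S ∩ Sx = T := by
          ext x
          rw [mem_inter]
          constructor
          · rintro ⟨h1, h2⟩
            by_contra h3
            have : x ∈ S ∩ (Sx \ T) := mem_inter.2 ⟨h1, mem_sdiff.2 ⟨h2, h3⟩⟩
            rw [he] at this
            exact absurd this (notMem_empty x)
          · intro h; exact ⟨hS2 h, hx2 h⟩
        refine hG S A Sx Ax hA1 hx1 (by rw [hint, hT]) ?_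
        rw [hint]
        exact symmDiff_of_inter hA2 hx3
      refine (card_le_card hsub2).trans ((count_meet k T (Sx \ T) sdiff_disjoint).trans ?_)
      rw [hT]
      apply Nat.mul_le_mul_right
      refine (card_le_card sdiff_subset).trans ?_
      exact (hF _ hx1).1.le
  refine (sum_le_sum hb).trans ?_
  rw [sum_const, card_powerset, hT, smul_eq_mul]

lemma card_split {T τ c : Finset α} (hτ : τ ⊆ T) :
    (symmDiff (c ∩ T) τ).card + (symmDiff (c ∩ T) (T \ τ)).card = T.card := by
  rw [← card_union_of_disjoint]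
  · congr 1
    ext x
    rw [mem_union, mem_symmDiff, mem_symmDiff, mem_inter, mem_sdiff]
    have := @hτ x
    tauto
  · rw [disjoint_left]
    intro x
    rw [mem_symmDiff, mem_symmDiff, mem_inter, mem_sdiff]
    tauto

/-- (K): a `k`-set `S'' ⊇ T` meeting `S ∪ S'` in `T` only cannot carry a full ball -/
lemma K_bad (F : Finset (PV α)) (d : ℕ) (hG : Good F (2 * d + 1)) {S T A S' A' : Finset α}
    (hw : Wit F (2 * d + 1) S T A S' A') (W c : Finset α) (hW : Disjoint W (S ∪ S'))
    (hc : c ⊆ T ∪ W) : fam F (T ∪ W) ≠ Ball (T ∪ W) c d := by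
  intro hball
  obtain ⟨h1, h2, h3, h4, h5, h6⟩ := hw
  rw [disjoint_union_right] at hW
  have hA' := inter_of_symmDiff h6
  have key : ∀ ρ : Finset α, ρ ⊆ T → (symmDiff (c ∩ T) ρ).card ≤ d →
      ((T ∪ W), (c \ T) ∪ ρ) ∈ F ∧ ((c \ T) ∪ ρ) ∩ T = ρ := by
    intro ρ hρ hcard
    constructor
    · rw [← mem_fam, hball]
      unfold Ball
      rw [mem_filter, mem_powerset]
      constructor
      · intro x hx
        rw [mem_union] at hx
        rcases hx with hx | hx
        · exact hc (mem_sdiff.1 hx).1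
        · exact mem_union_left _ (hρ hx)
      · refine le_trans (card_le_card ?_) hcard
        intro x
        rw [mem_symmDiff, mem_symmDiff, mem_union, mem_inter, mem_sdiff]
        have := @hρ x
        tauto
    · ext x
      rw [mem_inter, mem_union, mem_sdiff]
      have := @hρ x
      tauto
  have hcin : ∀ S2 : Finset α, T ⊆ S2 → Disjoint W S2 → (T ∪ W) ∩ S2 = T := by
    intro S2 hT hd
    rw [union_inter_distrib_right, inter_eq_left.2 hT, disjoint_iff_inter_eq_empty.1 hd,
      union_empty]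
  have hτ : A ∩ T ⊆ T := inter_subset_right
  have hsplit := card_split (c := c) hτ
  rw [h5] at hsplit
  rcases le_or_gt (symmDiff (c ∩ T) (A ∩ T)).card d with hle | hgt
  · obtain ⟨k1, k2⟩ := key (A ∩ T) hτ hle
    refine hG _ _ _ _ k1 h2 ?_ ?_
    · rw [hcin S' h4 hW.2, h5]
    · rw [hcin S' h4 hW.2]
      exact symmDiff_of_inter k2 hA'
  · obtain ⟨k1, k2⟩ := key (T \ (A ∩ T)) sdiff_subset (by omega)
    refine hG _ _ _ _ k1 h1 ?_ ?_
    · rw [hcin S h3 hW.1, h5]
    · rw [hcin S h3 hW.1, symmDiff_comm]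
      exact symmDiff_of_inter rfl k2

/-- the supports whose fibre is not a ball -/
noncomputable def bad [Fintype α] (F : Finset (PV α)) (k d : ℕ) : Finset (Finset α) := by
  classical
  exact (powersetCard k univ).filter (fun S => ∀ c ⊆ S, fam F S ≠ Ball S c d)

lemma mem_bad [Fintype α] {F : Finset (PV α)} {k d : ℕ} {S : Finset α} :
    S ∈ bad F k d ↔ S.card = k ∧ ∀ c ⊆ S, fam F S ≠ Ball S c d := by
  unfold bad
  rw [mem_filter, mem_powersetCard]
  simp only [subset_univ, true_and]

lemma count_K [Fintype α] (F : Finset (PV α)) (k d : ℕ) (hF : ∀ p ∈ F, IsVec k p)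
    (hG : Good F (2 * d + 1)) (hk : 2 * d + 2 ≤ k) {S T A S' A' : Finset α}
    (hw : Wit F (2 * d + 1) S T A S' A') :
    (Fintype.card α - 2 * k).choose (k - (2 * d + 1)) ≤
      ((bad F k d).filter (fun R => T ⊆ R)).card := by
  have hS : S.card = k := (hF _ hw.1).1
  have hS' : S'.card = k := (hF _ hw.2.1).1
  have h1 : (Fintype.card α - 2 * k).choose (k - (2 * d + 1)) ≤
      (powersetCard (k - (2 * d + 1)) (univ \ (S ∪ S'))).card := by
    rw [card_powersetCard]
    apply Nat.choose_le_choose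
    rw [card_sdiff_of_subset (subset_univ _), card_univ]
    have := card_union_le S S'
    omega
  refine h1.trans (card_le_card_of_injOn (fun W => T ∪ W) ?_ ?_)
  · intro W hW
    rw [mem_coe, mem_powersetCard] at hW
    have hd : Disjoint W (S ∪ S') := by
      rw [disjoint_left]
      intro x hx
      exact (mem_sdiff.1 (hW.1 hx)).2
    have hdT : Disjoint T W := by
      rw [disjoint_left]
      intro x hx hx2
      exact (disjoint_left.1 hd hx2) (mem_union_left _ (hw.2.2.1 hx))
    rw [mem_coe, mem_filter, mem_bad]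
    refine ⟨⟨?_, fun c hc => K_bad F d hG hw W c hd hc⟩, subset_union_left⟩
    rw [card_union_of_disjoint hdT, hw.2.2.2.2.1, hW.2]
    omega
  · intro W hW W' hW' heq
    rw [mem_coe, mem_powersetCard] at hW hW'
    have hd : ∀ V ⊆ univ \ (S ∪ S'), (T ∪ V) \ T = V := by
      intro V hV
      rw [union_sdiff_left]
      apply sdiff_eq_self_of_disjoint
      rw [disjoint_left]
      intro x hx hx2
      exact (mem_sdiff.1 (hV hx)).2 (mem_union_left _ (hw.2.2.1 hx2))
    simp only at heq
    rw [← hd W hW.1, ← hd W' hW'.1, heq]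

end general

end OddCase

open OddCase Classical in
theorem core_odd (d k : ℕ) (hk : 2 * d + 2 ≤ k) : ∃ N, ∀ n ≥ N, ∀ F : Finset (PV (Fin n)),
    (∀ p ∈ F, IsVec k p) → (∀ p ∈ F, ∀ q ∈ F, dotp p q ≠ -((2 * d + 1 : ℕ) : ℤ)) →
    ∃ G : Finset (PV (Fin n)), (∀ p ∈ G, IsVec k p) ∧
      (∀ p ∈ G, ∀ q ∈ G, -((2 * d + 1 : ℕ) : ℤ) < dotp p q) ∧ F.card ≤ G.card := by
  set s := 2 * d + 1 with hs
  set w := k - s with hw
  set f := ∑ j ∈ range (d + 1), k.choose j with hf
  set K0 := 2 ^ w * w.factorial * (2 ^ s * k) * 2 ^ k * (2 ^ k + 1) with hK0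
  refine ⟨K0 + 1 + 2 * (2 * k + w), ?_⟩
  intro n hn F hF hJ
  have hG : Good F s := by
    intro S A S' A' h1 h2 h3 h4
    exact hJ _ h1 _ h2 (dotp_eq_neg h3 h4)
  have hfamsub : ∀ S, ∀ A ∈ fam F S, A ⊆ S := by
    intro S A hA
    exact (hF _ (mem_fam.1 hA)).2
  have hmem : ∀ S A, (S, A) ∈ F → S.card = k := fun S A h => (hF _ h).1
  -- the canonical family
  set G0 : Finset (PV (Fin n)) := ((powersetCard k univ) ×ˢ univ).filter
    (fun p => p.2 ∈ Ball p.1 ∅ d) with hG0
  have hG0mem : ∀ p : PV (Fin n), p ∈ G0 ↔ p.1.card = k ∧ p.2 ⊆ p.1 ∧ p.2.card ≤ d := by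
    intro p
    rw [hG0, mem_filter, mem_product, mem_powersetCard]
    unfold Ball
    rw [mem_filter, mem_powerset]
    simp [symmDiff_def]
  have hG0card : G0.card = f * n.choose k := by
    rw [card_eq_sum_fam G0 (powersetCard k univ)]
    · have : ∀ S ∈ powersetCard k (univ : Finset (Fin n)), (fam G0 S).card = f := by
        intro S hS
        rw [mem_powersetCard] at hS
        have : fam G0 S = Ball S ∅ d := by
          ext A
          rw [mem_fam, hG0, mem_filter, mem_product, mem_powersetCard]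
          simp [hS.2]
        rw [this, card_Ball d S ∅ (empty_subset _), hS.2]
      rw [sum_congr rfl this, sum_const, card_powersetCard, card_univ, Fintype.card_fin,
        smul_eq_mul, mul_comm]
    · intro p hp
      rw [mem_powersetCard]
      exact ⟨subset_univ _, ((hG0mem p).1 hp).1⟩
  by_cases hcard : F.card ≤ f * n.choose k
  · refine ⟨G0, ?_, ?_, by rw [hG0card]; exact hcard⟩
    · intro p hp
      exact ⟨((hG0mem p).1 hp).1, ((hG0mem p).1 hp).2.1⟩
    · intro p hp q hq
      obtain ⟨_, _, hp3⟩ := (hG0mem p).1 hp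
      obtain ⟨_, _, hq3⟩ := (hG0mem q).1 hq
      have h1 : (symmDiff p.2 q.2 ∩ (p.1 ∩ q.1)).card ≤ 2 * d := by
        refine (card_le_card inter_subset_left).trans ?_
        refine (card_le_card (symmDiff_le_sup (a := p.2) (b := q.2))).trans ?_
        refine (card_union_le _ _).trans ?_
        omega
      have h2 : (symmDiff p.2 q.2 ∩ (p.1 ∩ q.1)).card ≤ (p.1 ∩ q.1).card :=
        card_le_card inter_subset_right
      unfold dotp
      omega
  exfalso
  set Sk := powersetCard k (univ : Finset (Fin n)) with hSk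
  set E := Sk.filter (fun S => ∃ T A S' A', Wit F s S T A S' A') with hE
  set Tt := (powersetCard s (univ : Finset (Fin n))).filter
    (fun T => ∃ S A S' A', Wit F s S T A S' A') with hTt
  have hclean : ∀ S ∈ Sk, S ∉ E → (fam F S).card ≤ f ∧
      ((fam F S).card = f → S ∉ bad F k d) := by
    intro S hS hSE
    have hSc : S.card = k := (mem_powersetCard.1 hS).2
    have hdiam : ∀ A ∈ fam F S, ∀ B ∈ fam F S, (symmDiff A B).card ≤ 2 * d := by
      intro A hA B hB
      by_contra hcon
      obtain ⟨T, hT1, hT2⟩ := exists_subset_card_eq (s := symmDiff A B) (n := s) (by omega)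
      apply hSE
      rw [hE, mem_filter]
      have hTS : T ⊆ S := by
        intro x hx
        rcases mem_symmDiff.1 (hT1 hx) with h | h
        · exact hfamsub S A hA h.1
        · exact hfamsub S B hB h.1
      exact ⟨hS, T, A, S, B, mem_fam.1 hA, mem_fam.1 hB, hTS, hTS, hT2, hT1⟩
    constructor
    · have := ke_bound d S (by omega) (fam F S) (hfamsub S) hdiam
      rwa [hSc] at this
    · intro heq hbad
      obtain ⟨c, hc, hc2⟩ := ke_unique d S (by omega) (fam F S) (hfamsub S) hdiam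
        (by rw [hSc]; exact heq)
      exact (mem_bad.1 hbad).2 c hc hc2
  have hsum : F.card + (bad F k d \ E).card ≤ f * n.choose k + 2 ^ k * E.card := by
    have h1 : F.card = ∑ S ∈ Sk, (fam F S).card := card_eq_sum_fam F Sk (fun p hp => by
      rw [hSk, mem_powersetCard]; exact ⟨subset_univ _, (hF p hp).1⟩)
    have h2 : (bad F k d \ E).card = ∑ S ∈ Sk, if S ∈ bad F k d \ E then 1 else 0 := by
      rw [← sum_filter, sum_const, smul_eq_mul, mul_one]
      congr 1
      ext S
      rw [mem_filter, mem_sdiff]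
      constructor
      · intro h
        exact ⟨by rw [hSk, mem_powersetCard]; exact ⟨subset_univ _, (mem_bad.1 h.1).1⟩, h⟩
      · exact fun h => h.2
    have h3 : 2 ^ k * E.card = ∑ S ∈ Sk, if S ∈ E then 2 ^ k else 0 := by
      rw [← sum_filter, sum_const, smul_eq_mul, mul_comm, filter_mem_eq_inter,
        inter_eq_right.2 (filter_subset _ _)]
    have h4 : f * n.choose k = ∑ _S ∈ Sk, f := by
      rw [sum_const, smul_eq_mul, hSk, card_powersetCard, card_univ, Fintype.card_fin, mul_comm]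
    rw [h1, h2, h3, h4, ← sum_add_distrib, ← sum_add_distrib]
    apply sum_le_sum
    intro S hS
    by_cases hSE : S ∈ E
    · rw [if_neg (fun h => (mem_sdiff.1 h).2 hSE), if_pos hSE]
      have : (fam F S).card ≤ 2 ^ k := by
        have h5 : fam F S ⊆ S.powerset := fun A hA => mem_powerset.2 (hfamsub S A hA)
        have h6 := card_le_card h5
        rwa [card_powerset, (mem_powersetCard.1 hS).2] at h6
      omega
    · rw [if_neg hSE]
      obtain ⟨h5, h6⟩ := hclean S hS hSE
      by_cases hb : S ∈ bad F k d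
      · rw [if_pos (mem_sdiff.2 ⟨hb, hSE⟩)]
        have : (fam F S).card ≠ f := fun h => h6 h hb
        omega
      · rw [if_neg (fun h => hb (mem_sdiff.1 h).1)]
        omega
  have hbadE : (bad F k d).card ≤ (2 ^ k + 1) * E.card := by
    have h1 : (bad F k d).card ≤ (bad F k d \ E).card + E.card := by
      have : bad F k d ⊆ (bad F k d \ E) ∪ E := by
        intro x hx
        rw [mem_union, mem_sdiff]
        tauto
      exact (card_le_card this).trans (card_union_le _ _)
    have h2 : (bad F k d \ E).card ≤ 2 ^ k * E.card := by omega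
    calc (bad F k d).card ≤ 2 ^ k * E.card + E.card := by omega
      _ = (2 ^ k + 1) * E.card := by ring
  have hEpos : 0 < E.card := by
    by_contra h0
    have : E.card = 0 := by omega
    rw [this, mul_zero] at hsum
    omega
  have hM : E.card ≤ Tt.card * (2 ^ s * (k * n ^ (w - 1))) := by
    have h1 : E ⊆ Tt.biUnion (fun T => Sk.filter (fun S => ∃ A S' A', Wit F s S T A S' A')) := by
      intro S hS
      obtain ⟨hS1, T, A, S', A', hwit⟩ := mem_filter.1 hS
      rw [mem_biUnion]
      refine ⟨T, ?_, ?_⟩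
      · rw [hTt, mem_filter, mem_powersetCard]
        exact ⟨⟨subset_univ _, hwit.2.2.2.2.1⟩, S, A, S', A', hwit⟩
      · rw [mem_filter]
        exact ⟨hS1, A, S', A', hwit⟩
    refine (card_le_card h1).trans (card_biUnion_le.trans ?_)
    rw [← smul_eq_mul, ← sum_const]
    apply sum_le_sum
    intro T hT
    have := D_bound F k s hF hG T (mem_powersetCard.1 (mem_filter.1 hT).1).2
    rw [Fintype.card_fin] at this
    exact this
  have hC : Tt.card * (n - 2 * k).choose w ≤ (bad F k d).card * 2 ^ k := by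
    have h1 : Tt.card * (n - 2 * k).choose w ≤
        ∑ T ∈ Tt, ((bad F k d).filter (fun R => T ⊆ R)).card := by
      rw [← smul_eq_mul, ← sum_const]
      apply sum_le_sum
      intro T hT
      obtain ⟨_, S, A, S', A', hwit⟩ := mem_filter.1 hT
      have := count_K F k d hF hG hk hwit
      rw [Fintype.card_fin] at this
      exact this
    refine h1.trans ?_
    have h2 : ∑ T ∈ Tt, ((bad F k d).filter (fun R => T ⊆ R)).card =
        ∑ R ∈ bad F k d, (Tt.filter (fun T => T ⊆ R)).card :=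
      sum_card_bipartiteAbove_eq_sum_card_bipartiteBelow (fun (T R : Finset (Fin n)) => T ⊆ R)
    rw [h2, ← smul_eq_mul, ← sum_const]
    apply sum_le_sum
    intro R hR
    have h3 : Tt.filter (fun T => T ⊆ R) ⊆ R.powerset := by
      intro T hT
      exact mem_powerset.2 (mem_filter.1 hT).2
    have h4 := card_le_card h3
    rwa [card_powerset, (mem_bad.1 hR).1] at h4
  -- conclusion
  have hw1 : 1 ≤ w := by omega
  have hpow : n ^ w ≤ 2 ^ w * w.factorial * (n - 2 * k).choose w := by
    have h1 := Nat.pow_sub_le_descFactorial (n - 2 * k) w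
    rw [Nat.descFactorial_eq_factorial_mul_choose] at h1
    have h2 : n ≤ 2 * (n - 2 * k + 1 - w) := by omega
    calc n ^ w ≤ (2 * (n - 2 * k + 1 - w)) ^ w := Nat.pow_le_pow_left h2 w
      _ = 2 ^ w * (n - 2 * k + 1 - w) ^ w := by rw [mul_pow]
      _ ≤ 2 ^ w * (w.factorial * (n - 2 * k).choose w) := Nat.mul_le_mul_left _ h1
      _ = 2 ^ w * w.factorial * (n - 2 * k).choose w := by ring
  have hfin : E.card * n ^ w ≤ E.card * (K0 * n ^ (w - 1)) := by
    calc E.card * n ^ w ≤ E.card * (2 ^ w * w.factorial * (n - 2 * k).choose w) :=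
          Nat.mul_le_mul_left _ hpow
      _ ≤ (Tt.card * (2 ^ s * (k * n ^ (w - 1)))) *
          (2 ^ w * w.factorial * (n - 2 * k).choose w) := Nat.mul_le_mul_right _ hM
      _ = (Tt.card * (n - 2 * k).choose w) *
          ((2 ^ s * (k * n ^ (w - 1))) * (2 ^ w * w.factorial)) := by ring
      _ ≤ ((bad F k d).card * 2 ^ k) *
          ((2 ^ s * (k * n ^ (w - 1))) * (2 ^ w * w.factorial)) := Nat.mul_le_mul_right _ hC
      _ ≤ (((2 ^ k + 1) * E.card) * 2 ^ k) *
          ((2 ^ s * (k * n ^ (w - 1))) * (2 ^ w * w.factorial)) :=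
          Nat.mul_le_mul_right _ (Nat.mul_le_mul_right _ hbadE)
      _ = E.card * (K0 * n ^ (w - 1)) := by rw [hK0]; ring
  have h5 : n ^ w ≤ K0 * n ^ (w - 1) := Nat.le_of_mul_le_mul_left hfin hEpos
  have h6 : n ^ w = n * n ^ (w - 1) := by
    rw [← pow_succ', Nat.sub_add_cancel hw1]
  rw [h6] at h5
  have hn0 : 0 < n := by omega
  have h7 : n ≤ K0 := Nat.le_of_mul_le_mul_right h5 (Nat.pow_pos hn0)
  omega

end Pool.Agent.H.MP_66bcf1_co
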