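import Pool.Agent.H.MP_66bcf1_co.Dirt

/-!
The main estimate: few dirty sets outside `Low`.
-/

namespace Pool.Agent.H.MP_66bcf1_co

open Finset
open scoped Classical

noncomputable section

variable {n : ℕ} {F : Finset (PV (Fin n))} {d k s : ℕ}

/-- counting extensions, two options -/
lemma ext_count2 {Q e w : ℕ} {Y E T T₂ : Finset (Fin n)} {𝒮₁ 𝒮₂ : Finset (Finset (Fin n))}
    (hTE : T ⊆ E) (hTE₂ : T₂ ⊆ E) (hE : E.card ≤ e) (hY : n ≤ Q * Y.card)
    (hn : Q * (2 * e + 4 * w) ≤ n) (hn0 : 0 < n)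
    (h : ∀ W ⊆ Y \ E, W.card = w → T ∪ W ∈ 𝒮₁ ∨ T₂ ∪ W ∈ 𝒮₂) :
    n ^ w ≤ (4 * Q) ^ w * w.factorial *
      ((𝒮₁.filter fun S => T ⊆ S).card + (𝒮₂.filter fun S => T₂ ⊆ S).card) := by
  have hQ : 0 < Q := by
    rcases Nat.eq_zero_or_pos Q with h0 | h0
    · rw [h0] at hY; omega
    · exact h0
  have hYc : 2 * e + 4 * w ≤ Y.card := Nat.le_of_mul_le_mul_left (hn.trans hY) hQ
  have hYE : Y.card ≤ (Y \ E).card + E.card := by
    have := card_le_card (show Y ⊆ (Y \ E) ∪ E by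
      intro x hx; by_cases hxE : x ∈ E <;> simp [hx, hxE])
    exact this.trans (card_union_le _ _)
  have h1 : n ≤ (2 * Q) * (Y \ E).card := by
    have : Y.card ≤ 2 * (Y \ E).card := by omega
    calc n ≤ Q * Y.card := hY
      _ ≤ Q * (2 * (Y \ E).card) := Nat.mul_le_mul_left _ this
      _ = _ := by ring
  have h2 := choose_lower (n := n) (Q := 2 * Q) (y := (Y \ E).card) (w := w) h1 (by omega)
  have h3 : (Y \ E).card.choose w ≤
      (𝒮₁.filter fun S => T ⊆ S).card + (𝒮₂.filter fun S => T₂ ⊆ S).card := by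
    rw [← card_powersetCard]
    have key : ∀ (T' : Finset (Fin n)) (𝒮 : Finset (Finset (Fin n))), T' ⊆ E →
        ((powersetCard w (Y \ E)).filter fun W => T' ∪ W ∈ 𝒮).card ≤
          (𝒮.filter fun S => T' ⊆ S).card := by
      intro T' 𝒮 hT'
      apply card_le_card_of_injOn (fun W => T' ∪ W)
      · intro W hW
        rw [mem_coe, mem_filter] at hW
        rw [mem_coe, mem_filter]
        exact ⟨hW.2, subset_union_left⟩
      · intro W hW W' hW' he
        rw [mem_coe, mem_filter, mem_powersetCard] at hW hW'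
        have e : ∀ V ⊆ Y \ E, (T' ∪ V) \ E = V := by
          intro V hV
          ext x
          simp only [mem_sdiff, mem_union]
          constructor
          · rintro ⟨h | h, h'⟩
            · exact absurd (hT' h) h'
            · exact h
          · intro h; exact ⟨Or.inr h, (mem_sdiff.1 (hV h)).2⟩
        simp only at he
        rw [← e W hW.1.1, ← e W' hW'.1.1, he]
    calc (powersetCard w (Y \ E)).card
        ≤ (((powersetCard w (Y \ E)).filter fun W => T ∪ W ∈ 𝒮₁) ∪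
            ((powersetCard w (Y \ E)).filter fun W => T₂ ∪ W ∈ 𝒮₂)).card := by
          apply card_le_card
          intro W hW
          have hW' := mem_powersetCard.1 hW
          rcases h W hW'.1 hW'.2 with h | h
          · exact mem_union_left _ (mem_filter.2 ⟨hW, h⟩)
          · exact mem_union_right _ (mem_filter.2 ⟨hW, h⟩)
      _ ≤ _ := (card_union_le _ _).trans (Nat.add_le_add (key T 𝒮₁ hTE) (key T₂ 𝒮₂ hTE₂))
  calc n ^ w ≤ (2 * (2 * Q)) ^ w * w.factorial * (Y \ E).card.choose w := h2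
    _ ≤ (2 * (2 * Q)) ^ w * w.factorial * _ := Nat.mul_le_mul_left _ h3
    _ = _ := by ring_nf

/-- counting extensions -/
lemma ext_count {Q e w : ℕ} {Y E T : Finset (Fin n)} {𝒮 : Finset (Finset (Fin n))}
    (hTE : T ⊆ E) (hE : E.card ≤ e) (hY : n ≤ Q * Y.card)
    (hn : Q * (2 * e + 4 * w) ≤ n) (hn0 : 0 < n) (h : ∀ W ⊆ Y \ E, W.card = w → T ∪ W ∈ 𝒮) :
    n ^ w ≤ (4 * Q) ^ w * w.factorial * (𝒮.filter fun S => T ⊆ S).card := by
  have := ext_count2 (𝒮₂ := ∅) hTE hTE hE hY hn hn0 (fun W hW hw => Or.inl (h W hW hw))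
  simpa using this

/-- not wrong means that the centre agrees with the majority centre -/
lemma agree_of_not_wrong {Low S : Finset (Fin n)} (hk : S.card = k) (hL : ¬ S ⊆ Low)
    (hW : S ∉ Wrong F d k Low) {i : Fin n} {c : Finset (Fin n)} (hs : Sp F d S i c) {j : Fin n}
    (hj : j ∈ S) (hjL : j ∈ Low) (hji : j ≠ i) : j ∈ c ↔ j ∈ cL F d k Low := by
  by_contra hcon
  apply hW
  rw [Wrong, mem_biUnion]
  exact ⟨j, hjL, mem_Wj.2 ⟨hk, hL, hj, i, c, hs, hji.symm, hcon⟩⟩

/-- two supports meeting exactly in `T` -/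
lemma inter_eq {T W S : Finset (Fin n)} (hT : T ⊆ S) (hW : Disjoint W S) : (T ∪ W) ∩ S = T := by
  ext x
  simp only [mem_inter, mem_union]
  constructor
  · rintro ⟨h | h, h'⟩
    · exact h
    · exact absurd h' (disjoint_left.1 hW h)
  · intro h; exact ⟨Or.inl h, hT h⟩

/-- the pattern opposite to a member is absent -/
lemma absent (hF : IsJ k s F) {T W : Finset (Fin n)} {p : PV (Fin n)} (hp : p ∈ F)
    (hT : T ⊆ p.1) (hTc : T.card = s) (hW : Disjoint W p.1) {A : Finset (Fin n)}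
    (hA : (T ∪ W, A) ∈ F) : A ∩ T ≠ T \ p.2 := by
  intro he
  refine hF.cross _ hA _ hp (by simp only; rw [inter_eq hT hW, hTc]) ?_
  simp only
  rw [inter_eq hT hW]
  intro x hx
  have : x ∈ A ∩ T ↔ x ∈ T \ p.2 := by rw [he]
  simp only [mem_inter, mem_sdiff] at this
  rw [mem_symmDiff]
  tauto

/-- both patterns of a dead set are absent -/
lemma absent_both (hF : IsJ k s F) {T W S A : Finset (Fin n)} {q : PV (Fin n)} (hS : (S, A) ∈ F)
    (hq : q ∈ F) (hTS : T ⊆ S) (hTq : T ⊆ q.1) (hTA : T ⊆ symmDiff A q.2) (hTc : T.card = s)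
    (hW : Disjoint W (S ∪ q.1)) {A' : Finset (Fin n)} (hA' : (T ∪ W, A') ∈ F) :
    A' ∩ T ≠ A ∩ T ∧ A' ∩ T ≠ T \ (A ∩ T) := by
  have h1 := absent hF hS hTS hTc (hW.mono_right subset_union_left) hA'
  have h2 := absent hF hq hTq hTc (hW.mono_right subset_union_right) hA'
  have e1 : T \ (A ∩ T) = T \ A := by
    ext x; simp only [mem_sdiff, mem_inter]; tauto
  have e2 : T \ q.2 = A ∩ T := by
    ext x
    simp only [mem_sdiff, mem_inter]
    constructor
    · rintro ⟨h, h'⟩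
      have := hTA h
      rw [mem_symmDiff] at this
      tauto
    · rintro ⟨h, h'⟩
      have := hTA h'
      rw [mem_symmDiff] at this
      tauto
  rw [e1]
  rw [e2] at h2
  exact ⟨h2, h1⟩

lemma card_TW {T W E : Finset (Fin n)} (hTE : T ⊆ E) (hW : Disjoint W E) :
    (T ∪ W).card = T.card + W.card :=
  card_union_of_disjoint ((hW.mono_right hTE).symm)

/-! ### vectors inside `Low` with many minority signs -/

/-- vectors inside `Low` at distance at least `d+2` from the centre -/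
def VB (F : Finset (PV (Fin n))) (d k : ℕ) (Low : Finset (Fin n)) : Finset (PV (Fin n)) :=
  F.filter fun p => p.1 ⊆ Low ∧ d + 2 ≤ (symmDiff p.2 (cL F d k Low) ∩ p.1).card

lemma card_VB (hF : IsJ k (2 * d + 2) F) (hk : 2 * d + 3 ≤ k) {Low : Finset (Fin n)}
    (hL : n ≤ 2 * (univ \ Low).card) (hn : 2 * (2 * k + 4 * (k - (2 * d + 2))) ≤ n) (hn0 : 0 < n) :
    (VB F d k Low).card * n ^ (k - (2 * d + 2)) ≤
      (Low.card ^ (k - (2 * d + 2)) * 2 ^ k) * 2 ^ k *
        ((4 * 2) ^ (k - (2 * d + 2)) * (k - (2 * d + 2)).factorial) *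
        (badX F d k Low ∪ Wrong F d k Low).card := by
  set w := k - (2 * d + 2) with hw
  apply gain (VB F d k Low) (fun p T => T ⊆ p.1 ∧ T.card = 2 * d + 2 ∧
    d + 2 ≤ (symmDiff p.2 (cL F d k Low) ∩ T).card)
  · intro p hp
    rw [VB, mem_filter] at hp
    obtain ⟨hpF, hpL, hpd⟩ := hp
    obtain ⟨T₀, hT₀, hT₀c⟩ := exists_subset_card_eq hpd
    have hp1 : p.1.card = k := (hF.vec p hpF).1
    obtain ⟨T, h1, h2, h3⟩ := exists_subsuperset_card_eq (n := 2 * d + 2)
      (hT₀.trans inter_subset_right) (by omega) (by omega)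
    refine ⟨T, h2, h3, ?_⟩
    rw [← hT₀c]
    apply card_le_card
    intro x hx
    exact mem_inter.2 ⟨(mem_inter.1 (hT₀ hx)).1, h1 hx⟩
  · intro T E' hE' hR
    rcases E'.eq_empty_or_nonempty with rfl | ⟨p₀, hp₀⟩
    · simp
    have hTc : T.card = 2 * d + 2 := (hR p₀ hp₀).2.1
    calc E'.card
        ≤ (((KS n k).filter fun S => T ⊆ S ∧ S \ T ⊆ Low).biUnion fun S =>
            S.powerset.image fun A => (S, A)).card := by
          apply card_le_card
          intro p hp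
          have hpV := hE' hp
          rw [VB, mem_filter] at hpV
          obtain ⟨hpF, hpL, -⟩ := hpV
          obtain ⟨hTp, -, -⟩ := hR p hp
          rw [mem_biUnion]
          refine ⟨p.1, ?_, ?_⟩
          · rw [mem_filter, mem_KS]
            exact ⟨(hF.vec p hpF).1, hTp, sdiff_subset.trans hpL⟩
          · rw [mem_image]
            exact ⟨p.2, mem_powerset.2 (hF.vec p hpF).2, rfl⟩
      _ ≤ ∑ S ∈ (KS n k).filter fun S => T ⊆ S ∧ S \ T ⊆ Low,
            (S.powerset.image fun A => (S, A)).card := card_biUnion_le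
      _ ≤ ∑ S ∈ (KS n k).filter fun S => T ⊆ S ∧ S \ T ⊆ Low, 2 ^ k := by
          apply sum_le_sum
          intro S hS
          rw [mem_filter, mem_KS] at hS
          refine card_image_le.trans ?_
          rw [card_powerset, hS.1]
      _ = ((KS n k).filter fun S => T ⊆ S ∧ S \ T ⊆ Low).card * 2 ^ k := by
          rw [sum_const, smul_eq_mul]
      _ ≤ _ := by
          apply Nat.mul_le_mul_right
          have := count_between k T Low
          rwa [hTc] at this
  · rintro p hp T ⟨hTp, hTc, hTd⟩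
    rw [VB, mem_filter] at hp
    obtain ⟨hpF, hpL, -⟩ := hp
    refine ext_count (Q := 2) (e := k) (w := w) (E := p.1) (Y := univ \ Low) hTp
      (hF.vec p hpF).1.le hL hn hn0 ?_
    intro W hW hWc
    have hWd : Disjoint W p.1 := disjoint_left.2 fun x hx => (mem_sdiff.1 (hW hx)).2
    have hWL : ∀ x ∈ W, x ∉ Low := fun x hx => (mem_sdiff.1 (mem_sdiff.1 (hW hx)).1).2
    have hc : (T ∪ W).card = k := by rw [card_TW hTp hWd, hTc, hWc, hw]; omega
    obtain ⟨x₀, hx₀⟩ := card_pos.1 (by omega : 0 < W.card)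
    have hnL : ¬ (T ∪ W) ⊆ Low := fun h => hWL x₀ hx₀ (h (mem_union_right _ hx₀))
    by_contra hcon
    rw [mem_union, not_or] at hcon
    obtain ⟨hb, hwr⟩ := hcon
    have hg : Good F d (T ∪ W) := by
      by_contra hg; exact hb (mem_badX.2 ⟨⟨hc, hg⟩, hnL⟩)
    obtain ⟨i, c', hs⟩ := hg
    obtain ⟨A, hA, hAT⟩ := hs.extend (T := T) (σ := T \ p.2) subset_union_left sdiff_subset (by
      have hsub : (symmDiff (T \ p.2) c' ∩ T).erase i ⊆ T \ (symmDiff p.2 (cL F d k Low) ∩ T) := by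
        intro x hx
        rw [mem_erase, mem_inter, mem_symmDiff, mem_sdiff] at hx
        obtain ⟨hxi, hx, hxT⟩ := hx
        have hag := agree_of_not_wrong hc hnL hwr hs (mem_union_left _ hxT) (hpL (hTp hxT)) hxi
        rw [mem_sdiff, mem_inter, mem_symmDiff]
        tauto
      have h1 := card_le_card hsub
      rw [card_sdiff_of_subset inter_subset_right, hTc] at h1
      omega)
    exact absent hF hpF hTp hTc hWd hA hAT
  · intro S hS
    rw [mem_union] at hS
    rcases hS with hS | hS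
    · exact (mem_badX.1 hS).1.1
    · rw [Wrong, mem_biUnion] at hS
      obtain ⟨j, _, hj⟩ := hS
      exact (mem_Wj.1 hj).1

/-! ### dirty sets -/

/-- dirty `k`-sets not inside `Low` -/
def dirtyX (F : Finset (PV (Fin n))) (d k : ℕ) (Low : Finset (Fin n)) :
    Finset (Finset (Fin n)) :=
  (dirtyS F (2 * d + 2) k).filter fun S => ¬ S ⊆ Low

lemma mem_dirtyX {Low S : Finset (Fin n)} :
    S ∈ dirtyX F d k Low ↔ (S.card = k ∧ Dirty F (2 * d + 2) S) ∧ ¬ S ⊆ Low := by
  rw [dirtyX, mem_filter, dirtyS, mem_filter, mem_KS]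

lemma card_of_mem_union {Low Low' : Finset (Fin n)} {M : ℕ} {S : Finset (Fin n)}
    (hS : S ∈ badX F d k Low ∪ Mins F d k M Low ∪ Wrong F d k Low') : S.card = k := by
  rw [mem_union, mem_union] at hS
  rcases hS with (hS | hS) | hS
  · exact (mem_badX.1 hS).1.1
  · exact (mem_Mins.1 hS).1
  · rw [Wrong, mem_biUnion] at hS
    obtain ⟨j, _, hj⟩ := hS
    exact (mem_Wj.1 hj).1

/-- dead sets not inside `Low'` -/
lemma card_E1 (hF : IsJ k (2 * d + 2) F) (hk : 2 * d + 3 ≤ k) {Low Low' : Finset (Fin n)} {M' : ℕ}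
    (hM : ∀ x ∉ Low', n ≤ 2 * M' * (Ys F d k M' x).card)
    (hn : 2 * M' * (2 * (2 * k) + 4 * (k - (2 * d + 2))) ≤ n) (hn0 : 0 < n)
    {E : Finset (Finset (Fin n))} (hE : E ⊆ dirtyX F d k Low)
    (hE1 : ∀ S ∈ E, ∃ T, Wit F (2 * d + 2) S T ∧ ¬ T ⊆ Low') :
    E.card * n ^ (k - (2 * d + 2)) ≤
      (2 ^ (2 * d + 2) * (k * n ^ (k - (2 * d + 2) - 1))) * 2 ^ k *
        ((4 * (2 * M')) ^ (k - (2 * d + 2)) * (k - (2 * d + 2)).factorial) *
        (badX F d k Low' ∪ Mins F d k M' Low').card := by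
  set w := k - (2 * d + 2) with hw
  apply gain E (fun S T => Wit F (2 * d + 2) S T ∧ ¬ T ⊆ Low') _ k _ _ _ hE1
  · intro T E' hE' hR
    refine le_trans (card_le_card ?_) (card_wit hF T)
    intro S hS
    rw [mem_filter, mem_KS]
    exact ⟨(mem_dirtyX.1 (hE (hE' hS))).1.1, (hR S hS).1⟩
  · rintro S hSE T ⟨⟨hTS, hTc, A, hA, q, hq, hTq, hTA⟩, hTL⟩
    obtain ⟨x, hxT, hxL⟩ := not_subset.1 hTL
    have hSc : S.card = k := (hF.vec _ hA).1
    have hqc : q.1.card = k := (hF.vec _ hq).1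
    refine ext_count (Q := 2 * M') (e := 2 * k) (w := w) (E := S ∪ q.1) (Y := Ys F d k M' x)
      (hTS.trans subset_union_left)
      ((card_union_le _ _).trans (by omega)) (hM x hxL) hn hn0 ?_
    intro W hW hWc
    have hWd : Disjoint W (S ∪ q.1) := disjoint_left.2 fun z hz => (mem_sdiff.1 (hW hz)).2
    have hc : (T ∪ W).card = k := by
      rw [card_TW (hTS.trans subset_union_left) hWd, hTc, hWc, hw]; omega
    rw [mem_union]
    by_cases hg : Good F d (T ∪ W)
    · right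
      obtain ⟨i, c, hs⟩ := hg
      have hP := P1 hs subset_union_left hTc inter_subset_right
        (τ := A ∩ T) fun A' hA' => absent_both hF hA hq hTS hTq hTA hTc hWd hA'
      have hiW : i ∈ W := by
        rcases mem_union.1 hs.2.1 with h | h
        · exact absurd h hP.1
        · exact h
      exact mem_Mins.2 ⟨hc, x, mem_union_left _ hxT, hxL, i, (mem_sdiff.1 (hW hiW)).1, c, hs⟩
    · left
      exact mem_badX.2 ⟨⟨hc, hg⟩, fun h => hxL (h (mem_union_left _ hxT))⟩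
  · intro S hS
    exact card_of_mem_union (Low' := Low') (mem_union_left _ hS)

/-- unbalanced dead sets inside `Low` -/
lemma card_E2 (hF : IsJ k (2 * d + 2) F) (hk : 2 * d + 3 ≤ k) {Low : Finset (Fin n)}
    (hL : n ≤ 2 * (univ \ Low).card)
    (hn : 2 * (2 * (2 * k) + 4 * (k - (2 * d + 2))) ≤ n) (hn0 : 0 < n)
    {E : Finset (Finset (Fin n))} (hE : E ⊆ dirtyX F d k Low)
    (hE1 : ∀ S ∈ E, ∃ T, T ⊆ Low ∧ T ⊆ S ∧ T.card = 2 * d + 2 ∧ ∃ A, (S, A) ∈ F ∧
      (∃ q ∈ F, T ⊆ q.1 ∧ T ⊆ symmDiff A q.2) ∧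
      (symmDiff A (cL F d k Low) ∩ T).card ≠ d + 1) :
    E.card * n ^ (k - (2 * d + 2)) ≤
      (2 ^ (2 * d + 2) * (k * n ^ (k - (2 * d + 2) - 1))) * 2 ^ k *
        ((4 * 2) ^ (k - (2 * d + 2)) * (k - (2 * d + 2)).factorial) *
        (badX F d k Low ∪ Wrong F d k Low).card := by
  set w := k - (2 * d + 2) with hw
  apply gain E (fun S T => T ⊆ Low ∧ T ⊆ S ∧ T.card = 2 * d + 2 ∧ ∃ A, (S, A) ∈ F ∧
      (∃ q ∈ F, T ⊆ q.1 ∧ T ⊆ symmDiff A q.2) ∧
      (symmDiff A (cL F d k Low) ∩ T).card ≠ d + 1) _ k _ _ _ hE1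
  · intro T E' hE' hR
    refine le_trans (card_le_card ?_) (card_wit hF T)
    intro S hS
    rw [mem_filter, mem_KS]
    obtain ⟨-, h1, h2, A, h3, h4, -⟩ := hR S hS
    exact ⟨(mem_dirtyX.1 (hE (hE' hS))).1.1, h1, h2, A, h3, h4⟩
  · rintro S hSE T ⟨hTL, hTS, hTc, A, hA, ⟨q, hq, hTq, hTA⟩, hbal⟩
    have hSc : S.card = k := (hF.vec _ hA).1
    have hqc : q.1.card = k := (hF.vec _ hq).1
    refine ext_count (Q := 2) (e := 2 * k) (w := w) (E := S ∪ q.1) (Y := univ \ Low)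
      (hTS.trans subset_union_left)
      ((card_union_le _ _).trans (by omega)) hL hn hn0 ?_
    intro W hW hWc
    have hWd : Disjoint W (S ∪ q.1) := disjoint_left.2 fun z hz => (mem_sdiff.1 (hW hz)).2
    have hWL : ∀ x ∈ W, x ∉ Low := fun x hx => (mem_sdiff.1 (mem_sdiff.1 (hW hx)).1).2
    have hc : (T ∪ W).card = k := by
      rw [card_TW (hTS.trans subset_union_left) hWd, hTc, hWc, hw]; omega
    obtain ⟨x₀, hx₀⟩ := card_pos.1 (by omega : 0 < W.card)
    have hnL : ¬ (T ∪ W) ⊆ Low := fun h => hWL x₀ hx₀ (h (mem_union_right _ hx₀))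
    by_contra hcon
    rw [mem_union, not_or] at hcon
    obtain ⟨hb, hwr⟩ := hcon
    have hg : Good F d (T ∪ W) := by
      by_contra hg; exact hb (mem_badX.2 ⟨⟨hc, hg⟩, hnL⟩)
    obtain ⟨i, c, hs⟩ := hg
    have hP := P1 hs subset_union_left hTc inter_subset_right
      (τ := A ∩ T) fun A' hA' => absent_both hF hA hq hTS hTq hTA hTc hWd hA'
    apply hbal
    rw [← hP.2]
    congr 1
    ext x
    simp only [mem_inter, mem_symmDiff]
    constructor
    · rintro ⟨h, hxT⟩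
      have hxi : x ≠ i := fun h => hP.1 (h ▸ hxT)
      have := agree_of_not_wrong hc hnL hwr hs (mem_union_left _ hxT) (hTL hxT) hxi
      tauto
    · rintro ⟨h, hxT⟩
      have hxi : x ≠ i := fun h => hP.1 (h ▸ hxT)
      have := agree_of_not_wrong hc hnL hwr hs (mem_union_left _ hxT) (hTL hxT) hxi
      tauto
  · intro S hS
    rw [mem_union] at hS
    rcases hS with hS | hS
    · exact (mem_badX.1 hS).1.1
    · rw [Wrong, mem_biUnion] at hS
      obtain ⟨j, _, hj⟩ := hS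
      exact (mem_Wj.1 hj).1

/-- the two possibilities for a balanced dead set inside `Low'` -/
lemma E3_count (hF : IsJ k (2 * d + 2) F) (hk : 2 * d + 3 ≤ k) {Low Low' : Finset (Fin n)} {M : ℕ}
    (hLL : Low' ⊆ Low)
    (hM : ∀ x ∉ Low, n ≤ 4 * M * (Ys F d k M x \ Low').card)
    (hn : 4 * M * (2 * (2 * k) + 4 * (k - (2 * d + 2))) ≤ n) (hn0 : 0 < n)
    {S T A : Finset (Fin n)} (hSL : ¬ S ⊆ Low) (hTL : T ⊆ Low') (hTS : T ⊆ S)
    (hTc : T.card = 2 * d + 2) (hA : (S, A) ∈ F) {q : PV (Fin n)} (hq : q ∈ F) (hTq : T ⊆ q.1)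
    (hTA : T ⊆ symmDiff A q.2) (hbal : (symmDiff A (cL F d k Low) ∩ T).card = d + 1) :
    ∃ T₂ ⊆ S, T₂.card = 2 * d + 2 ∧ (∃ t ∈ Low', t ∉ T₂ ∧ t ∈ S) ∧
    n ^ (k - (2 * d + 2)) ≤ (4 * (4 * M)) ^ (k - (2 * d + 2)) * (k - (2 * d + 2)).factorial *
      (((badX F d k Low').filter fun S => T ⊆ S).card +
        ((badX F d k Low ∪ Mins F d k M Low ∪ Wrong F d k Low).filter fun S => T₂ ⊆ S).card) := by
  set w := k - (2 * d + 2) with hw
  obtain ⟨x, hxS, hxL⟩ := not_subset.1 hSL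
  have hxT : x ∉ T := fun h => hxL (hLL (hTL h))
  have hSc : S.card = k := (hF.vec _ hA).1
  have hqc : q.1.card = k := (hF.vec _ hq).1
  -- `t`
  have hex : ∃ t ∈ T, t ∉ symmDiff A (cL F d k Low) := by
    by_contra hcon
    push Not at hcon
    have : symmDiff A (cL F d k Low) ∩ T = T := inter_eq_right.2 hcon
    rw [this, hTc] at hbal
    omega
  obtain ⟨t, htT, htA⟩ := hex
  have htx : t ≠ x := fun h => hxT (h ▸ htT)
  set T₂ := insert x (T.erase t) with hT₂
  have hT₂S : T₂ ⊆ S := insert_subset hxS ((erase_subset _ _).trans hTS)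
  have hT₂c : T₂.card = 2 * d + 2 := by
    rw [hT₂, card_insert_of_notMem (fun h => hxT (mem_of_mem_erase h)), card_erase_of_mem htT, hTc]
    omega
  have htT₂ : t ∉ T₂ := by
    rw [hT₂, mem_insert, not_or]
    exact ⟨htx, notMem_erase _ _⟩
  refine ⟨T₂, hT₂S, hT₂c, ⟨t, hTL htT, htT₂, hTS htT⟩, ?_⟩
  refine ext_count2 (Q := 4 * M) (e := 2 * k) (w := w) (E := S ∪ q.1) (Y := Ys F d k M x \ Low')
    (hTS.trans subset_union_left) (hT₂S.trans subset_union_left)
    ((card_union_le _ _).trans (by omega)) (hM x hxL) hn hn0 ?_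
  intro W hW hWc
  have hWd : Disjoint W (S ∪ q.1) := disjoint_left.2 fun z hz => (mem_sdiff.1 (hW hz)).2
  have hWdS : Disjoint W S := hWd.mono_right subset_union_left
  have hWY : ∀ z ∈ W, z ∈ Ys F d k M x := fun z hz =>
    (mem_sdiff.1 (mem_sdiff.1 (hW hz)).1).1
  have hWL : ∀ z ∈ W, z ∉ Low' := fun z hz => (mem_sdiff.1 (mem_sdiff.1 (hW hz)).1).2
  have hc : (T ∪ W).card = k := by
    rw [card_TW (hTS.trans subset_union_left) hWd, hTc, hWc, hw]; omega
  have hc₂ : (T₂ ∪ W).card = k := by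
    rw [card_TW hT₂S hWdS, hT₂c, hWc, hw]; omega
  obtain ⟨x₀, hx₀⟩ := card_pos.1 (by omega : 0 < W.card)
  have hnL : ¬ (T ∪ W) ⊆ Low' := fun h => hWL x₀ hx₀ (h (mem_union_right _ hx₀))
  have hxT₂ : x ∈ T₂ := mem_insert_self _ _
  have hnL₂ : ¬ (T₂ ∪ W) ⊆ Low := fun h => hxL (h (mem_union_left _ hxT₂))
  by_cases hg : Good F d (T ∪ W)
  swap
  · left; exact mem_badX.2 ⟨⟨hc, hg⟩, hnL⟩
  right
  obtain ⟨y, c₁, hs⟩ := hg
  have hP := P1 hs subset_union_left hTc inter_subset_right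
    (τ := A ∩ T) fun A' hA' => absent_both hF hA hq hTS hTq hTA hTc hWd hA'
  have hyW : y ∈ W := by
    rcases mem_union.1 hs.2.1 with h | h
    · exact absurd h hP.1
    · exact h
  by_contra hcon
  rw [mem_union, mem_union, not_or, not_or] at hcon
  obtain ⟨⟨hb, hmin⟩, hwr⟩ := hcon
  have hg₂ : Good F d (T₂ ∪ W) := by
    by_contra hg; exact hb (mem_badX.2 ⟨⟨hc₂, hg⟩, hnL₂⟩)
  obtain ⟨i₂, c₂, hs₂⟩ := hg₂
  have hi₂ : i₂ = x := by
    by_cases h : i₂ ∈ T ∪ W
    · exfalso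
      have hint : 2 * d + 2 ≤ ((T ∪ W) ∩ (T₂ ∪ W)).card := by
        have hsub : T.erase t ∪ W ⊆ (T ∪ W) ∩ (T₂ ∪ W) := by
          intro z hz
          rcases mem_union.1 hz with hz | hz
          · exact mem_inter.2 ⟨mem_union_left _ (mem_of_mem_erase hz),
              mem_union_left _ (mem_insert_of_mem hz)⟩
          · exact mem_inter.2 ⟨mem_union_right _ hz, mem_union_right _ hz⟩
        refine le_trans ?_ (card_le_card hsub)
        rw [card_TW ((erase_subset _ _).trans hTS) hWdS, card_erase_of_mem htT, hTc, hWc]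
        omega
      have he := R1 hs hs₂ hint (mem_union_right _ hyW) h
      exact hmin (mem_Mins.2 ⟨hc₂, x, mem_union_left _ hxT₂, hxL, y, hWY y hyW, c₂, he ▸ hs₂⟩)
    · rcases mem_union.1 hs₂.2.1 with h' | h'
      · rw [hT₂, mem_insert] at h'
        rcases h' with h' | h'
        · exact h'
        · exact absurd (mem_union_left _ (mem_of_mem_erase h')) h
      · exact absurd (mem_union_right _ h') h
  subst hi₂
  obtain ⟨A₂, hA₂, hAT₂⟩ := hs₂.extend (T := T₂) (σ := T₂ \ A) subset_union_left sdiff_subset (by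
    have hsub : (symmDiff (T₂ \ A) c₂ ∩ T₂).erase i₂ ⊆
        (T.erase t) \ (symmDiff A (cL F d k Low) ∩ T) := by
      intro z hz
      rw [mem_erase, mem_inter, mem_symmDiff, mem_sdiff] at hz
      obtain ⟨hzi, hz, hzT₂⟩ := hz
      have hzT : z ∈ T.erase t := by
        rcases mem_insert.1 hzT₂ with h | h
        · exact absurd h hzi
        · exact h
      have hag := agree_of_not_wrong hc₂ hnL₂ hwr hs₂ (mem_union_left _ hzT₂)
        (hLL (hTL (mem_of_mem_erase hzT))) hzi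
      rw [mem_sdiff, mem_inter, mem_symmDiff]
      refine ⟨hzT, ?_⟩
      tauto
    have h1 := card_le_card hsub
    have hsub2 : symmDiff A (cL F d k Low) ∩ T ⊆ T.erase t := by
      intro z hz
      rw [mem_erase]
      exact ⟨fun h => htA (h ▸ (mem_inter.1 hz).1), (mem_inter.1 hz).2⟩
    rw [card_sdiff_of_subset hsub2, card_erase_of_mem htT, hTc, hbal] at h1
    omega)
  exact absent hF hA hT₂S hT₂c hWdS hA₂ hAT₂

end

end Pool.Agent.H.MP_66bcf1_co
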