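import Pool.Agent.H.MP_66bcf1_co.Step

/-!
The step lemma: if the number of bad sets does not jump between two scales then there are few
dirty sets outside `Low`.
-/

namespace Pool.Agent.H.MP_66bcf1_co

open Finset
open scoped Classical

noncomputable section

variable {n : ℕ} {F : Finset (PV (Fin n))} {d k : ℕ}

/-- first part of the balanced case -/
lemma card_E3a (hF : IsJ k (2 * d + 2) F) {Low Low' : Finset (Fin n)}
    {E : Finset (Finset (Fin n))} (hE : E ⊆ dirtyX F d k Low) {N Mw : ℕ}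
    (hE1 : ∀ S ∈ E, ∃ T, Wit F (2 * d + 2) S T ∧
      N ≤ Mw * ((badX F d k Low').filter fun S => T ⊆ S).card) :
    E.card * N ≤ (2 ^ (2 * d + 2) * (k * n ^ (k - (2 * d + 2) - 1))) * 2 ^ k * Mw *
        (badX F d k Low').card := by
  apply gain E (fun S T => Wit F (2 * d + 2) S T ∧
      N ≤ Mw * ((badX F d k Low').filter fun S => T ⊆ S).card) _ k _ _ _ hE1
  · intro T E' hE' hR
    refine le_trans (card_le_card ?_) (card_wit hF T)
    intro S hS
    rw [mem_filter, mem_KS]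
    exact ⟨(mem_dirtyX.1 (hE (hE' hS))).1.1, (hR S hS).1⟩
  · rintro S _ T ⟨_, h⟩
    exact h
  · intro S hS
    exact (mem_badX.1 hS).1.1

/-- second part of the balanced case -/
lemma card_E3b {Low Low' : Finset (Fin n)}
    {E : Finset (Finset (Fin n))} (hE : E ⊆ dirtyX F d k Low) {N Mw : ℕ}
    {𝒮 : Finset (Finset (Fin n))} (h𝒮 : ∀ S ∈ 𝒮, S.card = k)
    (hE1 : ∀ S ∈ E, ∃ T₂, (T₂ ⊆ S ∧ T₂.card = 2 * d + 2 ∧ ∃ t ∈ Low', t ∉ T₂ ∧ t ∈ S) ∧
      N ≤ Mw * (𝒮.filter fun S => T₂ ⊆ S).card) :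
    E.card * N ≤ (Low'.card * n ^ (k - (2 * d + 2) - 1)) * 2 ^ k * Mw * 𝒮.card := by
  apply gain E (fun S T₂ => (T₂ ⊆ S ∧ T₂.card = 2 * d + 2 ∧ ∃ t ∈ Low', t ∉ T₂ ∧ t ∈ S) ∧
      N ≤ Mw * (𝒮.filter fun S => T₂ ⊆ S).card) _ k _ _ _ hE1
  · intro T E' hE' hR
    rcases E'.eq_empty_or_nonempty with rfl | ⟨S₀, hS₀⟩
    · simp
    have hTc := (hR S₀ hS₀).1.2.1
    have h := count_meet k T Low'
    rw [hTc] at h
    refine le_trans (card_le_card ?_) h
    intro S hS
    rw [mem_filter, mem_KS]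
    exact ⟨(mem_dirtyX.1 (hE (hE' hS))).1.1, (hR S hS).1.1, (hR S hS).1.2.2⟩
  · rintro S _ T ⟨_, h⟩
    exact h
  · exact h𝒮

/-- combination of all cases -/
lemma dirty_split (hF : IsJ k (2 * d + 2) F) (hk : 2 * d + 3 ≤ k) {Low Low' : Finset (Fin n)}
    {M M' : ℕ} (hLL : Low' ⊆ Low)
    (hL : n ≤ 2 * (univ \ Low).card)
    (hM' : ∀ x ∉ Low', n ≤ 2 * M' * (Ys F d k M' x).card)
    (hM : ∀ x ∉ Low, n ≤ 4 * M * (Ys F d k M x \ Low').card)
    (hn1 : 2 * M' * (2 * (2 * k) + 4 * (k - (2 * d + 2))) ≤ n)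
    (hn2 : 2 * (2 * (2 * k) + 4 * (k - (2 * d + 2))) ≤ n)
    (hn3 : 4 * M * (2 * (2 * k) + 4 * (k - (2 * d + 2))) ≤ n) (hn0 : 0 < n) :
    ∃ e₁ e₂ e₃ e₄ : ℕ, (dirtyX F d k Low).card ≤ e₁ + e₂ + e₃ + e₄ ∧
    e₁ * n ^ (k - (2 * d + 2)) ≤
      (2 ^ (2 * d + 2) * (k * n ^ (k - (2 * d + 2) - 1))) * 2 ^ k *
        ((4 * (2 * M')) ^ (k - (2 * d + 2)) * (k - (2 * d + 2)).factorial) *
        (badX F d k Low' ∪ Mins F d k M' Low').card ∧
    e₂ * n ^ (k - (2 * d + 2)) ≤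
      (2 ^ (2 * d + 2) * (k * n ^ (k - (2 * d + 2) - 1))) * 2 ^ k *
        ((4 * 2) ^ (k - (2 * d + 2)) * (k - (2 * d + 2)).factorial) *
        (badX F d k Low ∪ Wrong F d k Low).card ∧
    e₃ * n ^ (k - (2 * d + 2)) ≤
      (2 ^ (2 * d + 2) * (k * n ^ (k - (2 * d + 2) - 1))) * 2 ^ k *
        (2 * ((4 * (4 * M)) ^ (k - (2 * d + 2)) * (k - (2 * d + 2)).factorial)) *
        (badX F d k Low').card ∧
    e₄ * n ^ (k - (2 * d + 2)) ≤ (Low'.card * n ^ (k - (2 * d + 2) - 1)) * 2 ^ k *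
        (2 * ((4 * (4 * M)) ^ (k - (2 * d + 2)) * (k - (2 * d + 2)).factorial)) *
        (badX F d k Low ∪ Mins F d k M Low ∪ Wrong F d k Low).card := by
  set w := k - (2 * d + 2) with hw
  set Mw := (4 * (4 * M)) ^ w * w.factorial with hMw
  set E₁ := (dirtyX F d k Low).filter fun S => ∃ T, Wit F (2 * d + 2) S T ∧ ¬ T ⊆ Low' with hE₁
  set E₂ := (dirtyX F d k Low).filter fun S => ∃ T, T ⊆ Low ∧ T ⊆ S ∧ T.card = 2 * d + 2 ∧
    ∃ A, (S, A) ∈ F ∧ (∃ q ∈ F, T ⊆ q.1 ∧ T ⊆ symmDiff A q.2) ∧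
      (symmDiff A (cL F d k Low) ∩ T).card ≠ d + 1 with hE₂
  set E₃ := (dirtyX F d k Low).filter fun S => ∃ T, Wit F (2 * d + 2) S T ∧
      n ^ w ≤ (2 * Mw) * ((badX F d k Low').filter fun S => T ⊆ S).card with hE₃
  set E₄ := (dirtyX F d k Low).filter fun S => ∃ T₂, (T₂ ⊆ S ∧ T₂.card = 2 * d + 2 ∧
    ∃ t ∈ Low', t ∉ T₂ ∧ t ∈ S) ∧ n ^ w ≤ (2 * Mw) *
      ((badX F d k Low ∪ Mins F d k M Low ∪ Wrong F d k Low).filter fun S => T₂ ⊆ S).card with hE₄
  refine ⟨E₁.card, E₂.card, E₃.card, E₄.card, ?_, ?_, ?_, ?_, ?_⟩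
  · have hsub : dirtyX F d k Low ⊆ E₁ ∪ E₂ ∪ E₃ ∪ E₄ := by
      intro S hS
      obtain ⟨⟨hSk, T, hT⟩, hSL⟩ := mem_dirtyX.1 hS
      by_cases hTL : T ⊆ Low'
      swap
      · exact mem_union_left _ (mem_union_left _ (mem_union_left _
          (mem_filter.2 ⟨hS, T, hT, hTL⟩)))
      obtain ⟨hTS, hTc, A, hA, q, hq, hTq, hTA⟩ := hT
      by_cases hbal : (symmDiff A (cL F d k Low) ∩ T).card = d + 1
      swap
      · exact mem_union_left _ (mem_union_left _ (mem_union_right _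
          (mem_filter.2 ⟨hS, T, hTL.trans hLL, hTS, hTc, A, hA, ⟨q, hq, hTq, hTA⟩, hbal⟩)))
      obtain ⟨T₂, h1, h2, h3, h4⟩ := E3_count hF hk hLL hM hn3 hn0 hSL hTL hTS hTc hA hq hTq hTA
        hbal
      rw [← hw, ← hMw] at h4
      set a := ((badX F d k Low').filter fun S => T ⊆ S).card with ha
      set b := ((badX F d k Low ∪ Mins F d k M Low ∪ Wrong F d k Low).filter
        fun S => T₂ ⊆ S).card with hb
      rcases Nat.le_total b a with hab | hab
      · refine mem_union_left _ (mem_union_right _ (mem_filter.2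
          ⟨hS, T, ⟨hTS, hTc, A, hA, q, hq, hTq, hTA⟩, ?_⟩))
        rw [← ha]
        calc n ^ w ≤ Mw * (a + b) := h4
          _ ≤ Mw * (a + a) := Nat.mul_le_mul_left _ (by omega)
          _ = _ := by ring
      · refine mem_union_right _ (mem_filter.2 ⟨hS, T₂, ⟨h1, h2, h3⟩, ?_⟩)
        rw [← hb]
        calc n ^ w ≤ Mw * (a + b) := h4
          _ ≤ Mw * (b + b) := Nat.mul_le_mul_left _ (by omega)
          _ = _ := by ring
    refine (card_le_card hsub).trans ?_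
    refine (card_union_le _ _).trans (Nat.add_le_add_right ?_ _)
    refine (card_union_le _ _).trans (Nat.add_le_add_right ?_ _)
    exact card_union_le _ _
  · exact card_E1 hF hk hM' hn1 hn0 (filter_subset _ _) fun S hS => (mem_filter.1 hS).2
  · exact card_E2 hF hk hL hn2 hn0 (filter_subset _ _) fun S hS => (mem_filter.1 hS).2
  · exact card_E3a hF (filter_subset _ _) fun S hS => (mem_filter.1 hS).2
  · exact card_E3b (filter_subset _ _) (fun S hS => card_of_mem_union hS)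
      fun S hS => (mem_filter.1 hS).2

/-- the general assumptions on `F` -/
structure Big (F : Finset (PV (Fin n))) (d k f : ℕ) : Prop where
  isJ : IsJ k (2 * d + 2) F
  klei : Klei F d k f
  big : f * (KS n k).card ≤ F.card

/-- the constant in the bound for the number of bad sets -/
def cBad (d k : ℕ) : ℕ := (2 ^ k + 1) * (2 ^ (2 * d + 2) * k)

lemma Big.card_bad {f : ℕ} (h : Big F d k f) (hk : 2 * d + 3 ≤ k) :
    (badS F d k).card ≤ cBad d k * n ^ (k - 1) := by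
  have h1 := card_badS h.isJ.vec h.klei h.big
  have h2 := card_dirtyS h.isJ
  have e : n ^ (k - 1) = n ^ (2 * d + 2) * n ^ (k - (2 * d + 2) - 1) := by
    rw [← pow_add]; congr 1; omega
  calc (badS F d k).card ≤ (2 ^ k + 1) * (dirtyS F (2 * d + 2) k).card := h1
    _ ≤ (2 ^ k + 1) * (n ^ (2 * d + 2) * (2 ^ (2 * d + 2) * (k * n ^ (k - (2 * d + 2) - 1)))) :=
        Nat.mul_le_mul_left _ h2
    _ = _ := by rw [e, cBad]; ring

/-- facts about `Low` -/
structure LowOK (F : Finset (PV (Fin n))) (d k L : ℕ) : Prop where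
  small : L * (LowS F d k (thr k L)).card ≤ n
  half : n ≤ 2 * (univ \ LowS F d k (thr k L)).card
  ys : ∀ x ∉ LowS F d k (thr k L), n ≤ 2 * thr k L * (Ys F d k (thr k L) x).card
  mins : (Mins F d k (thr k L) (LowS F d k (thr k L))).card ≤
    4 * thr k L * 2 ^ k * (k * k) * (badX F d k (LowS F d k (thr k L))).card
  wrong : (Wrong F d k (LowS F d k (thr k L))).card ≤
    8 * (4 ^ (k - 1) * (k - 1).factorial) * 2 ^ k * k * (badX F d k (LowS F d k (thr k L))).card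

lemma lowOK (hk : 2 * d + 3 ≤ k) {L : ℕ} (hL : 2 ≤ L) : ∃ N, ∀ n ≥ N,
    ∀ F : Finset (PV (Fin n)), ∀ f, Big F d k f → LowOK F d k L := by
  refine ⟨thr k L * cBad d k + 1 + 2 * k * L + 4 * thr k L * k +
    8 * (4 ^ (k - 1) * (k - 1).factorial) * k + 4 * k, ?_⟩
  intro n hn F f hB
  have hn0 : 0 < n := by omega
  have hsmall := card_LowS (F := F) (d := d) (k := k) (L := L) (by omega) (hB.card_bad hk)
    (by omega) (by omega)
  set Low := LowS F d k (thr k L) with hLow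
  have hcard : (univ \ Low).card = n - Low.card := by
    rw [card_sdiff_of_subset (subset_univ _)]; simp
  have hle : Low.card ≤ n := by
    have := card_le_univ Low; simpa using this
  have h2 : 2 * Low.card ≤ n := (Nat.mul_le_mul_right _ hL).trans hsmall
  have hhalf : n ≤ 2 * (univ \ Low).card := by rw [hcard]; omega
  have hys : ∀ x ∉ Low, n ≤ 2 * thr k L * (Ys F d k (thr k L) x).card := by
    intro x hx
    apply card_Ys (by omega) hn0
    rw [hLow, mem_LowS] at hx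
    omega
  have hC0 : n ^ (k - 1) ≤ (4 ^ (k - 1) * (k - 1).factorial) * (univ \ Low).card.choose (k - 1) := by
    have := choose_lower (n := n) (Q := 2) (y := (univ \ Low).card) (w := k - 1) hhalf (by omega)
    simpa using this
  have hthr : 4 * (4 ^ (k - 1) * (k - 1).factorial) ≤ thr k L := by
    have e1 : (4 : ℕ) * (4 ^ (k - 1) * (k - 1).factorial) = 4 ^ k * (k - 1).factorial := by
      rw [← mul_assoc, ← pow_succ']; congr 2; omega
    rw [e1, thr]
    have e2 : (4 : ℕ) ^ k ≤ (2 * L) ^ k := Nat.pow_le_pow_left (by omega) k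
    have e3 : (k - 1).factorial ≤ k.factorial := Nat.factorial_le (by omega)
    calc 4 ^ k * (k - 1).factorial ≤ (2 * L) ^ k * k.factorial := Nat.mul_le_mul e2 e3
      _ ≤ _ := by omega
  refine ⟨hsmall, hhalf, hys, card_Mins hk (by omega) hn0, ?_⟩
  refine card_Wrong hk hC0 (by omega) hn0 ?_
  intro j hj
  rw [mem_LowS] at hj
  exact (Nat.mul_le_mul_right _ hthr).trans hj.le

lemma thr_mono {L L' : ℕ} (h : L ≤ L') : thr k L ≤ thr k L' := by
  unfold thr
  apply Nat.mul_le_mul_left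
  apply Nat.mul_le_mul_right
  exact Nat.pow_le_pow_left (by omega) k

/-- the step lemma -/
theorem step (hk : 2 * d + 3 ≤ k) {L : ℕ} (hL : 2 ≤ L) : ∃ L' K N, L ≤ L' ∧ ∀ n ≥ N,
    ∀ F : Finset (PV (Fin n)), ∀ f, Big F d k f →
      K * (badX F d k (LowS F d k (thr k L'))).card ≤
        n * (badX F d k (LowS F d k (thr k L))).card →
      2 ^ (k + 2) * (dirtyX F d k (LowS F d k (thr k L))).card ≤
        (badX F d k (LowS F d k (thr k L))).card := by
  set w := k - (2 * d + 2) with hw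
  set M := thr k L with hMdef
  set C0 := 4 ^ (k - 1) * (k - 1).factorial with hC0
  set c := 2 ^ (k + 4) with hc
  set P0 := 2 ^ (2 * d + 2) * k * 2 ^ k with hP0
  set A3 := 2 * ((4 * (4 * M)) ^ w * w.factorial) with hA3
  set A3b := 2 ^ k * A3 * (1 + 4 * M * 2 ^ k * (k * k) + 8 * C0 * 2 ^ k * k) with hA3b
  set L' := L + 4 * M + c * A3b with hL'
  set M' := thr k L' with hM'def
  set A1 := ((4 * (2 * M')) ^ w * w.factorial) * (1 + 4 * M' * 2 ^ k * (k * k)) with hA1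
  set A2 := ((4 * 2) ^ w * w.factorial) * (1 + 8 * C0 * 2 ^ k * k) with hA2
  obtain ⟨N1, hN1⟩ := lowOK (d := d) hk hL
  obtain ⟨N2, hN2⟩ := lowOK (d := d) hk (show 2 ≤ L' by omega)
  refine ⟨L', c * (P0 * (A1 + A3)), N1 + N2 + c * (P0 * A2) +
    2 * M' * (2 * (2 * k) + 4 * w) + 2 * (2 * (2 * k) + 4 * w) + 4 * M * (2 * (2 * k) + 4 * w) + 1,
    by omega, ?_⟩
  intro n hn F f hB hK
  have hn0 : 0 < n := by omega
  have ok := hN1 n (by omega) F f hB
  have ok' := hN2 n (by omega) F f hB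
  have hLM : LowS F d k M' ⊆ LowS F d k M := LowS_mono (thr_mono (by omega))
  set Low := LowS F d k M with hLow
  set Low' := LowS F d k M' with hLow'
  set β := (badX F d k Low).card with hβ
  set β' := (badX F d k Low').card with hβ'
  have s1 : L * Low.card ≤ n := ok.small
  have s2 : n ≤ 2 * (univ \ Low).card := ok.half
  have s3 : ∀ x ∉ Low, n ≤ 2 * M * (Ys F d k M x).card := ok.ys
  have s4 : (Mins F d k M Low).card ≤ 4 * M * 2 ^ k * (k * k) * β := ok.mins
  have s5 : (Wrong F d k Low).card ≤ 8 * C0 * 2 ^ k * k * β := ok.wrong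
  have t1 : L' * Low'.card ≤ n := ok'.small
  have t3 : ∀ x ∉ Low', n ≤ 2 * M' * (Ys F d k M' x).card := ok'.ys
  have t4 : (Mins F d k M' Low').card ≤ 4 * M' * 2 ^ k * (k * k) * β' := ok'.mins
  have hM4 : ∀ x ∉ Low, n ≤ 4 * M * (Ys F d k M x \ Low').card := by
    intro x hx
    have a1 := s3 x hx
    have a2 : (Ys F d k M x).card ≤ (Ys F d k M x \ Low').card + Low'.card := by
      exact card_le_card_sdiff_add_card
    have a3 : 4 * M * Low'.card ≤ n := (Nat.mul_le_mul_right _ (by omega)).trans t1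
    have a4 : 4 * M * (Ys F d k M x).card ≤
        4 * M * (Ys F d k M x \ Low').card + 4 * M * Low'.card := by
      rw [← Nat.mul_add]; exact Nat.mul_le_mul_left _ a2
    have a5 : 4 * M * (Ys F d k M x).card = 2 * (2 * M * (Ys F d k M x).card) := by ring
    omega
  obtain ⟨e₁, e₂, e₃, e₄, h0, h1, h2, h3, h4⟩ := dirty_split (M := M) (M' := M') hB.isJ hk hLM s2
    t3 hM4 (by rw [← hw]; omega) (by rw [← hw]; omega) (by rw [← hw]; omega) hn0
  rw [← hw] at h1 h2 h3 h4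
  have hw1 : 1 ≤ w := by omega
  have hpow : n ^ w = n * n ^ (w - 1) := by rw [← pow_succ']; congr 1; omega
  have hX : 0 < n ^ (w - 1) := pow_pos hn0 _
  set X := n ^ (w - 1) with hXdef
  rw [hpow] at h1 h2 h3 h4
  have u1 : (badX F d k Low' ∪ Mins F d k M' Low').card ≤ (1 + 4 * M' * 2 ^ k * (k * k)) * β' := by
    refine (card_union_le _ _).trans ?_
    rw [Nat.add_mul, one_mul]; omega
  have u2 : (badX F d k Low ∪ Wrong F d k Low).card ≤ (1 + 8 * C0 * 2 ^ k * k) * β := by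
    refine (card_union_le _ _).trans ?_
    rw [Nat.add_mul, one_mul]; omega
  have u3 : (badX F d k Low ∪ Mins F d k M Low ∪ Wrong F d k Low).card ≤
      (1 + 4 * M * 2 ^ k * (k * k) + 8 * C0 * 2 ^ k * k) * β := by
    refine (card_union_le _ _).trans ?_
    have := card_union_le (badX F d k Low) (Mins F d k M Low)
    rw [Nat.add_mul, Nat.add_mul, one_mul]; omega
  have v1 : e₁ * n ≤ P0 * A1 * β' := by
    apply Nat.le_of_mul_le_mul_right _ hX
    calc e₁ * n * X = e₁ * (n * X) := by ring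
      _ ≤ _ := h1
      _ ≤ (2 ^ (2 * d + 2) * (k * X)) * 2 ^ k * ((4 * (2 * M')) ^ w * w.factorial) *
          ((1 + 4 * M' * 2 ^ k * (k * k)) * β') := Nat.mul_le_mul_left _ u1
      _ = _ := by rw [hP0, hA1]; ring
  have v2 : e₂ * n ≤ P0 * A2 * β := by
    apply Nat.le_of_mul_le_mul_right _ hX
    calc e₂ * n * X = e₂ * (n * X) := by ring
      _ ≤ _ := h2
      _ ≤ (2 ^ (2 * d + 2) * (k * X)) * 2 ^ k * ((4 * 2) ^ w * w.factorial) *
          ((1 + 8 * C0 * 2 ^ k * k) * β) := Nat.mul_le_mul_left _ u2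
      _ = _ := by rw [hP0, hA2]; ring
  have v3 : e₃ * n ≤ P0 * A3 * β' := by
    apply Nat.le_of_mul_le_mul_right _ hX
    calc e₃ * n * X = e₃ * (n * X) := by ring
      _ ≤ _ := h3
      _ = _ := by rw [hP0, hA3]; ring
  have v4 : e₄ * n ≤ Low'.card * A3b * β := by
    apply Nat.le_of_mul_le_mul_right _ hX
    calc e₄ * n * X = e₄ * (n * X) := by ring
      _ ≤ _ := h4
      _ ≤ (Low'.card * X) * 2 ^ k * (2 * ((4 * (4 * M)) ^ w * w.factorial)) *
          ((1 + 4 * M * 2 ^ k * (k * k) + 8 * C0 * 2 ^ k * k) * β) := Nat.mul_le_mul_left _ u3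
      _ = _ := by rw [hA3b, hA3]; ring
  have x1 : c * (e₁ + e₃) ≤ β := by
    apply Nat.le_of_mul_le_mul_right _ hn0
    calc c * (e₁ + e₃) * n = c * (e₁ * n + e₃ * n) := by ring
      _ ≤ c * (P0 * A1 * β' + P0 * A3 * β') := Nat.mul_le_mul_left _ (Nat.add_le_add v1 v3)
      _ = c * (P0 * (A1 + A3)) * β' := by ring
      _ ≤ n * β := hK
      _ = β * n := by ring
  have x2 : c * e₂ ≤ β := by
    apply Nat.le_of_mul_le_mul_right _ hn0
    calc c * e₂ * n = c * (e₂ * n) := by ring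
      _ ≤ c * (P0 * A2 * β) := Nat.mul_le_mul_left _ v2
      _ = c * (P0 * A2) * β := by ring
      _ ≤ n * β := Nat.mul_le_mul_right _ (by omega)
      _ = β * n := by ring
  have hA3pos : 0 < A3b := by
    rw [hA3b, hA3]
    have : 0 < w.factorial := Nat.factorial_pos _
    have hMpos : 0 < M := by
      rw [hMdef, thr]
      have : 0 < k.factorial := Nat.factorial_pos _
      have : 0 < (2 * L) ^ k := pow_pos (by omega) _
      positivity
    positivity
  have x4 : c * e₄ ≤ β := by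
    apply Nat.le_of_mul_le_mul_right _ (Nat.mul_pos hn0 hA3pos)
    calc c * e₄ * (n * A3b) = c * A3b * (e₄ * n) := by ring
      _ ≤ L' * (e₄ * n) := Nat.mul_le_mul_right _ (by omega)
      _ ≤ L' * (Low'.card * A3b * β) := Nat.mul_le_mul_left _ v4
      _ = L' * Low'.card * (A3b * β) := by ring
      _ ≤ n * (A3b * β) := Nat.mul_le_mul_right _ t1
      _ = β * (n * A3b) := by ring
  have hcc : c = 4 * 2 ^ (k + 2) := by rw [hc]; ring
  rw [hcc] at x1 x2 x4
  have y : 2 ^ (k + 2) * (dirtyX F d k Low).card ≤ 2 ^ (k + 2) * (e₁ + e₂ + e₃ + e₄) :=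
    Nat.mul_le_mul_left _ h0
  set D := 2 ^ (k + 2) with hD
  have z1 : 4 * D * (e₁ + e₃) = 4 * (D * e₁) + 4 * (D * e₃) := by ring
  have z2 : 4 * D * e₂ = 4 * (D * e₂) := by ring
  have z4 : 4 * D * e₄ = 4 * (D * e₄) := by ring
  have z5 : D * (e₁ + e₂ + e₃ + e₄) = D * e₁ + D * e₂ + D * e₃ + D * e₄ := by ring
  omega

end

end Pool.Agent.H.MP_66bcf1_co
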