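import Mathlib
import Pool.Agent.H.MP_66bcf1_co.Defs

/-!
Translation between the vertices of the signed graphs (vectors `Fin n → ℤ`) and pairs
(support, set of coordinates equal to `-1`).
-/

namespace Pool.Agent.H.MP_66bcf1_co

open Finset

/-- The pair (support, negative coordinates) of a vertex. -/
def toPV {n k : ℕ} (v : V n k) : PV (Fin n) :=
  (univ.filter fun i => v.1 i ≠ 0, univ.filter fun i => v.1 i = -1)

theorem mem_toPV_fst {n k : ℕ} {v : V n k} {i : Fin n} : i ∈ (toPV v).1 ↔ v.1 i ≠ 0 := by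
  simp [toPV]

theorem mem_toPV_snd {n k : ℕ} {v : V n k} {i : Fin n} : i ∈ (toPV v).2 ↔ v.1 i = -1 := by
  simp [toPV]

theorem isVec_toPV {n k : ℕ} (v : V n k) : IsVec k (toPV v) := by
  refine ⟨v.2.2, ?_⟩
  intro i hi
  rw [mem_toPV_snd] at hi
  rw [mem_toPV_fst, hi]
  decide

/-- The vertex with a given support and negative set. -/
def ofPV {n k : ℕ} (p : PV (Fin n)) (hp : IsVec k p) : V n k :=
  ⟨fun i => if i ∈ p.2 then -1 else if i ∈ p.1 then 1 else 0, by
    refine ⟨fun i => ?_, ?_⟩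
    · by_cases h2 : i ∈ p.2
      · simp [h2]
      · by_cases h1 : i ∈ p.1
        · simp [h1, h2]
        · simp [h1, h2]
    · rw [← hp.1]
      congr 1
      ext i
      by_cases h2 : i ∈ p.2
      · simp [h2, hp.2 h2]
      · by_cases h1 : i ∈ p.1
        · simp [h1, h2]
        · simp [h1, h2]⟩

theorem toPV_ofPV {n k : ℕ} (p : PV (Fin n)) (hp : IsVec k p) : toPV (ofPV p hp) = p := by
  apply Prod.ext
  · ext i
    rw [mem_toPV_fst]
    by_cases h2 : i ∈ p.2
    · simp [ofPV, h2, hp.2 h2]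
    · by_cases h1 : i ∈ p.1
      · simp [ofPV, h1, h2]
      · simp [ofPV, h1, h2]
  · ext i
    rw [mem_toPV_snd]
    by_cases h2 : i ∈ p.2
    · simp [ofPV, h2]
    · by_cases h1 : i ∈ p.1
      · simp [ofPV, h1, h2]
      · simp [ofPV, h1, h2]

theorem toPV_injective {n k : ℕ} : Function.Injective (toPV : V n k → PV (Fin n)) := by
  intro u v h
  apply Subtype.ext
  funext i
  have h1 : u.1 i ≠ 0 ↔ v.1 i ≠ 0 := by rw [← mem_toPV_fst, ← mem_toPV_fst, h]
  have h2 : u.1 i = -1 ↔ v.1 i = -1 := by rw [← mem_toPV_snd, ← mem_toPV_snd, h]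
  rcases u.2.1 i with hu | hu | hu <;> rcases v.2.1 i with hv | hv | hv <;>
    first
    | (rw [hu, hv]; done)
    | (rw [hu, hv]; rw [hu, hv] at h1 h2; omega)

instance finite_V (n k : ℕ) : Finite (V n k) := Finite.of_injective toPV toPV_injective

theorem dotProduct_eq {n k : ℕ} (u v : V n k) : u.1 ⬝ᵥ v.1 = dotp (toPV u) (toPV v) := by
  unfold dotp dotProduct
  have h1 : (((toPV u).1 ∩ (toPV v).1).card : ℤ) =
      ∑ i : Fin n, if i ∈ (toPV u).1 ∩ (toPV v).1 then (1 : ℤ) else 0 := by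
    rw [Finset.sum_ite_mem]
    simp
  have h2 : ((symmDiff (toPV u).2 (toPV v).2 ∩ ((toPV u).1 ∩ (toPV v).1)).card : ℤ) =
      ∑ i : Fin n, if i ∈ symmDiff (toPV u).2 (toPV v).2 ∩ ((toPV u).1 ∩ (toPV v).1)
        then (1 : ℤ) else 0 := by
    rw [Finset.sum_ite_mem]
    simp
  rw [h1, h2, Finset.mul_sum, ← Finset.sum_sub_distrib]
  refine Finset.sum_congr rfl fun i _ => ?_
  simp only [Finset.mem_inter, Finset.mem_symmDiff, mem_toPV_fst, mem_toPV_snd]
  rcases u.2.1 i with hu | hu | hu <;> rcases v.2.1 i with hv | hv | hv <;>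
    rw [hu, hv] <;> norm_num

/-- The dot product of two vertices is at least `-k`. -/
theorem neg_le_dotp {n k : ℕ} (u v : V n k) : -(k : ℤ) ≤ u.1 ⬝ᵥ v.1 := by
  rw [dotProduct_eq]
  unfold dotp
  have h1 : (symmDiff (toPV u).2 (toPV v).2 ∩ ((toPV u).1 ∩ (toPV v).1)).card ≤
      ((toPV u).1 ∩ (toPV v).1).card := Finset.card_le_card Finset.inter_subset_right
  have h2 : ((toPV u).1 ∩ (toPV v).1).card ≤ k :=
    (Finset.card_le_card Finset.inter_subset_left).trans_eq (isVec_toPV u).1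
  omega

theorem J_eq_K (n k s : ℕ) (h : k ≤ s) : J n k (-(s : ℤ)) = K n k (-(s : ℤ)) := by
  ext u v
  have h1 := neg_le_dotp u v
  change (u ≠ v ∧ u.1 ⬝ᵥ v.1 = -(s : ℤ)) ↔ (u ≠ v ∧ u.1 ⬝ᵥ v.1 ≤ -(s : ℤ))
  constructor
  · rintro ⟨h2, h3⟩
    exact ⟨h2, h3.le⟩
  · rintro ⟨h2, h3⟩
    exact ⟨h2, by omega⟩

theorem dotp_self {α : Type*} [DecidableEq α] (p : PV α) : dotp p p = (p.1.card : ℤ) := by
  unfold dotp
  simp

theorem indepNum_eq (n k s : ℕ) (hs : 0 < s)
    (h : ∀ F : Finset (PV (Fin n)), (∀ p ∈ F, IsVec k p) →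
      (∀ p ∈ F, ∀ q ∈ F, dotp p q ≠ -(s : ℤ)) →
      ∃ G : Finset (PV (Fin n)), (∀ p ∈ G, IsVec k p) ∧
        (∀ p ∈ G, ∀ q ∈ G, -(s : ℤ) < dotp p q) ∧ F.card ≤ G.card) :
    (J n k (-(s : ℤ))).indepNum = (K n k (-(s : ℤ))).indepNum := by
  classical
  apply le_antisymm
  · obtain ⟨S, hS⟩ := (J n k (-(s : ℤ))).exists_isNIndepSet_indepNum
    obtain ⟨G, hG1, hG2, hG3⟩ := h (S.image toPV) (by
      intro p hp
      obtain ⟨v, _, rfl⟩ := Finset.mem_image.1 hp
      exact isVec_toPV v) (by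
      intro p hp q hq
      obtain ⟨u, hu, rfl⟩ := Finset.mem_image.1 hp
      obtain ⟨v, hv, rfl⟩ := Finset.mem_image.1 hq
      by_cases huv : u = v
      · subst huv
        rw [dotp_self]
        omega
      · intro hd
        exact hS.isIndepSet hu hv huv ⟨huv, by rw [dotProduct_eq, hd]⟩)
    rw [Finset.card_image_of_injective _ toPV_injective, hS.card_eq] at hG3
    refine hG3.trans ?_
    have hT : (K n k (-(s : ℤ))).IsIndepSet
        ((G.attach.image fun p => ofPV p.1 (hG1 p.1 p.2) : Finset (V n k)) : Set (V n k)) := by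
      intro u hu v hv huv hadj
      obtain ⟨p, _, rfl⟩ := Finset.mem_image.1 (Finset.mem_coe.1 hu)
      obtain ⟨q, _, rfl⟩ := Finset.mem_image.1 (Finset.mem_coe.1 hv)
      have h1 := hadj.2
      rw [dotProduct_eq, toPV_ofPV, toPV_ofPV] at h1
      have h2 := hG2 p.1 p.2 q.1 q.2
      omega
    have hle := hT.card_le_indepNum
    rwa [Finset.card_image_of_injective, Finset.card_attach] at hle
    intro p q hpq
    have := congrArg toPV hpq
    simp only [toPV_ofPV] at this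
    exact Subtype.ext this
  · obtain ⟨S, hS⟩ := (K n k (-(s : ℤ))).exists_isNIndepSet_indepNum
    rw [← hS.card_eq]
    apply SimpleGraph.IsIndepSet.card_le_indepNum
    intro u hu v hv huv hadj
    exact hS.isIndepSet hu hv huv ⟨hadj.1, hadj.2.le⟩

end Pool.Agent.H.MP_66bcf1_co
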